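import Pool.Agent.Lib.P4a177x.Defs

/-!
# MODULE P4a177x.HenX: points of the hypersurface near a divisor at infinity (Hensel's lemma)

PROOF. `A.a k ≠ 0` (`A.ne_zero k`), so there is `κ : Fin n → L` with `linv A k κ = 1` (a multiple of a `Pi.single`). We look for
`x = y / z + w κ` with `w ∈ L[[z]]`: then `l_k(x) = w + c_k` (`c_k = A.c k`), and for `i ≠ k`
`l_i(x) = z⁻¹ (linv A i y + z (w linv A i κ + c_i))`. With `w = -c_k + z ^ D / q`, `q` a unit, the equation
`N l_k ∏_{i ≠ k} l_i = 1` becomes (`D` factors with `i ≠ k`) `N ∏_{i ≠ k} (b_i + z ^ (D + 1) h_i / q) = q`, with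
`b_i = linv A i y + z (c_i - c_k h_i)`, `h_i = linv A i κ`; multiplied by `q ^ D`: the MONIC equation of degree `D + 1`
`q ^ (D + 1) - N ∏_{i ≠ k} (b_i q + z ^ (D + 1) h_i) = 0` over `L[[z]]`. Modulo `z` it is `q ^ D (q - q₀)`, `q₀ = N ∏_{i ≠ k} linv A i y ≠ 0`, and the
derivative at `q₀` is `q₀ ^ D`, a unit. `L[[z]]` is Henselian (see the proof of `P4a177w.CuspWAux.exists_root` in
`Lib/P4a177w/CuspW.lean` for the way to apply it). The root `q` has the constant coefficient `q₀`, is a unit, and
`U = q⁻¹`, `V i = b_i + z ^ (D + 1) h_i U`, `Y s = y s + z (w κ_s)`. The coercion of power series to Laurent series is a ring homomorphism,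
`single (-1) 1 * (z : LaurentSeries L) = 1`, `HahnSeries.single_mul_single`, `PowerSeries.coe_X`.
-/

set_option autoImplicit false

namespace P4a177x

open P4a177h P4a177s

namespace HenXAux

open Polynomial in
/-- Hensel's lemma for the equation `q ^ (D + 1) = N ∏ (b_i q + z ^ (D + 1) h_i)`. -/
theorem exists_root {ι L : Type} [DecidableEq ι] [Field L] (s : Finset ι) (N : L) (b : ι → L)
    (hN : N ≠ 0) (hb : ∀ i ∈ s, b i ≠ 0) (e h : ι → PowerSeries L) :
    ∃ q : PowerSeries L, PowerSeries.constantCoeff q = N * ∏ i ∈ s, b i ∧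
      q ^ (s.card + 1) = PowerSeries.C N * ∏ i ∈ s,
        ((PowerSeries.C (b i) + PowerSeries.X * e i) * q + PowerSeries.X * h i) := by
  classical
  set I : Ideal (PowerSeries L) := Ideal.span {PowerSeries.X} with hI
  have hH : HenselianRing (PowerSeries L) I := inferInstance
  set g : (PowerSeries L)[X] := C (PowerSeries.C N) * ∏ i ∈ s,
    (C (PowerSeries.C (b i) + PowerSeries.X * e i) * X + C (PowerSeries.X * h i)) with hg
  set q0 : L := N * ∏ i ∈ s, b i with hq0
  have hq0' : q0 ≠ 0 := mul_ne_zero hN (Finset.prod_ne_zero_iff.2 hb)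
  have hdeg : g.natDegree ≤ s.card := by
    rw [hg]
    refine (natDegree_C_mul_le _ _).trans ((natDegree_prod_le _ _).trans ?_)
    calc ∑ i ∈ s, (C (PowerSeries.C (b i) + PowerSeries.X * e i) * X +
        C (PowerSeries.X * h i) : (PowerSeries L)[X]).natDegree ≤ ∑ _i ∈ s, 1 :=
          Finset.sum_le_sum fun i _ => natDegree_linear_le
      _ = s.card := by simp
  have hm : ((X : (PowerSeries L)[X]) ^ (s.card + 1) - g).Monic := by
    refine (monic_X_pow _).sub_of_left ?_
    rw [degree_X_pow]
    refine lt_of_le_of_lt (degree_le_of_natDegree_le hdeg) ?_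
    exact_mod_cast Nat.lt_succ_self _
  have hmap : ((X : (PowerSeries L)[X]) ^ (s.card + 1) - g).map
      (PowerSeries.constantCoeff (R := L)) = X ^ s.card * (X - C q0) := by
    have h1 : ∀ i ∈ s, (C (PowerSeries.C (b i) + PowerSeries.X * e i) * X +
        C (PowerSeries.X * h i) : (PowerSeries L)[X]).map (PowerSeries.constantCoeff (R := L)) =
        C (b i) * X := by
      intro i _
      simp
    rw [Polynomial.map_sub, Polynomial.map_pow, map_X, hg, Polynomial.map_mul, map_C,
      Polynomial.map_prod, Finset.prod_congr rfl h1, PowerSeries.constantCoeff_C,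
      Finset.prod_mul_distrib, Finset.prod_const, ← map_prod, hq0, map_mul]
    ring
  have hev : ∀ (P : (PowerSeries L)[X]) (r : L), PowerSeries.constantCoeff
      (P.eval (PowerSeries.C r)) = (P.map (PowerSeries.constantCoeff (R := L))).eval r := by
    intro P r
    rw [eval_map]
    have h1 := Polynomial.eval₂_at_apply (p := P) (PowerSeries.constantCoeff (R := L))
      (PowerSeries.C r)
    rw [PowerSeries.constantCoeff_C] at h1
    exact h1.symm
  have h0 : ((X : (PowerSeries L)[X]) ^ (s.card + 1) - g).eval (PowerSeries.C q0) ∈ I := by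
    rw [hI, Ideal.mem_span_singleton, PowerSeries.X_dvd_iff, hev, hmap]
    simp
  have h2 : IsUnit (((X : (PowerSeries L)[X]) ^ (s.card + 1) - g).derivative.eval
      (PowerSeries.C q0)) := by
    rw [PowerSeries.isUnit_iff_constantCoeff, hev, ← Polynomial.derivative_map, hmap,
      derivative_mul, derivative_X_sub_C, mul_one, eval_add, eval_mul, eval_sub, eval_X, eval_C,
      sub_self, mul_zero, zero_add, eval_pow, eval_X]
    exact IsUnit.mk0 _ (pow_ne_zero _ hq0')
  obtain ⟨F, hF1, hF2⟩ := hH.is_henselian _ hm (PowerSeries.C q0) h0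
    (h2.map (Ideal.Quotient.mk I))
  refine ⟨F, ?_, ?_⟩
  · rw [hI, Ideal.mem_span_singleton, PowerSeries.X_dvd_iff, map_sub, PowerSeries.constantCoeff_C,
      sub_eq_zero] at hF2
    exact hF2
  · have h3 : ((X : (PowerSeries L)[X]) ^ (s.card + 1) - g).eval F = 0 := hF1
    rw [eval_sub, eval_pow, eval_X, hg, eval_mul, eval_C, eval_prod, sub_eq_zero] at h3
    rw [h3]
    congr 1
    refine Finset.prod_congr rfl fun i _ => ?_
    simp only [eval_add, eval_mul, eval_C, eval_X]

/-- There is a vector with `linv A k κ = 1`. -/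
theorem exists_kappa {n D : ℕ} (A : Arr n (D + 1)) (L : Type) [Field L] [CharZero L]
    (k : Fin (D + 1)) : ∃ κ : Fin n → L, linv A k κ = 1 := by
  classical
  obtain ⟨j, hj⟩ := Function.ne_iff.1 (A.ne_zero k)
  have hj' : (A.a k j : L) ≠ 0 := Int.cast_ne_zero.2 hj
  refine ⟨Pi.single j (A.a k j : L)⁻¹, ?_⟩
  unfold linv
  rw [Finset.sum_eq_single j]
  · rw [Pi.single_eq_same, mul_inv_cancel₀ hj']
  · intro i _ hi
    rw [Pi.single_eq_of_ne hi, mul_zero]
  · intro h
    exact absurd (Finset.mem_univ j) h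

end HenXAux

theorem exists_inf {n D : ℕ} (A : Arr n (D + 1)) (N : ℕ) (hN : 1 ≤ N) (hD : 1 ≤ D) (L : Type)
    [Field L] [CharZero L] (k : Fin (D + 1)) (y : Fin n → L) (hk : linv A k y = 0)
    (hi : ∀ i, i ≠ k → linv A i y ≠ 0) :
    ∃ (Y : Fin n → PowerSeries L) (U : Fin (D + 1) → PowerSeries L),
      (∀ s, PowerSeries.constantCoeff (Y s) = y s) ∧
      PowerSeries.constantCoeff (U k) * ((N : L) * ∏ i ∈ Finset.univ.erase k, linv A i y) = 1 ∧
      (∀ i, i ≠ k → PowerSeries.constantCoeff (U i) = linv A i y) ∧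
      A.On N (fun s => HahnSeries.single (-1 : ℤ) 1 * (Y s : LaurentSeries L)) ∧
      A.form k (fun s => HahnSeries.single (-1 : ℤ) 1 * (Y s : LaurentSeries L)) =
        HahnSeries.single (D : ℤ) 1 * (U k : LaurentSeries L) ∧
      ∀ i, i ≠ k → A.form i (fun s => HahnSeries.single (-1 : ℤ) 1 * (Y s : LaurentSeries L)) =
        HahnSeries.single (-1 : ℤ) 1 * (U i : LaurentSeries L) := by
  classical
  obtain ⟨κ, hκ⟩ := HenXAux.exists_kappa A L k
  have hN' : (N : L) ≠ 0 := by
    have : N ≠ 0 := by omega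
    exact_mod_cast this
  obtain ⟨q, hq0, hq⟩ := HenXAux.exists_root (Finset.univ.erase k) (N : L)
    (fun i => linv A i y) hN' (fun i hi' => hi i (Finset.ne_of_mem_erase hi'))
    (fun i => PowerSeries.C ((A.c i : L) - A.c k * linv A i κ))
    (fun i => PowerSeries.X ^ D * PowerSeries.C (linv A i κ))
  have hcard : (Finset.univ.erase k).card = D := by
    rw [Finset.card_erase_of_mem (Finset.mem_univ k), Finset.card_univ, Fintype.card_fin]
    rfl
  rw [hcard] at hq
  have hq0' : PowerSeries.constantCoeff q ≠ 0 := by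
    rw [hq0]
    exact mul_ne_zero hN' (Finset.prod_ne_zero_iff.2 fun i hi' =>
      hi i (Finset.ne_of_mem_erase hi'))
  have hqq : q * q⁻¹ = 1 := PowerSeries.mul_inv_cancel q hq0'
  set W : PowerSeries L := -PowerSeries.C (A.c k : L) + PowerSeries.X ^ D * q⁻¹ with hW
  set Y : Fin n → PowerSeries L := fun s => PowerSeries.C (y s) +
    PowerSeries.X * (W * PowerSeries.C (κ s)) with hY
  set T : Fin (D + 1) → PowerSeries L := fun i => PowerSeries.C (linv A i y) +
    PowerSeries.X * (W * PowerSeries.C (linv A i κ) + PowerSeries.C (A.c i : L)) with hT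
  set U : Fin (D + 1) → PowerSeries L := fun i => if i = k then q⁻¹ else T i with hU
  set ι : PowerSeries L →+* LaurentSeries L := HahnSeries.ofPowerSeries ℤ L with hι
  set z' : LaurentSeries L := HahnSeries.single (-1 : ℤ) 1 with hz'
  have hzX : z' * ι PowerSeries.X = 1 := by
    rw [hι, HahnSeries.ofPowerSeries_X, hz', HahnSeries.single_mul_single]
    simp
  have hsD : (HahnSeries.single (D : ℤ) 1 : LaurentSeries L) = ι (PowerSeries.X ^ D) := by
    rw [hι, HahnSeries.ofPowerSeries_X_pow]
  -- the values of the forms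
  have hsum : ∀ i, ∑ j, (A.a i j : PowerSeries L) * Y j + (A.c i : PowerSeries L) *
      PowerSeries.X = T i := by
    intro i
    have e1 : ∀ z : ℤ, (z : PowerSeries L) = PowerSeries.C (z : L) := fun z => by
      rw [map_intCast]
    have e2 : ∑ j, (A.a i j : PowerSeries L) * Y j = PowerSeries.C (linv A i y) +
        PowerSeries.X * (W * PowerSeries.C (linv A i κ)) := by
      have e3 : ∀ v : Fin n → L, PowerSeries.C (linv A i v) =
          ∑ j, (A.a i j : PowerSeries L) * PowerSeries.C (v j) := by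
        intro v
        unfold linv
        rw [map_sum]
        refine Finset.sum_congr rfl fun j _ => ?_
        rw [map_mul, map_intCast]
      rw [e3, e3, Finset.mul_sum, Finset.mul_sum, ← Finset.sum_add_distrib]
      refine Finset.sum_congr rfl fun j _ => ?_
      rw [hY]
      ring
    rw [e2, e1, hT]
    ring
  have hform : ∀ i, A.form i (fun s => z' * ι (Y s)) = z' * ι (T i) := by
    intro i
    rw [← hsum i, map_add, map_sum, map_mul]
    unfold Arr.form
    rw [mul_add, Finset.mul_sum]
    congr 1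
    · refine Finset.sum_congr rfl fun j _ => ?_
      rw [map_mul, map_intCast]
      ring
    · rw [map_intCast]
      calc (A.c i : LaurentSeries L) = (z' * ι PowerSeries.X) * (A.c i : LaurentSeries L) := by
            rw [hzX, one_mul]
        _ = z' * ((A.c i : LaurentSeries L) * ι PowerSeries.X) := by ring
  have hTk : T k = PowerSeries.X * (PowerSeries.X ^ D * q⁻¹) := by
    rw [hT]
    simp only [hk, hκ, map_zero, map_one, hW]
    ring
  have hformk : A.form k (fun s => z' * ι (Y s)) = ι (PowerSeries.X ^ D) * ι q⁻¹ := by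
    rw [hform, hTk, map_mul, ← mul_assoc, hzX, one_mul, map_mul]
  have hTi : ∀ i, (PowerSeries.C (linv A i y) + PowerSeries.X *
      PowerSeries.C ((A.c i : L) - A.c k * linv A i κ)) * q +
      PowerSeries.X * (PowerSeries.X ^ D * PowerSeries.C (linv A i κ)) = T i * q := by
    intro i
    have e1 : T i * q = (PowerSeries.C (linv A i y) + PowerSeries.X *
      PowerSeries.C ((A.c i : L) - A.c k * linv A i κ)) * q +
      PowerSeries.X * (PowerSeries.X ^ D * PowerSeries.C (linv A i κ)) * (q * q⁻¹) := by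
      rw [hT, hW]
      simp only [map_sub, map_mul]
      ring
    rw [e1, hqq, mul_one]
  have hprod : (N : PowerSeries L) * ∏ i ∈ Finset.univ.erase k, T i = q := by
    rw [Finset.prod_congr rfl fun i _ => hTi i, Finset.prod_mul_distrib, Finset.prod_const,
      hcard, map_natCast] at hq
    have hqD : q ^ D * (q⁻¹) ^ D = 1 := by rw [← mul_pow, hqq, one_pow]
    calc (N : PowerSeries L) * ∏ i ∈ Finset.univ.erase k, T i =
        ((N : PowerSeries L) * ((∏ i ∈ Finset.univ.erase k, T i) * q ^ D)) * (q⁻¹) ^ D := by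
          calc _ = ((N : PowerSeries L) * ∏ i ∈ Finset.univ.erase k, T i) *
              (q ^ D * (q⁻¹) ^ D) := by rw [hqD, mul_one]
            _ = _ := by ring
      _ = q ^ (D + 1) * (q⁻¹) ^ D := by rw [← hq]
      _ = q * (q ^ D * (q⁻¹) ^ D) := by ring
      _ = q := by rw [hqD, mul_one]
  have hUk : U k = q⁻¹ := by
    rw [hU]
    simp
  have hUi : ∀ i, i ≠ k → U i = T i := by
    intro i hik
    rw [hU]
    simp [hik]
  refine ⟨Y, U, ?_, ?_, ?_, ?_, ?_, ?_⟩
  · intro s
    rw [hY]
    simp
  · rw [hUk, PowerSeries.constantCoeff_inv, ← hq0, inv_mul_cancel₀ hq0']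
  · intro i hik
    rw [hUi i hik, hT]
    simp
  · show (N : LaurentSeries L) * ∏ i, A.form i (fun s => z' * ι (Y s)) = 1
    rw [← Finset.mul_prod_erase _ _ (Finset.mem_univ k), hformk,
      Finset.prod_congr rfl fun i _ => hform i, Finset.prod_mul_distrib, Finset.prod_const, hcard,
      ← map_prod]
    have e1 : (N : LaurentSeries L) = ι (N : PowerSeries L) := by rw [map_natCast]
    rw [e1, map_pow]
    calc ι (N : PowerSeries L) * (ι PowerSeries.X ^ D * ι q⁻¹ *
          (z' ^ D * ι (∏ i ∈ Finset.univ.erase k, T i)))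
        = (z' * ι PowerSeries.X) ^ D * (ι ((N : PowerSeries L) *
            ∏ i ∈ Finset.univ.erase k, T i) * ι q⁻¹) := by
          rw [ι.map_mul (N : PowerSeries L), mul_pow]
          generalize ι (N : PowerSeries L) = u1
          generalize ι q⁻¹ = u2
          generalize ι (∏ i ∈ Finset.univ.erase k, T i) = u3
          ring
      _ = 1 := by rw [hzX, one_pow, one_mul, hprod, ← map_mul, hqq, map_one]
  · show A.form k (fun s => z' * ι (Y s)) = HahnSeries.single (D : ℤ) 1 * ι (U k)
    rw [hformk, hUk, hsD]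
  · intro i hik
    show A.form i (fun s => z' * ι (Y s)) = z' * ι (U i)
    rw [hform, hUi i hik]

end P4a177x
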