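import Pool.Agent.Lib.P4a177x.Defs

/-!
# MODULE P4a177x.DomX: the coordinate ring is a domain

PROOF. `Arr.irreducible_map` (`Lib/P4a177s/PrimeC.lean`): the equation is irreducible over `ℂ` for every `N ≥ 1`, so it is irreducible over `ℚ`
(a factor whose image over `ℂ` is constant is constant), hence prime, and the quotient is a domain.
-/

set_option autoImplicit false

namespace P4a177x

open P4a177h P4a177s

namespace DomXAux

theorem isUnit_of_map {n : ℕ} (G : MvPolynomial (Fin n) ℚ)
    (h : IsUnit (MvPolynomial.map (algebraMap ℚ ℂ) G)) : IsUnit G := by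
  rw [MvPolynomial.isUnit_iff_eq_C_of_isReduced] at h
  obtain ⟨r, hr, hG⟩ := h
  have h0 : r = algebraMap ℚ ℂ (MvPolynomial.coeff 0 G) := by
    have := congrArg (MvPolynomial.coeff 0) hG
    rw [MvPolynomial.coeff_map, MvPolynomial.coeff_zero_C] at this
    exact this.symm
  have h1 : G = MvPolynomial.C (MvPolynomial.coeff 0 G) := by
    apply MvPolynomial.map_injective (algebraMap ℚ ℂ) (algebraMap ℚ ℂ).injective
    rw [MvPolynomial.map_C, ← h0, hG]
  have h2 : MvPolynomial.coeff 0 G ≠ 0 := by
    intro h3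
    rw [h3, map_zero] at h0
    exact hr.ne_zero h0
  rw [h1]
  exact (isUnit_iff_ne_zero.2 h2).map MvPolynomial.C

theorem irreducible_of_map {n : ℕ} (P : MvPolynomial (Fin n) ℚ)
    (h : Irreducible (MvPolynomial.map (algebraMap ℚ ℂ) P)) : Irreducible P := by
  constructor
  · intro hu
    exact h.not_isUnit (hu.map (MvPolynomial.map (algebraMap ℚ ℂ)))
  · intro G H hGH
    rw [hGH, map_mul] at h
    rcases h.isUnit_or_isUnit rfl with h1 | h1
    · exact Or.inl (isUnit_of_map G h1)
    · exact Or.inr (isUnit_of_map H h1)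

end DomXAux

theorem isDomain {n D : ℕ} (A : Arr n D) (hn : 2 ≤ n) (N : ℕ) (hN : 1 ≤ N) :
    IsDomain (A.CoordRing N) := by
  have h1 : Irreducible (A.eqn N) :=
    DomXAux.irreducible_of_map _ (A.irreducible_map hn N hN)
  rw [Ideal.Quotient.isDomain_iff_prime, Ideal.span_singleton_prime h1.ne_zero]
  exact h1.prime

end P4a177x
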