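import Pool.Agent.Lib.P4a177x.TopX
import Pool.Agent.Lib.P4a177x.DomX

/-!
# The expansion of the functions at a generic point of a divisor at infinity is injective

The coordinate ring is a domain and algebraic over the ring generated by the `m + 1` forms
`l_{F 1}, …, l_{F m}, l_e`, on which the expansion is injective (look at the top form of a polynomial
in these forms).
-/

set_option autoImplicit false

namespace P4a177x

open P4a177h P4a177s Function MvPolynomial

namespace InjXAux

lemma hc_ne_zero {σ : Type*} (H : MvPolynomial σ ℚ) (hH : H ≠ 0) :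
    homogeneousComponent H.totalDegree H ≠ 0 := by
  obtain ⟨u, hu, hu'⟩ : ∃ u ∈ H.support, H.totalDegree = u.degree := by
    have h := Finset.exists_mem_eq_sup H.support (by
      rwa [Finset.nonempty_iff_ne_empty, Ne, MvPolynomial.support_eq_empty])
      (fun s => s.sum fun _ e => e)
    obtain ⟨u, hu, h1⟩ := h
    exact ⟨u, hu, h1⟩
  intro h
  have h1 := congrArg (coeff u) h
  rw [coeff_homogeneousComponent, if_pos hu'.symm, coeff_zero] at h1
  exact (mem_support_iff.1 hu) h1

lemma eval_hc_smul {n : ℕ} (G : MvPolynomial (Fin n) ℚ) (d : ℕ) (c : ℚ) (x : Fin n → ℚ) :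
    eval (fun i => c * x i) (homogeneousComponent d G) =
      c ^ d * eval x (homogeneousComponent d G) := by
  rw [eval_eq', eval_eq', Finset.mul_sum]
  refine Finset.sum_congr rfl fun u hu => ?_
  have h1 : u.degree = d := by
    by_contra hc
    rw [mem_support_iff, coeff_homogeneousComponent, if_neg hc] at hu
    exact hu rfl
  have h2 : ∑ i, u i = d := by
    rw [← h1, Finsupp.degree_eq_sum]
  simp_rw [mul_pow]
  rw [Finset.prod_mul_distrib, Finset.prod_pow_eq_pow_sum, h2]
  ring

/-- the polynomials `T_1, …, T_m, 1` -/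
noncomputable def sn (m : ℕ) : Fin (m + 1) → MvPolynomial (Fin m) ℚ :=
  Fin.snoc (α := fun _ => MvPolynomial (Fin m) ℚ) (fun a => X a) 1

lemma dehom_ne_zero {m : ℕ} (H : MvPolynomial (Fin (m + 1)) ℚ) (hH : H ≠ 0) :
    aeval (sn m) (homogeneousComponent H.totalDegree H) ≠ 0 := by
  intro h0
  apply hc_ne_zero H hH
  set d := H.totalDegree
  have h1 : homogeneousComponent d H * X (Fin.last m) = 0 := by
    apply MvPolynomial.funext
    intro x
    rw [map_mul, eval_X, map_zero]
    by_cases hx : x (Fin.last m) = 0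
    · rw [hx, mul_zero]
    have h2 := eval_hc_smul H d (x (Fin.last m)) (fun i => x i / x (Fin.last m))
    have h3 : (fun i => x (Fin.last m) * (x i / x (Fin.last m))) = x := by
      funext i
      field_simp
    rw [h3] at h2
    have h4 : eval (fun i => x i / x (Fin.last m)) (homogeneousComponent d H) =
        eval (fun i => x (Fin.castSucc i) / x (Fin.last m))
          (aeval (sn m) (homogeneousComponent d H)) := by
      have h5 : (eval (fun i => x i / x (Fin.last m)) : MvPolynomial (Fin (m + 1)) ℚ →+* ℚ) =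
          (eval (fun i => x (Fin.castSucc i) / x (Fin.last m)) :
            MvPolynomial (Fin m) ℚ →+* ℚ).comp
              (aeval (sn m) : MvPolynomial (Fin (m + 1)) ℚ →ₐ[ℚ] _).toRingHom := by
        apply MvPolynomial.ringHom_ext
        · intro r
          simp
        · intro i
          refine Fin.lastCases ?_ (fun i => ?_) i
          · simp [sn, div_self hx]
          · simp [sn]
      exact RingHom.congr_fun h5 _
    rw [h2, h4, h0, map_zero, mul_zero, zero_mul]
  rcases mul_eq_zero.1 h1 with h2 | h2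
  · exact h2
  · exact absurd h2 (X_ne_zero _)

lemma phi_ne_zero {m D : ℕ} {A : Arr (m + 2) (D + 1)} {F : Fin (m + 1) → Fin (D + 1)}
    (P : Pt A F) (Z : Fin (m + 1) → PowerSeries P.L)
    (hZ : ∀ s, PowerSeries.constantCoeff (Z s) =
      (Fin.snoc (α := fun _ => P.L) (fun a => (P.z a : P.L)) 1 : Fin (m + 1) → P.L) s)
    (κ : ℚ →+* LaurentSeries P.L) (H : MvPolynomial (Fin (m + 1)) ℚ) (hH : H ≠ 0) :
    eval₂ κ (fun s => HahnSeries.single (-1 : ℤ) 1 * (Z s : LaurentSeries P.L)) H ≠ 0 := by
  intro h0
  have h1 := coeff_top P.Λ.ι _ Z hZ H H.totalDegree le_rfl κ (by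
    rw [h0, map_zero]
    exact WithZero.exp_pos)
  refine P.indep _ (dehom_ne_zero H hH) ?_
  rw [← h1]
  have h5 : (eval₂Hom P.Λ.ι (Fin.snoc (α := fun _ => P.L) (fun a => (P.z a : P.L)) 1)) =
      (eval₂Hom P.Λ.ι (fun a => (P.z a : P.L))).comp
        (aeval (sn m) : MvPolynomial (Fin (m + 1)) ℚ →ₐ[ℚ] _).toRingHom := by
    apply MvPolynomial.ringHom_ext
    · intro r
      simp
    · intro i
      refine Fin.lastCases ?_ (fun i => ?_) i
      · simp [sn]
      · simp [sn]
  exact (RingHom.congr_fun h5 (homogeneousComponent H.totalDegree H)).symm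

lemma alg_inj {S R K : Type*} [CommRing S] [IsDomain S] [CommRing R] [IsDomain R] [Algebra S R]
    [Field K] (φ : R →+* K) (halg : ∀ r : R, IsAlgebraic S r)
    (h : ∀ s : S, s ≠ 0 → φ (algebraMap S R s) ≠ 0) : Injective φ := by
  rw [injective_iff_map_eq_zero]
  intro x hx
  by_contra hne
  refine Ideal.comap_ne_bot_of_algebraic_mem (I := RingHom.ker φ) hne
    ((RingHom.mem_ker).2 hx) (halg x) ?_
  rw [eq_bot_iff]
  intro s hs
  rw [Ideal.mem_comap, RingHom.mem_ker] at hs
  by_contra hs0
  exact h s hs0 hs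

end InjXAux

open InjXAux in
theorem pt_inj {m D : ℕ} (A : Arr (m + 2) (D + 1)) (hA : GP A) (N : ℕ) (hN : 1 ≤ N)
    (F : Fin (m + 1) → Fin (D + 1)) (hF : Injective F) (P : Pt A F)
    (φ : A.CoordRing N →+* LaurentSeries P.L) (Y : Fin (m + 2) → PowerSeries P.L)
    (hY : ∀ s, PowerSeries.constantCoeff (Y s) = P.y s)
    (hφ : ∀ s, φ (A.coord N s) = HahnSeries.single (-1 : ℤ) 1 * (Y s : LaurentSeries P.L)) :
    Injective φ := by
  classical
  haveI := isDomain A (by omega : 2 ≤ m + 2) N hN
  set R := A.CoordRing N with hR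
  set x : Fin (m + 2) → R := A.coord N with hx
  set q : Fin (m + 1) → Fin (D + 1) :=
    Fin.snoc (α := fun _ => Fin (D + 1)) (fun a => F a.succ) P.e with hq
  set Bq : Fin (m + 2) → Fin (D + 1) := Fin.cons (F 0) q with hBq
  have hqinj : Injective q := by
    intro i j
    refine Fin.lastCases ?_ (fun i => ?_) i
    · refine Fin.lastCases ?_ (fun j => ?_) j
      · exact fun _ => rfl
      · intro h
        rw [hq, Fin.snoc_last, Fin.snoc_castSucc] at h
        exact absurd h.symm (P.he _)
    · refine Fin.lastCases ?_ (fun j => ?_) j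
      · intro h
        rw [hq, Fin.snoc_last, Fin.snoc_castSucc] at h
        exact absurd h (P.he _)
      · intro h
        rw [hq, Fin.snoc_castSucc, Fin.snoc_castSucc] at h
        have := Fin.succ_injective _ (hF h)
        rw [this]
  have hinj : Injective Bq := by
    rw [hBq, Fin.cons_injective_iff]
    refine ⟨?_, hqinj⟩
    rintro ⟨i, hi⟩
    revert hi
    refine Fin.lastCases ?_ (fun i => ?_) i
    · intro h
      rw [hq, Fin.snoc_last] at h
      exact P.he 0 h.symm
    · intro h
      rw [hq, Fin.snoc_castSucc] at h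
      exact (Fin.succ_ne_zero _) (hF h)
  have hlam : A.lam Bq ≠ 0 := hA Bq hinj
  have hlamR : (A.lam Bq : R) ≠ 0 := by
    have h1 : (A.lam Bq : R) = algebraMap ℚ R (A.lam Bq : ℚ) := by simp
    rw [h1]
    intro h2
    have h3 := (algebraMap ℚ R).injective (h2.trans (map_zero _).symm)
    exact hlam (by exact_mod_cast h3)
  -- the ring of the forms `l_{q s}`
  let ψ : MvPolynomial (Fin (m + 1)) ℚ →ₐ[ℚ] R := aeval (fun s => A.form (q s) x)
  have hψX : ∀ s, ψ (X s) = A.form (q s) x := fun s =>
    aeval_X (R := ℚ) (fun s => A.form (q s) x) s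
  letI alg : Algebra (MvPolynomial (Fin (m + 1)) ℚ) R := ψ.toRingHom.toAlgebra
  have hmap : ∀ s, algebraMap (MvPolynomial (Fin (m + 1)) ℚ) R s = ψ s := fun _ => rfl
  set 𝔸 := Subalgebra.algebraicClosure (MvPolynomial (Fin (m + 1)) ℚ) R with h𝔸
  have hrat : ∀ c : ℚ, algebraMap ℚ R c ∈ 𝔸 := by
    intro c
    have h1 : algebraMap ℚ R c = algebraMap (MvPolynomial (Fin (m + 1)) ℚ) R (C c) := by
      rw [hmap]
      exact (ψ.commutes c).symm
    rw [h1]
    exact 𝔸.algebraMap_mem _
  have hlq : ∀ s, A.form (q s) x ∈ 𝔸 := by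
    intro s
    have h1 : A.form (q s) x = algebraMap (MvPolynomial (Fin (m + 1)) ℚ) R (X s) := by
      rw [hmap, hψX]
    rw [h1]
    exact 𝔸.algebraMap_mem _
  -- `t = l_{F 0}` is algebraic
  set t : R := A.form (F 0) x with ht
  have htalg : t ∈ 𝔸 := by
    set α : Fin (D + 1) → ℚ := fun i => (A.lam (update Bq 0 i) : ℚ) / A.lam Bq with hα
    set β : Fin (D + 1) → MvPolynomial (Fin (m + 1)) ℚ := fun i =>
      ∑ s : Fin (m + 1), C ((A.lam (update Bq s.succ i) : ℚ) / A.lam Bq) * X s +
        C ((A.kap Bq i : ℚ) / A.lam Bq) with hβ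
    have hl : ∀ i, A.form i x = algebraMap ℚ R (α i) * t + ψ (β i) := by
      intro i
      apply mul_left_cancel₀ hlamR
      rw [A.cramer Bq i x, Fin.sum_univ_succ]
      have h0 : (A.lam Bq : ℚ) ≠ 0 := by exact_mod_cast hlam
      have hc : ∀ z : ℤ, (A.lam Bq : R) * algebraMap ℚ R ((z : ℚ) / A.lam Bq) = (z : R) := by
        intro z
        have h1 : (A.lam Bq : R) = algebraMap ℚ R (A.lam Bq : ℚ) := by simp
        rw [h1, ← map_mul, mul_div_cancel₀ _ h0]
        simp
      have h2 : ψ (β i) = ∑ s : Fin (m + 1),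
          algebraMap ℚ R ((A.lam (update Bq s.succ i) : ℚ) / A.lam Bq) * A.form (q s) x +
            algebraMap ℚ R ((A.kap Bq i : ℚ) / A.lam Bq) := by
        rw [hβ]
        simp only [map_add, map_sum, map_mul]
        congr 1
        · refine Finset.sum_congr rfl fun s _ => ?_
          congr 1
          · exact ψ.commutes _
          · exact hψX s
        · exact ψ.commutes _
      rw [h2, mul_add, mul_add, Finset.mul_sum, ← mul_assoc, hc, hc]
      have h3 : ∀ s : Fin (m + 1), (A.lam Bq : R) *
          (algebraMap ℚ R ((A.lam (update Bq s.succ i) : ℚ) / A.lam Bq) * A.form (q s) x) =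
          (A.lam (update Bq s.succ i) : R) * A.form (Bq s.succ) x := by
        intro s
        rw [← mul_assoc, hc]
        simp [hBq]
      rw [Finset.sum_congr rfl fun s _ => h3 s]
      have h4 : A.form (Bq 0) x = t := by simp [hBq, ht]
      rw [h4]
      ring
    set p : Polynomial (MvPolynomial (Fin (m + 1)) ℚ) :=
      Polynomial.C (N : MvPolynomial (Fin (m + 1)) ℚ) * (Polynomial.X *
        ∏ i ∈ Finset.univ.erase (F 0), (Polynomial.C (C (α i)) * Polynomial.X +
          Polynomial.C (β i))) - 1 with hp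
    refine ⟨p, ?_, ?_⟩
    · intro h
      have h1 := congrArg (Polynomial.eval 0) h
      rw [hp] at h1
      simp at h1
    · have h1 := A.coord_on N
      unfold Arr.On at h1
      rw [← Finset.mul_prod_erase Finset.univ (fun l => A.form l (A.coord N))
        (Finset.mem_univ (F 0))] at h1
      rw [hp, map_sub, map_mul, map_mul, map_prod, map_one, Polynomial.aeval_C,
        Polynomial.aeval_X, sub_eq_zero]
      have h2 : ∀ i, Polynomial.aeval t (Polynomial.C (C (α i)) * Polynomial.X +
          Polynomial.C (β i)) = A.form i x := by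
        intro i
        rw [map_add, map_mul, Polynomial.aeval_C, Polynomial.aeval_C, Polynomial.aeval_X, hl i,
          hmap, hmap]
        congr 2
        exact ψ.commutes _
      rw [Finset.prod_congr rfl fun i _ => h2 i, map_natCast]
      exact h1
  -- all coordinates are algebraic
  have hlB : ∀ s, A.form (Bq s) x ∈ 𝔸 := by
    intro s
    refine Fin.cases ?_ (fun s => ?_) s
    · simpa [hBq] using htalg
    · simpa [hBq] using hlq s
  have hxalg : ∀ j, x j ∈ 𝔸 := by
    intro j
    set M : Matrix (Fin (m + 2)) (Fin (m + 2)) R := Matrix.of fun i j => (A.a (Bq i) j : R)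
      with hM
    have hdet : M.det = (A.lam Bq : R) := by
      have h1 : M = (Matrix.of fun i j => A.a (Bq i) j).map (Int.castRingHom R) := by
        ext i j
        simp [hM]
      rw [h1]
      unfold Arr.lam
      exact ((Int.castRingHom R).map_det _).symm
    have h1 : M.adjugate.mulVec (M.mulVec x) = M.det • x := by
      rw [Matrix.mulVec_mulVec, Matrix.adjugate_mul, Matrix.smul_mulVec, Matrix.one_mulVec]
    have h2 : ∀ s, M.mulVec x s ∈ 𝔸 := by
      intro s
      have h3 : M.mulVec x s = A.form (Bq s) x - (A.c (Bq s) : R) := by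
        unfold Arr.form
        simp [Matrix.mulVec, dotProduct, hM]
      rw [h3]
      refine 𝔸.sub_mem (hlB s) ?_
      exact intCast_mem 𝔸 _
    have h3 : ∀ i j, M.adjugate i j ∈ 𝔸 := by
      intro i j
      have h4 : M.adjugate = ((Matrix.of fun i j => A.a (Bq i) j).adjugate).map
          (Int.castRingHom R) := by
        have h5 : M = (Matrix.of fun i j => A.a (Bq i) j).map (Int.castRingHom R) := by
          ext i j
          simp [hM]
        rw [h5]
        exact ((Int.castRingHom R).map_adjugate _).symm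
      rw [h4]
      exact intCast_mem 𝔸 _
    have h4 : (A.lam Bq : R) * x j ∈ 𝔸 := by
      have h5 := congrFun h1 j
      rw [Pi.smul_apply, smul_eq_mul, hdet] at h5
      rw [← h5]
      have h6 : M.adjugate.mulVec (M.mulVec x) j = ∑ i, M.adjugate j i * M.mulVec x i := rfl
      rw [h6]
      exact 𝔸.sum_mem fun i _ => 𝔸.mul_mem (h3 j i) (h2 i)
    have h5 : x j = algebraMap ℚ R ((A.lam Bq : ℚ)⁻¹) * ((A.lam Bq : R) * x j) := by
      have h6 : (A.lam Bq : R) = algebraMap ℚ R (A.lam Bq : ℚ) := by simp
      have h0 : (A.lam Bq : ℚ) ≠ 0 := by exact_mod_cast hlam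
      rw [h6, ← mul_assoc, ← map_mul, inv_mul_cancel₀ h0, map_one, one_mul]
    rw [h5]
    exact 𝔸.mul_mem (hrat _) h4
  have hall : ∀ r : R, r ∈ 𝔸 := by
    intro r
    obtain ⟨G, rfl⟩ := Ideal.Quotient.mk_surjective r
    induction G using MvPolynomial.induction_on with
    | C c => exact hrat c
    | add p q hp hq =>
      rw [map_add]
      exact 𝔸.add_mem hp hq
    | mul_X p j hp =>
      rw [map_mul]
      exact 𝔸.mul_mem hp (hxalg j)
  -- injectivity on the small ring
  refine alg_inj φ hall ?_
  intro s hs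
  rw [hmap]
  set Z : Fin (m + 1) → PowerSeries P.L := fun i =>
    ∑ j, (A.a (q i) j : PowerSeries P.L) * Y j + (A.c (q i) : PowerSeries P.L) * PowerSeries.X
    with hZdef
  have hZ : ∀ i, PowerSeries.constantCoeff (Z i) =
      (Fin.snoc (α := fun _ => P.L) (fun a => (P.z a : P.L)) 1 : Fin (m + 1) → P.L) i := by
    intro i
    have h1 : PowerSeries.constantCoeff (Z i) = linv A (q i) P.y := by
      rw [hZdef]
      simp only [map_add, map_sum, map_mul, map_intCast, PowerSeries.constantCoeff_X, mul_zero,
        add_zero, hY]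
      rfl
    rw [h1]
    refine Fin.lastCases ?_ (fun a => ?_) i
    · rw [hq, Fin.snoc_last, Fin.snoc_last]
      exact P.hone
    · rw [hq, Fin.snoc_castSucc, Fin.snoc_castSucc]
      exact P.hz a
  have h1 := phi_ne_zero P Z hZ (φ.comp (algebraMap ℚ R)) s hs
  have h2 : (φ.comp ψ.toRingHom) = eval₂Hom (φ.comp (algebraMap ℚ R))
      (fun i => HahnSeries.single (-1 : ℤ) 1 * (Z i : LaurentSeries P.L)) := by
    apply MvPolynomial.ringHom_ext
    · intro c
      rw [eval₂Hom_C]
      exact congrArg φ (ψ.commutes c)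
    · intro i
      rw [eval₂Hom_X']
      have h3 : (φ.comp ψ.toRingHom) (X i) = φ (A.form (q i) x) := congrArg φ (hψX i)
      rw [h3, A.form_map φ]
      unfold Arr.form
      have h4 : (HahnSeries.single (-1 : ℤ) (1 : P.L)) *
          ((PowerSeries.X : PowerSeries P.L) : LaurentSeries P.L) = 1 := by
        rw [HahnSeries.ofPowerSeries_X, HahnSeries.single_mul_single]
        simp
      have h5 : ((Z i : PowerSeries P.L) : LaurentSeries P.L) =
          ∑ j, (A.a (q i) j : LaurentSeries P.L) * (Y j : LaurentSeries P.L) +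
            (A.c (q i) : LaurentSeries P.L) *
              ((PowerSeries.X : PowerSeries P.L) : LaurentSeries P.L) := by
        rw [hZdef]
        simp only [map_add, map_sum, map_mul, map_intCast]
      rw [h5, mul_add, Finset.mul_sum]
      congr 1
      · refine Finset.sum_congr rfl fun j _ => ?_
        have h6 : φ (x j) = HahnSeries.single (-1 : ℤ) 1 * (Y j : LaurentSeries P.L) := hφ j
        change (A.a (q i) j : LaurentSeries P.L) * φ (x j) = _
        rw [h6]
        ring
      · rw [mul_left_comm, h4, mul_one]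
  have h3 : φ (ψ s) = eval₂ (φ.comp (algebraMap ℚ R))
      (fun i => HahnSeries.single (-1 : ℤ) 1 * (Z i : LaurentSeries P.L)) s :=
    RingHom.congr_fun h2 s
  rw [h3]
  exact h1

end P4a177x
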