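import Pool.Agent.Lib.P4a177x.LauX

/-!
# Generic points of the divisors at infinity
-/

set_option autoImplicit false

namespace P4a177x

open P4a177h P4a177s Function

namespace PtXAux

variable {n m D : ℕ} (A : Arr n (D + 1))

lemma linv_zero {L : Type} [CommRing L] (k : Fin (D + 1)) : linv A k (0 : Fin n → L) = 0 := by
  unfold linv
  simp

/-- independent linear forms take prescribed values -/
lemma exists_vec {B : Fin n → Fin (D + 1)} (hB : A.lam B ≠ 0) (v : Fin n → ℚ) :
    ∃ x : Fin n → ℚ, ∀ i, linv A (B i) x = v i := by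
  obtain ⟨x, hx⟩ := A.exists_point (F := ℚ) hB fun i => v i + (A.c (B i) : ℚ)
  refine ⟨x, fun i => ?_⟩
  have h := hx i
  unfold Arr.form at h
  unfold linv
  linarith

/-- independent linear forms have no common zero -/
lemma eq_zero_of_linv {B : Fin n → Fin (D + 1)} (hB : A.lam B ≠ 0) (x : Fin n → ℚ)
    (hx : ∀ i, linv A (B i) x = 0) : x = 0 := by
  classical
  set M : Matrix (Fin n) (Fin n) ℚ := Matrix.of fun i j => (A.a (B i) j : ℚ) with hM
  have hdet : M.det ≠ 0 := by
    have h1 : M.det = ((A.lam B : ℤ) : ℚ) := by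
      have h2 := RingHom.map_det (Int.castRingHom ℚ) (Matrix.of fun i j => A.a (B i) j)
      exact h2.symm
    rw [h1]
    exact_mod_cast hB
  refine Matrix.eq_zero_of_mulVec_eq_zero hdet ?_
  funext i
  exact hx i

/-- the values at a combination of rational vectors -/
lemma linv_comb {L : Type} [Field L] (ι : ℚ →+* L) (z : Fin m → L) (y0 : Fin n → ℚ)
    (ya : Fin m → Fin n → ℚ) (k : Fin (D + 1)) :
    linv A k (fun j => ι (y0 j) + ∑ a, ι (ya a j) * z a) =
      ι (linv A k y0) + ∑ a, ι (linv A k (ya a)) * z a := by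
  unfold linv
  simp only [map_sum, map_mul, map_intCast, mul_add, Finset.sum_add_distrib]
  congr 1
  simp only [Finset.mul_sum, Finset.sum_mul]
  rw [Finset.sum_comm]
  refine Finset.sum_congr rfl fun a _ => Finset.sum_congr rfl fun j _ => ?_
  ring

end PtXAux

open PtXAux

theorem exists_pt {m D : ℕ} (A : Arr (m + 2) (D + 1)) (hA : GP A)
    (F : Fin (m + 1) → Fin (D + 1)) (hF : Injective F) : Nonempty (Pt A F) := by
  classical
  -- one more index
  obtain ⟨p, hp⟩ := A.spans
  have hpi : Injective p := A.injective_of_lam hp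
  have hcard : m + 2 ≤ D + 1 := by
    have := Fintype.card_le_of_injective p hpi
    simpa using this
  obtain ⟨e, he⟩ : ∃ e, ∀ a, F a ≠ e := by
    by_contra hcon
    push Not at hcon
    have hs : Surjective F := fun x => hcon x
    have := Fintype.card_le_of_surjective F hs
    simp only [Fintype.card_fin] at this
    omega
  have hcons : ∀ i, (∀ a, F a ≠ i) → A.lam (Fin.cons i F : Fin (m + 2) → Fin (D + 1)) ≠ 0 := by
    intro i hi
    refine hA _ (Fin.cons_injective_iff.2 ⟨?_, hF⟩)
    rintro ⟨a, ha⟩
    exact hi a ha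
  have hq := hcons e he
  obtain ⟨y0, hy0⟩ := exists_vec A hq (Fin.cons 1 fun _ => 0)
  have h0e : linv A e y0 = 1 := by
    have := hy0 0
    simpa using this
  have h0F : ∀ b, linv A (F b) y0 = 0 := by
    intro b
    have := hy0 b.succ
    simpa using this
  have hya' : ∀ a : Fin m, ∃ x : Fin (m + 2) → ℚ, linv A e x = 0 ∧
      ∀ b, linv A (F b) x = if b = a.succ then 1 else 0 := by
    intro a
    obtain ⟨x, hx⟩ := exists_vec A hq (Fin.cons 0 fun b => if b = a.succ then 1 else 0)
    refine ⟨x, ?_, fun b => ?_⟩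
    · have := hx 0
      simpa using this
    · have := hx b.succ
      simpa using this
  choose ya hyae hyaF using hya'
  obtain ⟨L, hL, hC, Λ, z, hz, hgen, hind⟩ := exists_flag m
  set y : Fin (m + 2) → L := fun j => Λ.ι (y0 j) + ∑ a, Λ.ι (ya a j) * (z a : L) with hy
  have hval : ∀ k, linv A k y = Λ.ι (linv A k y0) + ∑ a, Λ.ι (linv A k (ya a)) * (z a : L) :=
    fun k => linv_comb A Λ.ι (fun a => (z a : L)) y0 ya k
  have hF0 : linv A (F 0) y = 0 := by
    rw [hval, h0F, map_zero, zero_add]
    refine Finset.sum_eq_zero fun a _ => ?_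
    rw [hyaF, if_neg (Fin.succ_ne_zero a).symm, map_zero, zero_mul]
  have hFs : ∀ b : Fin m, linv A (F b.succ) y = z b := by
    intro b
    rw [hval, h0F, map_zero, zero_add]
    rw [Finset.sum_eq_single b]
    · rw [hyaF, if_pos rfl, map_one, one_mul]
    · intro a _ hab
      rw [hyaF, if_neg, map_zero, zero_mul]
      intro h
      exact hab (Fin.succ_injective _ h).symm
    · intro h
      exact absurd (Finset.mem_univ b) h
  have he1 : linv A e y = 1 := by
    rw [hval, h0e, map_one]
    rw [Finset.sum_eq_zero, add_zero]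
    intro a _
    rw [hyae, map_zero, zero_mul]
  have hw' : ∀ i, ∃ u : Lˣ, i ≠ F 0 → linv A i y = u ∧
      ∀ a, Λ.o (Additive.ofMul u) a = if i = F (Fin.succ a) then 1 else 0 := by
    intro i
    by_cases hi0 : i = F 0
    · exact ⟨1, fun h => absurd hi0 h⟩
    by_cases hi1 : ∃ b : Fin m, i = F b.succ
    · obtain ⟨b, rfl⟩ := hi1
      refine ⟨z b, fun _ => ⟨hFs b, fun a => ?_⟩⟩
      rw [(hz b).1]
      by_cases hab : a = b
      · subst hab
        rw [Pi.single_eq_same, if_pos rfl]
      · rw [Pi.single_eq_of_ne hab, if_neg]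
        intro h
        exact hab (Fin.succ_injective _ (hF h)).symm
    · have hi : ∀ a, F a ≠ i := by
        intro a ha
        refine Fin.cases (fun h => hi0 h.symm) (fun b h => hi1 ⟨b, h.symm⟩) a ha
      have hne : linv A i y0 ≠ 0 := by
        intro h
        have h1 := eq_zero_of_linv A (hcons i hi) y0 (fun j => by
          refine Fin.cases ?_ (fun b => ?_) j
          · simpa using h
          · simpa using h0F b)
        rw [h1, linv_zero] at h0e
        exact zero_ne_one h0e
      obtain ⟨u, hu1, hu2, -⟩ := hgen (Units.mk0 _ hne) (fun a => linv A i (ya a))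
      refine ⟨u, fun _ => ⟨?_, fun a => ?_⟩⟩
      · rw [hval, hu1, Units.val_mk0]
      · rw [hu2, if_neg (fun h => hi _ h.symm)]
        rfl
  choose w hw using hw'
  exact ⟨{
    L := L
    charL := hC
    Λ := Λ
    y := y
    z := z
    e := e
    he := he
    w := w
    hk := hF0
    hz := hFs
    hone := he1
    hw := fun i hi => (hw i hi).1
    how := fun i hi => (hw i hi).2
    indep := hind }⟩

end P4a177x
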