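import Pool.Agent.Lib.P4a177x.HenX
import Pool.Agent.Lib.P4a177x.PtX
import Pool.Agent.Lib.P4a177x.InjX

/-!
# The places of the hypersurface attached to flags at infinity
-/

set_option autoImplicit false

namespace P4a177x

open P4a177h P4a177s Function MvPolynomial

namespace PlcXAux

/-- A point of the hypersurface gives a homomorphism. -/
theorem exists_hom {n D : ℕ} (A : Arr n D) (N : ℕ) {K : Type} [Field K] (κ : ℚ →+* K)
    (x : Fin n → K) (he : A.On N x) :
    ∃ φ : A.CoordRing N →+* K, ∀ G, φ (Ideal.Quotient.mk _ G) = eval₂ κ x G := by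
  have h0 : eval₂Hom κ x (A.eqn N) = 0 := by
    unfold Arr.eqn
    rw [map_sub, map_one, map_mul, map_natCast, map_prod, sub_eq_zero]
    have h1 : ∀ k, eval₂Hom κ x (A.form k (X : Fin n → MvPolynomial (Fin n) ℚ)) = A.form k x := by
      intro k
      rw [A.form_map]
      congr 1
      funext j
      exact eval₂Hom_X' κ x j
    rw [Finset.prod_congr rfl fun k _ => h1 k]
    exact he
  have h1 : ∀ r ∈ Ideal.span {A.eqn N}, eval₂Hom κ x r = 0 := by
    intro r hr
    rw [Ideal.mem_span_singleton] at hr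
    obtain ⟨r', rfl⟩ := hr
    rw [map_mul, h0, zero_mul]
  exact ⟨Ideal.Quotient.lift _ (eval₂Hom κ x) h1, fun G => rfl⟩

end PlcXAux

open PlcXAux

theorem exists_place {m D : ℕ} (A : Arr (m + 2) (D + 1)) (hA : GP A) (N : ℕ) (hN : 1 ≤ N)
    (F : Fin (m + 1) → Fin (D + 1)) (hF : Injective F) : Nonempty (Place A N F) := by
  classical
  obtain ⟨P⟩ := exists_pt A hA F hF
  have := P.charL
  have hD : 1 ≤ D := by
    have h1 := P.he 0
    by_contra h
    apply h1
    apply Fin.ext
    have h2 := (F 0).isLt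
    have h3 := P.e.isLt
    omega
  have hi : ∀ i, i ≠ F 0 → linv A i P.y ≠ 0 := fun i hi => by
    rw [P.hw i hi]
    exact (P.w i).ne_zero
  obtain ⟨Y, U, hY, hU0, hUi, hOn, hk, hform⟩ := exists_inf A N hN hD P.L (F 0) P.y P.hk hi
  obtain ⟨φ, hφ⟩ := exists_hom A N ((HahnSeries.C : P.L →+* LaurentSeries P.L).comp P.Λ.ι) _ hOn
  have hφc : ∀ s, φ (A.coord N s) = HahnSeries.single (-1 : ℤ) 1 * (Y s : LaurentSeries P.L) := by
    intro s
    unfold Arr.coord
    rw [hφ, eval₂_X]
  have hφl : ∀ i, φ (lu A N i) =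
      A.form i (fun s => HahnSeries.single (-1 : ℤ) 1 * (Y s : LaurentSeries P.L)) := by
    intro i
    show φ (A.form i (A.coord N)) = _
    rw [A.form_map]
    congr 1
    funext s
    exact hφc s
  have hNQ : (N : ℚ) ≠ 0 := by
    have : N ≠ 0 := by omega
    exact_mod_cast this
  -- the constant coefficients
  set c : P.Lˣ := Units.map (P.Λ.ι : ℚ →* P.L) (Units.mk0 (N : ℚ) hNQ) *
    ∏ i ∈ Finset.univ.erase (F 0), P.w i with hc
  have hcv : (c : P.L) = (N : P.L) * ∏ i ∈ Finset.univ.erase (F 0), linv A i P.y := by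
    rw [hc, Units.val_mul, Units.coe_prod]
    congr 1
    · show P.Λ.ι (N : ℚ) = _
      rw [map_natCast]
    · refine Finset.prod_congr rfl fun i hi' => ?_
      rw [P.hw i (Finset.ne_of_mem_erase hi')]
  have hco : ∀ a, P.Λ.o (Additive.ofMul c) a = 1 := by
    intro a
    rw [hc, ofMul_mul, map_add, (P.Λ.rat _).1, zero_add, ofMul_prod, map_sum, Finset.sum_apply,
      Finset.sum_eq_single (F a.succ)]
    · rw [P.how _ (fun h => Fin.succ_ne_zero a (hF h)), if_pos rfl]
    · intro i hi' hne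
      rw [P.how _ (Finset.ne_of_mem_erase hi'), if_neg hne]
    · intro h
      exact absurd (Finset.mem_erase.2 ⟨fun h => Fin.succ_ne_zero a (hF h), Finset.mem_univ _⟩) h
  refine ⟨{
    L := P.L
    Λ := P.Λ
    φ := φ
    U := U
    u := fun i => if i = F 0 then c⁻¹ else P.w i
    hu := ?_
    hk := ?_
    hi := ?_
    ho := ?_
    inj := pt_inj A hA N hN F hF P φ Y hY hφc
    top := ?_ }⟩
  · intro i
    by_cases h : i = F 0
    · rw [if_pos h, h]
      rw [← hcv] at hU0
      rw [Units.val_inv_eq_inv_val]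
      exact eq_inv_of_mul_eq_one_left hU0
    · rw [if_neg h, hUi i h, P.hw i h]
  · rw [hφl, hk]
  · intro i h
    rw [hφl, hform i h]
  · intro i a
    by_cases h : i = F 0
    · rw [if_pos h, if_pos h, if_neg (fun h' => Fin.succ_ne_zero a (hF (h'.symm.trans h))),
        ofMul_inv, map_neg, Pi.neg_apply, hco]
      norm_num
    · rw [if_neg h, if_neg h, P.how i h, sub_zero]
  · intro G d hG hv
    rw [hφ] at hv
    have h1 := coeff_top P.Λ.ι P.y Y hY G d hG _ hv
    exact pt_top A hA F hF P _ d (homogeneousComponent_isHomogeneous d G) h1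

end P4a177x
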