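import Pool.Agent.Lib.P4a177x.Defs

/-!
# The functional on the Milnor K-group attached to leading terms
-/

set_option autoImplicit false

namespace P4a177x

open P4a177h

namespace TldXAux

variable {K : Type} [Field K] {r : ℕ} (Λ : Lead K r) (p : ℕ)

/-- The row `(ord_p (c f), o f)`. -/
noncomputable def row (f : Kˣ) : Fin (r + 1) → ℤ :=
  Fin.cons (padicValRat p (Λ.c f)) (Λ.o (Additive.ofMul f))

/-- The matrix of the rows. -/
noncomputable def mat (a : Fin (r + 1) → Kˣ) : Matrix (Fin (r + 1)) (Fin (r + 1)) ℤ :=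
  Matrix.of fun i => row Λ p (a i)

theorem det_mat (a : Fin (r + 1) → Kˣ) : (mat Λ p a).det =
    ∑ i : Fin (r + 1), (-1) ^ (i : ℕ) *
        (Matrix.of fun s t : Fin r => Λ.o (Additive.ofMul (a (i.succAbove s))) t).det *
        padicValRat p (Λ.c (a i)) := by
  rw [Matrix.det_succ_column_zero]
  refine Finset.sum_congr rfl fun i _ => ?_
  have h1 : mat Λ p a i 0 = padicValRat p (Λ.c (a i)) := rfl
  have h2 : (mat Λ p a).submatrix i.succAbove Fin.succ =
      Matrix.of fun s t : Fin r => Λ.o (Additive.ofMul (a (i.succAbove s))) t := rfl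
  rw [h1, h2]
  ring

theorem row_mul [Fact p.Prime] (f g : Kˣ) : row Λ p (f * g) = row Λ p f + row Λ p g := by
  funext t
  refine Fin.cases ?_ (fun t => ?_) t
  · show padicValRat p (Λ.c (f * g)) = padicValRat p (Λ.c f) + padicValRat p (Λ.c g)
    rw [map_mul, Units.val_mul, padicValRat.mul (Units.ne_zero _) (Units.ne_zero _)]
  · show Λ.o (Additive.ofMul (f * g)) t = Λ.o (Additive.ofMul f) t + Λ.o (Additive.ofMul g) t
    rw [ofMul_mul, map_add]
    rfl

theorem mat_update (a : Fin (r + 1) → Kˣ) (i : Fin (r + 1)) (f : Kˣ) :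
    mat Λ p (Function.update a i f) = (mat Λ p a).updateRow i (row Λ p f) := by
  ext s t
  by_cases h : s = i
  · subst h
    rw [Matrix.updateRow_self]
    simp [mat]
  · rw [Matrix.updateRow_ne h]
    simp [mat, Function.update_of_ne h]

theorem det_mul [Fact p.Prime] (a : Fin (r + 1) → Kˣ) (i : Fin (r + 1)) (b c : Kˣ) :
    (mat Λ p (Function.update a i (b * c))).det = (mat Λ p (Function.update a i b)).det +
      (mat Λ p (Function.update a i c)).det := by
  rw [mat_update, mat_update, mat_update, row_mul, Matrix.det_updateRow_add]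

theorem det_zero_of_row {M : Matrix (Fin (r + 1)) (Fin (r + 1)) ℤ} {i j : Fin (r + 1)}
    (hij : i ≠ j) (hi : ∀ t : Fin r, M i t.succ = 0) (hj : ∀ t : Fin r, M j t.succ = 0) :
    M.det = 0 := by
  by_cases h : M i 0 = 0
  · apply Matrix.det_eq_zero_of_row_eq_zero i
    intro t
    refine Fin.cases h (fun t => hi t) t
  · rw [← Matrix.exists_vecMul_eq_zero_iff]
    refine ⟨Pi.single i (M j 0) - Pi.single j (M i 0), ?_, ?_⟩
    · intro h0
      have := congrFun h0 j
      simp only [Pi.sub_apply, Pi.single_eq_same, Pi.single_eq_of_ne hij.symm, Pi.zero_apply,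
        zero_sub, neg_eq_zero] at this
      exact h this
    · rw [Matrix.sub_vecMul, Matrix.single_vecMul, Matrix.single_vecMul]
      funext t
      refine Fin.cases ?_ (fun t => ?_) t
      · simp [mul_comm]
      · simp [hi t, hj t]

theorem det_st (a : Fin (r + 1) → Kˣ) (i j : Fin (r + 1)) (hij : (i : ℕ) + 1 = j)
    (h : (a i : K) + (a j : K) = 1) : (mat Λ p a).det = 0 := by
  have hne : i ≠ j := by
    intro h0
    rw [h0] at hij
    omega
  have zero : ∀ s, Λ.o (Additive.ofMul (a s)) = 0 → Λ.c (a s) = 1 → (mat Λ p a).det = 0 := by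
    intro s h1 h2
    apply Matrix.det_eq_zero_of_row_eq_zero s
    intro t
    refine Fin.cases ?_ (fun t => ?_) t
    · show padicValRat p (Λ.c (a s)) = 0
      rw [h2]
      simp
    · show Λ.o (Additive.ofMul (a s)) t = 0
      rw [h1]
      rfl
  rcases Λ.st (a i) (a j) h with ⟨h1, h2⟩ | ⟨h1, h2⟩ | ⟨h1, h2⟩ | ⟨h1, h2⟩
  · apply det_zero_of_row hne
    · intro t
      show Λ.o (Additive.ofMul (a i)) t = 0
      rw [h1]
      rfl
    · intro t
      show Λ.o (Additive.ofMul (a j)) t = 0
      rw [h2]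
      rfl
  · exact zero j h1 h2
  · exact zero i h1 h2
  · apply Matrix.det_zero_of_row_eq hne
    funext t
    refine Fin.cases ?_ (fun t => ?_) t
    · show padicValRat p (Λ.c (a i)) = padicValRat p (Λ.c (a j))
      rw [h2, Units.val_neg, padicValRat.neg]
    · show Λ.o (Additive.ofMul (a i)) t = Λ.o (Additive.ofMul (a j)) t
      rw [h1]

end TldXAux

open TldXAux in
theorem exists_T {K : Type} [Field K] {r : ℕ} (Λ : Lead K r) (p : ℕ) [Fact p.Prime] :
    ∃ T : MilnorK (r + 1) K →+ ℤ, ∀ a : Fin (r + 1) → Kˣ,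
      T (symb a) = ∑ i : Fin (r + 1), (-1) ^ (i : ℕ) *
        (Matrix.of fun s t : Fin r => Λ.o (Additive.ofMul (a (i.succAbove s))) t).det *
        padicValRat p (Λ.c (a i)) := by
  refine ⟨lift (fun a => (mat Λ p a).det) (fun a i b c => det_mul Λ p a i b c)
    (fun a i j hij h => det_st Λ p a i j hij h), fun a => ?_⟩
  rw [lift_symb, det_mat]

end P4a177x
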