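import Pool.Agent.Lib.P4a177x.PlcX
import Pool.Agent.Lib.P4a177x.TldX

/-!
# MODULE P4a177x.TfX: the functionals of the flags on the Milnor K-group of the function field

PROOF. `P.φ` is injective, so it extends to `ψ : K →+* LaurentSeries P.L` (`IsFractionRing.lift P.inj`). `v = (vls P.L).comap ψ`; it is trivial on the constants
(`ψ (algebraMap (algebraMap t)) = HahnSeries.C _`, a nonzero constant). `Λ'` from `lead_laurent P.Λ`; pull it back to `K`: `Λ'' : Lead K (m + 1)` with
`o f = Λ'.o (Units.map ψ f)`, `c f = Λ'.c (Units.map ψ f)`, `ι = (algebraMap R K).comp (algebraMap ℚ R)` (`rat`: `ψ ∘ ι = Λ'.ι`, there is only one homomorphism from `ℚ`;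
`st`: apply `ψ`). `T p` from `exists_T Λ'' p` (choose). If `v f = 1` then the component `Λ''.o f 0` is `0`: every unit `f` of the Laurent series is `single n 1 * U` with
`constantCoeff U ≠ 0` (`n = order`), its value is `exp (-n)` and `o f 0 = n`. So `T p` vanishes on symbols of elements of value `1` (all the matrices have a zero column), and
`T p ξ = 0` if `Unramified v ξ` (`k * T p ξ = 0` in `ℤ`). The formula: for `a = (c, l_{J 0}, …)` (`map_symb`): the terms with index `i ≥ 1` contain the row of the constant, zero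
(`rat`); the term `i = 0` is `det (o (l_{J b}) t) * ord_p c`, with `o (l_i) 0 = D` for `i = F 0` and `-1` otherwise (`Place.hk`, `Place.hi`; i.e.
`(D + 1) [i = F 0] - 1`), `o (l_i) a.succ = [i = F a.succ] - [i = F 0]` (`Place.ho`). Multiply the columns `a.succ` by `D + 1` (factor `(D + 1) ^ m`) and add the
column `0` to them: the result is the transpose of `dm F J` (`Matrix.det_eq_of_forall_col_eq_smul_add_const`, `Matrix.det_mul_row/column`, `Matrix.det_transpose`).
-/

set_option autoImplicit false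

namespace P4a177x

open P4a177h P4a177s Function

namespace TfXAux

open WithZero

section LSec

variable {L : Type} [Field L]

theorem vls_coe_le (F : PowerSeries L) : vls L (F : LaurentSeries L) ≤ 1 :=
  (LaurentSeries.val_le_one_iff_eq_coe L _).mpr ⟨F, rfl⟩

theorem vls_coe_unit (F : PowerSeries L) (h : PowerSeries.constantCoeff F ≠ 0) :
    vls L (F : LaurentSeries L) = 1 := by
  have hu : IsUnit F := PowerSeries.isUnit_iff_constantCoeff.mpr (isUnit_iff_ne_zero.mpr h)
  obtain ⟨u, rfl⟩ := hu
  have h1 := vls_coe_le (u : PowerSeries L)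
  have h2 := vls_coe_le ((u⁻¹ : (PowerSeries L)ˣ) : PowerSeries L)
  have h3 : vls L ((u : PowerSeries L) : LaurentSeries L) *
      vls L (((u⁻¹ : (PowerSeries L)ˣ) : PowerSeries L) : LaurentSeries L) = 1 := by
    rw [← map_mul, ← PowerSeries.coe_mul, Units.mul_inv, PowerSeries.coe_one, map_one]
  refine le_antisymm h1 ?_
  calc (1 : WithZero (Multiplicative ℤ)) = _ := h3.symm
    _ ≤ vls L ((u : PowerSeries L) : LaurentSeries L) * 1 := mul_le_mul_right h2 _
    _ = _ := mul_one _

theorem vls_z (n : ℤ) : vls L (HahnSeries.single n (1 : L)) = exp (-n) :=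
  LaurentSeries.valuation_single_zpow L n

theorem vls_const (t : L) (ht : t ≠ 0) : vls L (HahnSeries.C t : LaurentSeries L) = 1 := by
  rw [← PowerSeries.coe_C]
  refine vls_coe_unit _ ?_
  simpa using ht

/-- Every unit of the field of Laurent series is `z ^ n` times a power series with a constant coefficient
`≠ 0`. -/
theorem unit_form (f : (LaurentSeries L)ˣ) : ∃ (n : ℤ) (U : PowerSeries L) (u : Lˣ),
    PowerSeries.constantCoeff U = u ∧
      (f : LaurentSeries L) = HahnSeries.single n 1 * (U : LaurentSeries L) := by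
  have hf : (f : LaurentSeries L) ≠ 0 := f.ne_zero
  have hc : PowerSeries.constantCoeff (f : LaurentSeries L).powerSeriesPart ≠ 0 := by
    rw [← PowerSeries.coeff_zero_eq_constantCoeff_apply, LaurentSeries.powerSeriesPart_coeff,
      Nat.cast_zero, add_zero]
    exact HahnSeries.coeff_order_eq_zero.not.mpr hf
  exact ⟨(f : LaurentSeries L).order, (f : LaurentSeries L).powerSeriesPart, Units.mk0 _ hc, rfl,
    (LaurentSeries.single_order_mul_powerSeriesPart _).symm⟩

theorem n_zero {n : ℤ} {U : PowerSeries L} {u : Lˣ} (hU : PowerSeries.constantCoeff U = u)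
    (h : vls L (HahnSeries.single n 1 * (U : LaurentSeries L)) = 1) : n = 0 := by
  rw [map_mul, vls_z, vls_coe_unit U (by rw [hU]; exact u.ne_zero), mul_one, ← exp_zero] at h
  have h2 := exp_injective h
  simpa using h2

end LSec

theorem det_aux {m D : ℕ} (F J : Fin (m + 1) → Fin (D + 1)) (M : Fin (m + 1) → Fin (m + 1) → ℤ)
    (h0 : ∀ b, M b 0 = (if J b = F 0 then ((D : ℤ) + 1) else 0) - 1)
    (hs : ∀ b (a : Fin m), M b a.succ =
      (if J b = F a.succ then 1 else 0) - (if J b = F 0 then 1 else 0)) :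
    ((D : ℤ) + 1) ^ m * (Matrix.of M).det = (dm F J).det := by
  have h1 : (Matrix.of fun a b => (Fin.cons 1 (fun _ => (D : ℤ) + 1) : Fin (m + 1) → ℤ) a *
      (Matrix.of M).transpose a b).det = ((D : ℤ) + 1) ^ m * (Matrix.of M).det := by
    rw [Matrix.det_mul_column, Matrix.det_transpose, Fin.prod_univ_succ]
    simp
  rw [← h1]
  symm
  refine Matrix.det_eq_of_forall_row_eq_smul_add_const
    (Fin.cons 0 (fun _ => (1 : ℤ)) : Fin (m + 1) → ℤ) 0 rfl ?_
  intro a b
  refine Fin.cases ?_ (fun a => ?_) a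
  · simp only [dm, Matrix.of_apply, Matrix.transpose_apply, Fin.cons_zero, one_mul, zero_mul,
      add_zero, h0, eq_comm (a := F 0)]
  · simp only [dm, Matrix.of_apply, Matrix.transpose_apply, Fin.cons_zero, Fin.cons_succ, one_mul,
      h0, hs, eq_comm (a := F a.succ)]
    split_ifs <;> ring

end TfXAux

open TfXAux

theorem exists_TF {m D : ℕ} (A : Arr (m + 2) (D + 1)) (N : ℕ) (F : Fin (m + 1) → Fin (D + 1))
    (P : Place A N F) (K : Type) [Field K] [Algebra (A.CoordRing N) K]
    [IsFractionRing (A.CoordRing N) K] :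
    ∃ (v : Valuation K (WithZero (Multiplicative ℤ)))
      (T : ∀ (p : ℕ) [Fact p.Prime], MilnorK (m + 2) K →+ ℤ),
      (∀ t : ℚˣ, v (algebraMap (A.CoordRing N) K (algebraMap ℚ (A.CoordRing N) t)) = 1) ∧
      (∀ (p : ℕ) [Fact p.Prime] (ξ : MilnorK (m + 2) K), Unramified v ξ → T p ξ = 0) ∧
      ∀ (p : ℕ) [Fact p.Prime] (c : ℚˣ) (J : Fin (m + 1) → Fin (D + 1)),
        ((D : ℤ) + 1) ^ m * T p (map (algebraMap (A.CoordRing N) K)
          (symb (Fin.cons (P4a177w.cs (A.CoordRing N) c) (fun b => lu A N (J b))))) =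
          padicValRat p (c : ℚ) * (dm F J).det := by
  classical
  obtain ⟨Λ', hΛ'⟩ := lead_laurent P.Λ
  obtain ⟨ψ, hψ⟩ : ∃ ψ : K →+* LaurentSeries P.L, ∀ r : A.CoordRing N,
      ψ (algebraMap (A.CoordRing N) K r) = P.φ r :=
    ⟨IsFractionRing.lift P.inj, fun r => IsFractionRing.lift_algebraMap P.inj r⟩
  -- the pull back of the leading terms
  have hψι : (ψ.comp ((algebraMap (A.CoordRing N) K).comp (algebraMap ℚ (A.CoordRing N)))) =
      Λ'.ι := Subsingleton.elim _ _
  have hψU : ∀ q : ℚˣ, Units.map (ψ : K →* LaurentSeries P.L) (Units.map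
      (((algebraMap (A.CoordRing N) K).comp (algebraMap ℚ (A.CoordRing N)) : ℚ →+* K) : ℚ →* K) q) =
      Units.map (Λ'.ι : ℚ →* LaurentSeries P.L) q := fun q =>
    Units.ext (DFunLike.congr_fun hψι (q : ℚ))
  let Λ₂ : Lead K (m + 1) :=
    { ι := (algebraMap (A.CoordRing N) K).comp (algebraMap ℚ (A.CoordRing N))
      o := Λ'.o.comp (MonoidHom.toAdditive (Units.map (ψ : K →* LaurentSeries P.L)))
      c := Λ'.c.comp (Units.map (ψ : K →* LaurentSeries P.L))
      rat := fun q => by
        have h := Λ'.rat q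
        rw [← hψU q] at h
        exact h
      st := fun f g hfg => by
        have h := Λ'.st (Units.map (ψ : K →* LaurentSeries P.L) f)
          (Units.map (ψ : K →* LaurentSeries P.L) g) (by
            show ψ (f : K) + ψ (g : K) = 1
            rw [← map_add, hfg, map_one])
        exact h }
  have ho2 : ∀ f : Kˣ, Λ₂.o (Additive.ofMul f) =
      Λ'.o (Additive.ofMul (Units.map (ψ : K →* LaurentSeries P.L) f)) := fun _ => rfl
  have hc2 : ∀ f : Kˣ, Λ₂.c f = Λ'.c (Units.map (ψ : K →* LaurentSeries P.L) f) := fun _ => rfl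
  have hT : ∀ (p : ℕ) [Fact p.Prime], ∃ T : MilnorK (m + 2) K →+ ℤ, ∀ a : Fin (m + 2) → Kˣ,
      T (symb a) = ∑ i : Fin (m + 2), (-1) ^ (i : ℕ) *
        (Matrix.of fun s t : Fin (m + 1) => Λ₂.o (Additive.ofMul (a (i.succAbove s))) t).det *
        padicValRat p (Λ₂.c (a i)) := fun p _ => exists_T Λ₂ p
  choose T hTs using hT
  refine ⟨(vls P.L).comap ψ, T, fun t => ?_, fun p _ ξ hξ => ?_, fun p _ c J => ?_⟩
  · -- the constants
    rw [Valuation.comap_apply, hψ]
    have h : P.φ.comp (algebraMap ℚ (A.CoordRing N)) =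
        (HahnSeries.C : P.L →+* LaurentSeries P.L).comp P.Λ.ι := Subsingleton.elim _ _
    have h2 : P.φ (algebraMap ℚ (A.CoordRing N) t) = HahnSeries.C (P.Λ.ι t) :=
      DFunLike.congr_fun h (t : ℚ)
    rw [h2]
    refine vls_const _ ?_
    rw [Ne, map_eq_zero]
    exact t.ne_zero
  · -- the unramified elements
    obtain ⟨k, hk, hmem⟩ := hξ
    have hz : T p (k • ξ) = 0 := by
      refine AddSubgroup.closure_induction (p := fun x _ => T p x = 0) ?_ (map_zero _)
        (fun x y _ _ hx hy => by rw [map_add, hx, hy, add_zero])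
        (fun x _ hx => by rw [map_neg, hx, neg_zero]) hmem
      rintro x ⟨a, ha, rfl⟩
      rw [hTs]
      refine Finset.sum_eq_zero fun i _ => ?_
      rw [Matrix.det_eq_zero_of_column_eq_zero 0, mul_zero, zero_mul]
      intro s
      rw [Matrix.of_apply, ho2]
      obtain ⟨n, U, u, hU, hf⟩ := unit_form
        (Units.map (ψ : K →* LaurentSeries P.L) (a (i.succAbove s)))
      rw [(hΛ' n U u _ hU hf).1]
      have h1 := ha (i.succAbove s)
      rw [Valuation.comap_apply] at h1
      rw [Units.coe_map] at hf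
      change ψ _ = _ at hf
      rw [hf] at h1
      rw [Fin.cons_zero]
      exact n_zero hU h1
    rw [map_nsmul] at hz
    exact (smul_eq_zero_iff_right hk.ne').mp hz
  · -- the formula
    rw [map_symb, hTs]
    have hconst : ∀ c : ℚˣ, Units.map (algebraMap (A.CoordRing N) K : (A.CoordRing N) →* K)
        (P4a177w.cs (A.CoordRing N) c) = Units.map (Λ₂.ι : ℚ →* K) c := fun c => Units.ext rfl
    rw [Fin.sum_univ_succ]
    have hz : ∀ i : Fin (m + 1), (-1 : ℤ) ^ ((i.succ : Fin (m + 2)) : ℕ) *
        (Matrix.of fun s t : Fin (m + 1) => Λ₂.o (Additive.ofMul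
          (Units.map (algebraMap (A.CoordRing N) K : (A.CoordRing N) →* K)
            ((Fin.cons (P4a177w.cs (A.CoordRing N) c) (fun b => lu A N (J b)) :
              Fin (m + 2) → (A.CoordRing N)ˣ) (i.succ.succAbove s)))) t).det *
        padicValRat p (Λ₂.c (Units.map (algebraMap (A.CoordRing N) K : (A.CoordRing N) →* K)
            ((Fin.cons (P4a177w.cs (A.CoordRing N) c) (fun b => lu A N (J b)) :
              Fin (m + 2) → (A.CoordRing N)ˣ) i.succ))) = 0 := by
      intro i
      rw [Matrix.det_eq_zero_of_row_eq_zero 0, mul_zero, zero_mul]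
      intro t
      rw [Matrix.of_apply, Fin.succ_succAbove_zero, Fin.cons_zero, hconst, (Λ₂.rat c).1]
      rfl
    rw [Finset.sum_eq_zero fun i _ => hz i, add_zero]
    have hc0 : Λ₂.c (Units.map (algebraMap (A.CoordRing N) K : (A.CoordRing N) →* K)
        ((Fin.cons (P4a177w.cs (A.CoordRing N) c) (fun b => lu A N (J b)) :
          Fin (m + 2) → (A.CoordRing N)ˣ) 0)) = c := by
      rw [Fin.cons_zero, hconst, (Λ₂.rat c).2]
    rw [hc0]
    have ho3 : ∀ i, Λ₂.o (Additive.ofMul (Units.map
        (algebraMap (A.CoordRing N) K : (A.CoordRing N) →* K) (lu A N i))) =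
        (Fin.cons (if i = F 0 then (D : ℤ) else -1) (P.Λ.o (Additive.ofMul (P.u i))) :
          Fin (m + 1) → ℤ) := by
      intro i
      rw [ho2]
      refine (hΛ' _ (P.U i) (P.u i) _ (P.hu i) ?_).1
      show ψ (algebraMap (A.CoordRing N) K (lu A N i : A.CoordRing N)) = _
      rw [hψ]
      split_ifs with h
      · rw [h, P.hk]
      · rw [P.hi i h]
    have hd := det_aux F J (fun s t => Λ₂.o (Additive.ofMul
      (Units.map (algebraMap (A.CoordRing N) K : (A.CoordRing N) →* K) (lu A N (J s)))) t) ?_ ?_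
    · rw [← hd]
      simp only [Fin.val_zero, pow_zero, one_mul, Fin.zero_succAbove, Fin.cons_succ]
      ring
    · intro b
      rw [ho3, Fin.cons_zero]
      split_ifs <;> ring
    · intro b a
      rw [ho3, Fin.cons_succ, P.ho]

end P4a177x
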