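import Pool.Agent.Lib.P4a177x.Defs

/-!
# The universal alternating symbol modulo torsion

PROOF. On the quotient `Q = MilnorK n R ⧸ Tor n R` (torsion free: if `k • mk x = 0` then `k • x ∈ Tor`, so `l • k • x ∈ negSub`) put
`F v = mk (symb fun k => (v k).toMul)`. Multilinear: `P4a177h.symb_mul`. For NEIGHBOURS `i + 1 = j`: `F (.., u, -u, ..) = 0` (`negSub`), hence
`F (.., u, w, ..) = -F (.., w, u, ..)`. So `F (v ∘ swap i (i + 1)) = -F v`. For `i < j` with `v i = v j`: induction on `j - i`:
for neighbours `2 F v = 0`; otherwise swap `j - 1` and `j`. `st`: for neighbours `P4a177h.symb_steinberg`, for general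
`i ≠ j` move `j` next to `i` by the same induction.
-/

set_option autoImplicit false

namespace P4a177x

open P4a177h Function

namespace AltXAux

variable {n : ℕ} {R : Type} [CommRing R]

/-- The class of the symbol. -/
noncomputable def FF (a : Fin n → Rˣ) : MilnorK n R ⧸ Tor n R := QuotientAddGroup.mk (symb a)

theorem tf (k : ℕ) (x : MilnorK n R ⧸ Tor n R) (hk : 0 < k) (h : k • x = 0) : x = 0 := by
  obtain ⟨y, rfl⟩ := QuotientAddGroup.mk_surjective x
  have h1 : ((k • y : MilnorK n R) : MilnorK n R ⧸ Tor n R) = 0 := h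
  rw [QuotientAddGroup.eq_zero_iff] at h1 ⊢
  obtain ⟨l, hl, h2⟩ := h1
  refine ⟨l * k, Nat.mul_pos hl hk, ?_⟩
  rw [mul_nsmul']
  exact h2

theorem mul (a : Fin n → Rˣ) (i : Fin n) (b c : Rˣ) :
    FF (update a i (b * c)) = FF (update a i b) + FF (update a i c) := by
  unfold FF
  rw [symb_mul]
  rfl

/-- `{…, x, y, …}` at the positions `i`, `j`. -/
noncomputable def two (a : Fin n → Rˣ) (i j : Fin n) (x y : Rˣ) : MilnorK n R ⧸ Tor n R :=
  FF (update (update a i x) j y)

theorem two_mul_right (a : Fin n → Rˣ) (i j : Fin n) (x y z : Rˣ) :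
    two a i j x (y * z) = two a i j x y + two a i j x z := mul _ _ _ _

theorem two_comm (a : Fin n → Rˣ) {i j : Fin n} (hij : i ≠ j) (x y : Rˣ) :
    two a i j x y = FF (update (update a j y) i x) := by
  unfold two
  rw [update_comm hij]

theorem two_mul_left (a : Fin n → Rˣ) {i j : Fin n} (hij : i ≠ j) (x y z : Rˣ) :
    two a i j (x * y) z = two a i j x z + two a i j y z := by
  simp only [two_comm a hij, mul]

theorem two_neg (a : Fin n → Rˣ) {i j : Fin n} (h1 : (i : ℕ) + 1 = j) (x : Rˣ) :
    two a i j x (-x) = 0 := by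
  have hij : i ≠ j := by
    rintro rfl
    omega
  unfold two FF
  rw [QuotientAddGroup.eq_zero_iff]
  refine ⟨1, one_pos, ?_⟩
  rw [one_nsmul]
  refine AddSubgroup.subset_closure ⟨_, i, j, h1, ?_, rfl⟩
  rw [update_self, update_of_ne hij, update_self]

theorem two_anti (a : Fin n → Rˣ) {i j : Fin n} (h1 : (i : ℕ) + 1 = j) (x y : Rˣ) :
    two a i j x y = -two a i j y x := by
  have hij : i ≠ j := by
    rintro rfl
    omega
  have h := two_neg a h1 (x * y)
  rw [two_mul_left a hij] at h
  have e1 : two a i j x (-(x * y)) = two a i j x y := by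
    rw [← neg_mul, two_mul_right, two_neg a h1]
    exact zero_add (two a i j x y)
  have e2 : two a i j y (-(x * y)) = two a i j y x := by
    rw [← mul_neg, mul_comm, neg_mul, ← neg_mul, two_mul_right, two_neg a h1]
    exact zero_add (two a i j y x)
  rw [e1, e2] at h
  exact eq_neg_of_add_eq_zero_left h

theorem swap (a : Fin n → Rˣ) {i j : Fin n} (h1 : (i : ℕ) + 1 = j) :
    FF a = -FF (a ∘ Equiv.swap i j) := by
  have hij : i ≠ j := by
    rintro rfl
    omega
  have e1 : a = update (update a i (a i)) j (a j) := by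
    rw [update_eq_self, update_eq_self]
  have e2 : a ∘ Equiv.swap i j = update (update a i (a j)) j (a i) := by
    funext l
    by_cases hj : l = j
    · subst hj
      rw [update_self, comp_apply, Equiv.swap_apply_right]
    · by_cases hi : l = i
      · subst hi
        rw [update_of_ne hj, update_self, comp_apply, Equiv.swap_apply_left]
      · rw [update_of_ne hj, update_of_ne hi, comp_apply, Equiv.swap_apply_of_ne_of_ne hi hj]
  rw [e2]
  conv_lhs => rw [e1]
  exact two_anti a h1 _ _

/-- A relation between the entries at two positions that kills the symbol for neighbours kills it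
for all positions. -/
theorem far {P : Rˣ → Rˣ → Prop}
    (hP : ∀ (a : Fin n → Rˣ) (i j : Fin n), (i : ℕ) + 1 = j → P (a i) (a j) → FF a = 0) (m : ℕ) :
    ∀ (a : Fin n → Rˣ) (i j : Fin n), (i : ℕ) + m + 1 = j → P (a i) (a j) → FF a = 0 := by
  induction m with
  | zero => intro a i j hij h; exact hP a i j (by omega) h
  | succ m ih =>
    intro a i j hij h
    have hj : (j : ℕ) - 1 < n := by omega
    have h1 : ((⟨(j : ℕ) - 1, hj⟩ : Fin n) : ℕ) + 1 = j := by
      show (j : ℕ) - 1 + 1 = j
      omega
    rw [swap a h1, neg_eq_zero]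
    apply ih _ i ⟨(j : ℕ) - 1, hj⟩ (by show (i : ℕ) + m + 1 = (j : ℕ) - 1; omega)
    have n1 : i ≠ ⟨(j : ℕ) - 1, hj⟩ := by
      intro he
      have := congrArg Fin.val he
      simp only at this
      omega
    have n2 : i ≠ j := by
      rintro rfl
      omega
    rw [comp_apply, comp_apply, Equiv.swap_apply_of_ne_of_ne n1 n2, Equiv.swap_apply_left]
    exact h

theorem far_symm {P : Rˣ → Rˣ → Prop} (hs : ∀ x y, P x y → P y x)
    (hP : ∀ (a : Fin n → Rˣ) (i j : Fin n), (i : ℕ) + 1 = j → P (a i) (a j) → FF a = 0)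
    (a : Fin n → Rˣ) {i j : Fin n} (hij : i ≠ j) (h : P (a i) (a j)) : FF a = 0 := by
  rcases lt_or_gt_of_ne hij with h1 | h1
  · exact far hP ((j : ℕ) - i - 1) a i j (by have := Fin.lt_def.1 h1; omega) h
  · exact far hP ((i : ℕ) - j - 1) a j i (by have := Fin.lt_def.1 h1; omega) (hs _ _ h)

theorem eq_zero_of_eq (a : Fin n → Rˣ) {i j : Fin n} (hij : i ≠ j) (h : a i = a j) : FF a = 0 := by
  refine far_symm (P := fun x y => x = y) (fun _ _ => Eq.symm) ?_ a hij h
  intro a i j h1 h2
  have h3 := swap a h1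
  have e : a ∘ Equiv.swap i j = a := by
    funext l
    by_cases hj : l = j
    · subst hj
      rw [comp_apply, Equiv.swap_apply_right]
      exact h2
    · by_cases hi : l = i
      · subst hi
        rw [comp_apply, Equiv.swap_apply_left]
        exact h2.symm
      · rw [comp_apply, Equiv.swap_apply_of_ne_of_ne hi hj]
  rw [e] at h3
  apply tf 2 _ two_pos
  rw [two_nsmul]
  nth_rewrite 1 [h3]
  exact neg_add_cancel _

theorem eq_zero_of_add (a : Fin n → Rˣ) {i j : Fin n} (hij : i ≠ j)
    (h : (a i : R) + (a j : R) = 1) : FF a = 0 := by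
  refine far_symm (P := fun x y => (x : R) + (y : R) = 1) (fun x y h => by rw [add_comm]; exact h)
    ?_ a hij h
  intro a i j h1 h2
  unfold FF
  rw [symb_steinberg a i j h1 h2]
  rfl

theorem upd (v : Fin n → Additive Rˣ) (i : Fin n) (x : Additive Rˣ) :
    (fun k => (update v i x k).toMul) = update (fun k => (v k).toMul) i x.toMul := by
  funext k
  by_cases h : k = i
  · subst h
    rw [update_self, update_self]
  · rw [update_of_ne h, update_of_ne h]

theorem add' (v : Fin n → Additive Rˣ) (i : Fin n) (x y : Additive Rˣ) :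
    FF (fun k => (update v i (x + y) k).toMul) =
      FF (fun k => (update v i x k).toMul) + FF (fun k => (update v i y k).toMul) := by
  rw [upd, upd, upd, toMul_add, mul]

/-- additivity in one entry -/
noncomputable def hom (v : Fin n → Additive Rˣ) (i : Fin n) :
    Additive Rˣ →+ MilnorK n R ⧸ Tor n R :=
  AddMonoidHom.mk' (fun x => FF (fun k => (update v i x k).toMul)) fun x y => add' v i x y

theorem smul' (v : Fin n → Additive Rˣ) (i : Fin n) (c : ℤ) (x : Additive Rˣ) :
    FF (fun k => (update v i (c • x) k).toMul) = c • FF (fun k => (update v i x k).toMul) :=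
  map_zsmul (hom v i) c x

end AltXAux

open AltXAux

theorem exists_uni (n : ℕ) (R : Type) [CommRing R] :
    ∃ S : Alt R n (MilnorK n R ⧸ Tor n R), ∀ a : Fin n → Rˣ,
      S.f (fun k => Additive.ofMul (a k)) = QuotientAddGroup.mk (symb a) := by
  let M : MultilinearMap ℤ (fun _ : Fin n => Additive Rˣ) (MilnorK n R ⧸ Tor n R) :=
    MultilinearMap.mk' (fun v => FF (fun k => (v k).toMul)) (fun v i x y => add' v i x y)
      (fun v i c x => smul' v i c x)
  let f : (Additive Rˣ) [⋀^Fin n]→ₗ[ℤ] (MilnorK n R ⧸ Tor n R) :=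
    { M with
      map_eq_zero_of_eq' := fun v i j h hij =>
        eq_zero_of_eq (fun k => (v k).toMul) hij (congrArg Additive.toMul h) }
  exact ⟨⟨f, fun a i j hij h => eq_zero_of_add a hij h, fun k x hk hx => tf k x hk hx⟩,
    fun a => rfl⟩

end P4a177x
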