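import Pool.Agent.Lib.P4a177x.Defs
import Pool.Agent.Lib.P4a177u.RatZ

/-!
# MODULE P4a177x.ConX: symbols with two constant entries vanish modulo torsion

PROOF. Fix `v`, `i ≠ j`. Define `T : Sy ℚ G` (`Lib/P4a177u/Defs.lean`) by
`T.B c d = S.f (update (update v i (ofMul (cs R c))) j (ofMul (cs R d)))`: bilinear (`S.f.map_update_add`, `Function.update_comm`),
`st`: `S.st` with the tuple `a k = (update .. k).toMul` (its entries at `i`, `j` are `cs R c`, `cs R d`, with the sum
`algebraMap (c + d) = 1`), `neg`: `T.B c (-c) = T.B c c + T.B c (-1)`, the first one is `0` (equal entries), the second one because twice it is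
`T.B c 1 = 0` (`S.tf`), `tf := S.tf`. By `P4a177u.rat_zero` `T.B c d = 0` for all `c d : ℚˣ`. If `v i = ofMul (cs R c)` and
`v j = ofMul (cs R d)` then `S.f v = T.B c d` (`Function.update_eq_self`).
-/

set_option autoImplicit false

namespace P4a177x

open P4a177h

namespace ConXAux

variable {R : Type} [CommRing R] [Algebra ℚ R] {n : ℕ} {G : Type*} [AddCommGroup G]
  (S : Alt R n G) (v : Fin n → Additive Rˣ) (i j : Fin n)

/-- The bilinear symbol. -/
def BB (c d : ℚˣ) : G :=
  S.f (Function.update (Function.update v i (Additive.ofMul (P4a177w.cs R c))) j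
    (Additive.ofMul (P4a177w.cs R d)))

theorem BB_right (c a b : ℚˣ) : BB S v i j c (a * b) = BB S v i j c a + BB S v i j c b := by
  unfold BB
  rw [map_mul, ofMul_mul, AlternatingMap.map_update_add]

theorem BB_left (hij : i ≠ j) (a b c : ℚˣ) :
    BB S v i j (a * b) c = BB S v i j a c + BB S v i j b c := by
  unfold BB
  rw [Function.update_comm hij, Function.update_comm hij, Function.update_comm hij, map_mul,
    ofMul_mul, AlternatingMap.map_update_add]

theorem BB_one_right (c : ℚˣ) : BB S v i j c 1 = 0 := by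
  have h := BB_right S v i j c 1 1
  rw [mul_one] at h
  simpa using h.symm

theorem BB_self (hij : i ≠ j) (c : ℚˣ) : BB S v i j c c = 0 := by
  unfold BB
  refine AlternatingMap.map_eq_zero_of_eq _ _ (i := i) (j := j) ?_ hij
  rw [Function.update_of_ne hij, Function.update_self, Function.update_self]

theorem BB_neg_one (c : ℚˣ) : BB S v i j c (-1) = 0 := by
  apply S.tf 2 _ (by norm_num)
  rw [two_nsmul, ← BB_right, neg_one_mul, neg_neg, BB_one_right]

theorem BB_neg (hij : i ≠ j) (c : ℚˣ) : BB S v i j c (-c) = 0 := by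
  rw [← neg_one_mul, BB_right, BB_neg_one, BB_self S v i j hij, zero_add]

theorem BB_st (hij : i ≠ j) (c d : ℚˣ) (h : (c : ℚ) + (d : ℚ) = 1) : BB S v i j c d = 0 := by
  unfold BB
  have h1 := S.st (fun k => (Function.update (Function.update v i
    (Additive.ofMul (P4a177w.cs R c))) j (Additive.ofMul (P4a177w.cs R d)) k).toMul) i j hij (by
      rw [Function.update_self, Function.update_of_ne hij, Function.update_self, toMul_ofMul,
        toMul_ofMul]
      show algebraMap ℚ R (c : ℚ) + algebraMap ℚ R (d : ℚ) = 1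
      rw [← map_add, h, map_one])
  exact h1

/-- The symbol. -/
def TT (hij : i ≠ j) : P4a177u.Sy ℚ G where
  B := BB S v i j
  mul_left := BB_left S v i j hij
  mul_right := BB_right S v i j
  neg := BB_neg S v i j hij
  st := BB_st S v i j hij
  tf := S.tf

end ConXAux

open ConXAux in
theorem const_const {R : Type} [CommRing R] [Algebra ℚ R] {n : ℕ} {G : Type*} [AddCommGroup G]
    (S : Alt R n G) (v : Fin n → Additive Rˣ) (i j : Fin n) (hij : i ≠ j) (hi : v i ∈ CC R)
    (hj : v j ∈ CC R) : S.f v = 0 := by
  obtain ⟨c, hc⟩ := hi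
  obtain ⟨d, hd⟩ := hj
  have h := P4a177u.rat_zero (TT S v i j hij) c.toMul d.toMul
  have h2 : BB S v i j c.toMul d.toMul = S.f v := by
    unfold BB
    have e1 : Additive.ofMul (P4a177w.cs R c.toMul) = v i := hc
    have e2 : Additive.ofMul (P4a177w.cs R d.toMul) = v j := hd
    rw [e1, e2, Function.update_eq_self, Function.update_eq_self]
  rw [← h2]
  exact h

end P4a177x
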