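import Pool.Agent.Lib.P4a177x.Defs

/-!
# MODULE P4a177x.KilX: the symbols with one constant entry in terms of determinants

PROOF. `f` is alternating `ℤ`-multilinear (`AlternatingMap`), zero if two arguments are in `C` (`hC`). By additivity it is enough to treat one `J` with
`c = c J ∈ C` (both sides are sums over `J`; on the right exchange the sums, `c ↦ f (Fin.cons c _)` is additive). Since `σ = ∑ k, l k ∈ C` and
`(D + 1) • l i = ∑ k, ((if k = i then D + 1 else 0) - 1) • l k + σ`, and `f (Fin.cons c w)` does not change if an element of `C` is added to an entry of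
`w` (expand; two entries in `C`), one has by multilinearity (`MultilinearMap.map_smul_univ`, `map_sum`)
`(D + 1) ^ m • f (c, l ∘ J) = ∑ K : Fin m → Fin (D + 1), (∏ a, M (K a) (J a)) • f (c, l ∘ K)`, `M k i = (if k = i then D + 1 else 0) - 1`.
And `m! • f (c, l ∘ K) = ∑ σ : Perm (Fin m), sign σ • f (c, l ∘ K ∘ σ)` (permutations that fix the first entry:
`AlternatingMap.map_perm` with `finSuccEquiv`-extended permutations, e.g. `Equiv.Perm.decomposeFin` or `Fin.cons_comp..`; it may be convenient to use that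
`w ↦ f (Fin.cons c w)` is itself an alternating map in `m` arguments: `AlternatingMap.curryLeft f c`). Substitute `F = K ∘ σ`, `K = F ∘ σ⁻¹`: the coefficient of
`f (c, l ∘ F)` is `∑ σ, sign σ * ∏ a, M (F (σ⁻¹ a)) (J a) = det (dm F J)` (`Matrix.det_apply`, `Matrix.det_transpose`).
-/

set_option autoImplicit false

namespace P4a177x

variable {V G : Type*} [AddCommGroup V] [AddCommGroup G] {m D : ℕ}
  (f : V [⋀^Fin (m + 1)]→ₗ[ℤ] G) (C : AddSubgroup V) (l : Fin (D + 1) → V)

namespace KilXAux

/-- An alternating map that vanishes if an entry is in `C` depends only on the entries modulo `C`. -/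
theorem congr_C {m : ℕ} (g : V [⋀^Fin m]→ₗ[ℤ] G) (C : AddSubgroup V)
    (hg : ∀ (w : Fin m → V) (a : Fin m), w a ∈ C → g w = 0) (u w : Fin m → V)
    (h : ∀ a, u a - w a ∈ C) : g u = g w := by
  classical
  have key : ∀ S : Finset (Fin m), g (S.piecewise u w) = g w := by
    intro S
    induction S using Finset.induction_on with
    | empty => rw [Finset.piecewise_empty]
    | insert a S ha ih =>
      rw [Finset.piecewise_insert]
      set x : Fin m → V := S.piecewise u w with hx
      have hxa : x a = w a := by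
        rw [hx, Finset.piecewise_eq_of_notMem _ _ _ ha]
      have h1 : u a = w a + (u a - w a) := by abel
      rw [h1, g.map_update_add, hg (Function.update x a (u a - w a)) a
        (by rw [Function.update_self]; exact h a), add_zero, ← hxa, Function.update_eq_self, ih]
  have h1 := key Finset.univ
  rwa [Finset.piecewise_univ] at h1

/-- The matrix entries. -/
def M (D : ℕ) (k i : Fin (D + 1)) : ℤ := (if k = i then ((D : ℤ) + 1) else 0) - 1

theorem expand {m : ℕ} (g : V [⋀^Fin m]→ₗ[ℤ] G) (C : AddSubgroup V)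
    (hg : ∀ (w : Fin m → V) (a : Fin m), w a ∈ C → g w = 0) (l : Fin (D + 1) → V)
    (hs : ∑ k, l k ∈ C) (J : Fin m → Fin (D + 1)) :
    ((D : ℤ) + 1) ^ m • g (fun a => l (J a)) =
      ∑ K : Fin m → Fin (D + 1), (∏ a, M D (K a) (J a)) • g (fun a => l (K a)) := by
  classical
  have h1 : ((D : ℤ) + 1) ^ m • g (fun a => l (J a)) =
      g (fun a => ((D : ℤ) + 1) • l (J a)) := by
    have h2 := g.toMultilinearMap.map_smul_univ (fun _ : Fin m => ((D : ℤ) + 1))
      (fun a => l (J a))
    rw [Finset.prod_const, Finset.card_univ, Fintype.card_fin] at h2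
    exact h2.symm
  have h2 : g (fun a => ((D : ℤ) + 1) • l (J a)) =
      g (fun a => ∑ k, M D k (J a) • l k) := by
    refine congr_C g C hg _ _ fun a => ?_
    have h3 : ((D : ℤ) + 1) • l (J a) - ∑ k, M D k (J a) • l k = ∑ k, l k := by
      have h4 : ∑ k, M D k (J a) • l k = ((D : ℤ) + 1) • l (J a) - ∑ k, l k := by
        unfold M
        simp only [sub_smul, one_smul, Finset.sum_sub_distrib, ite_smul, zero_smul]
        rw [Finset.sum_ite_eq' Finset.univ (J a) fun k => ((D : ℤ) + 1) • l k,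
          if_pos (Finset.mem_univ _)]
      rw [h4]
      abel
    rw [h3]
    exact hs
  rw [h1, h2]
  have h3 := g.toMultilinearMap.map_sum (fun (a : Fin m) (k : Fin (D + 1)) => M D k (J a) • l k)
  refine h3.trans ?_
  refine Finset.sum_congr rfl fun K _ => ?_
  exact g.toMultilinearMap.map_smul_univ (fun a => M D (K a) (J a)) (fun a => l (K a))

theorem core {m : ℕ} (g : V [⋀^Fin m]→ₗ[ℤ] G) (C : AddSubgroup V)
    (hg : ∀ (w : Fin m → V) (a : Fin m), w a ∈ C → g w = 0) (l : Fin (D + 1) → V)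
    (hs : ∑ k, l k ∈ C) (J : Fin m → Fin (D + 1)) :
    (m.factorial * (D + 1) ^ m) • g (fun a => l (J a)) =
      ∑ F : Fin m → Fin (D + 1), (dm F J).det • g (fun a => l (F a)) := by
  classical
  have h1 : (m.factorial * (D + 1) ^ m) • g (fun a => l (J a)) =
      ∑ _τ : Equiv.Perm (Fin m), ∑ K : Fin m → Fin (D + 1),
        (∏ a, M D (K a) (J a)) • g (fun a => l (K a)) := by
    rw [← expand g C hg l hs J, Finset.sum_const, Finset.card_univ, Fintype.card_perm,
      Fintype.card_fin, mul_nsmul', ← natCast_zsmul (g fun a => l (J a)) ((D + 1) ^ m)]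
    push_cast
    rfl
  have h2 : ∀ τ : Equiv.Perm (Fin m), ∑ K : Fin m → Fin (D + 1),
      (∏ a, M D (K a) (J a)) • g (fun a => l (K a)) =
      ∑ F : Fin m → Fin (D + 1),
        ((Equiv.Perm.sign τ : ℤ) * ∏ a, M D (F a) (J (τ a))) • g (fun a => l (F a)) := by
    intro τ
    have e : ∑ K : Fin m → Fin (D + 1), (∏ a, M D (K a) (J a)) • g (fun a => l (K a)) =
        ∑ F : Fin m → Fin (D + 1), (∏ a, M D (F (τ⁻¹ a)) (J a)) • g (fun a => l (F (τ⁻¹ a))) :=
      (Equiv.sum_comp (Equiv.arrowCongr τ (Equiv.refl (Fin (D + 1))))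
        (fun K : Fin m → Fin (D + 1) => (∏ a, M D (K a) (J a)) • g (fun a => l (K a)))).symm
    rw [e]
    refine Finset.sum_congr rfl fun F _ => ?_
    have h3 : g (fun a => l (F (τ⁻¹ a))) = (Equiv.Perm.sign τ : ℤ) • g (fun a => l (F a)) := by
      have h4 := g.map_perm (fun a => l (F a)) τ⁻¹
      rw [Equiv.Perm.sign_inv] at h4
      exact h4
    have h5 : ∏ a, M D (F (τ⁻¹ a)) (J a) = ∏ a, M D (F a) (J (τ a)) := by
      rw [← Equiv.prod_comp τ]
      refine Finset.prod_congr rfl fun a _ => ?_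
      have h6 : τ⁻¹ (τ a) = a := Equiv.symm_apply_apply τ a
      rw [h6]
    rw [h3, h5, smul_smul, mul_comm]
  rw [h1, Finset.sum_congr rfl fun τ _ => h2 τ, Finset.sum_comm]
  refine Finset.sum_congr rfl fun F _ => ?_
  rw [← Finset.sum_smul]
  congr 1
  rw [← Matrix.det_transpose, Matrix.det_apply']
  refine Finset.sum_congr rfl fun τ _ => ?_
  rfl

end KilXAux

open KilXAux

theorem kill_alg
    (hC : ∀ (v : Fin (m + 1) → V) (i j : Fin (m + 1)), i ≠ j → v i ∈ C → v j ∈ C → f v = 0)
    (hs : ∑ k, l k ∈ C) (c : (Fin m → Fin (D + 1)) → V) (hc : ∀ J, c J ∈ C) :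
    (m.factorial * (D + 1) ^ m) • ∑ J, f (Fin.cons (c J) (fun a => l (J a))) =
      ∑ F : Fin m → Fin (D + 1),
        f (Fin.cons (∑ J, (dm F J).det • c J) (fun a => l (F a))) := by
  classical
  have hcur : ∀ (x : V) (w : Fin m → V), f (Fin.cons x w) = f.curryLeft x w := fun _ _ => rfl
  rw [Finset.smul_sum]
  have h1 : ∀ J, (m.factorial * (D + 1) ^ m) • f (Fin.cons (c J) (fun a => l (J a))) =
      ∑ F : Fin m → Fin (D + 1), (dm F J).det • f.curryLeft (c J) (fun a => l (F a)) := by
    intro J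
    rw [hcur]
    refine core (f.curryLeft (c J)) C (fun w a hw => ?_) l hs J
    refine hC (Fin.cons (c J) w) 0 (Fin.succ a) (Fin.succ_ne_zero a).symm ?_ ?_
    · rw [Fin.cons_zero]
      exact hc J
    · rw [Fin.cons_succ]
      exact hw
  rw [Finset.sum_congr rfl fun J _ => h1 J, Finset.sum_comm]
  refine Finset.sum_congr rfl fun F _ => ?_
  obtain ⟨φ, hφ⟩ : ∃ φ : V →+ G, ∀ x, φ x = f.curryLeft x (fun a => l (F a)) :=
    ⟨AddMonoidHom.mk' (fun x => f.curryLeft x (fun a => l (F a))) fun x y => by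
      rw [map_add]
      rfl, fun _ => rfl⟩
  rw [hcur, ← hφ, map_sum]
  refine Finset.sum_congr rfl fun J _ => ?_
  rw [map_zsmul, hφ]

end P4a177x
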