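import Pool.Agent.Lib.P4a177x.Defs
import Pool.Agent.Lib.P4a177h.Unram

/-!
# MODULE P4a177x.NegX: regulators and images in fields of the elements of `Tor`

PROOFS. `reg_tor`: `k * reg γ x = 0`, because `reg γ` vanishes on `negSub`: for `a j = -a i`, `i + 1 = j`, the proof of
`P4a177h.regFun_steinberg` in `Lib/P4a177h/RegHom.lean` works verbatim with `stPair γ (a i) (a j) h` replaced by the pair
`StPair (entry γ (a i)) (entry γ (a j))` (`Lib/P4a177h/SteinL.lean`, `UnitEntry.lean`): the forms `dlogRow γ (-a) = dlogRow γ a` are equal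
(`lam = 1`; the derivative and the value change sign), and the exactness holds with `ξ = 0`, since
`u * re c' - u' * re c = 0` (`‖-z‖ = ‖z‖`). `map_tor`: `map φ` of a generator is the symbol of a field with neighbouring entries
`x, -x`, zero by `P4a177h.two_neg` (`Lib/P4a177h/Unram.lean`; write `a` as `update (update a i (a i)) j (a j)`); so
`map φ (k • x) = 0` (`AddSubgroup.closure_le`, kernel).
-/

set_option autoImplicit false

namespace P4a177x

open P4a177h

namespace NegXAux

open Function MeasureTheory ExteriorAlgebra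
open scoped Real

variable {d : ℕ} {R : Type*} [CommRing R]

/-- The forms of `a` and `-a` are equal. -/
theorem dlogRow_neg (γ : Torus d R) (a : Rˣ) : dlogRow γ (-a) = dlogRow γ a := by
  funext θ l
  unfold dlogRow
  have h1 : (fun θ => γ.emb θ ((-a : Rˣ) : R)) = fun θ => -γ.emb θ (a : R) := by
    funext θ
    rw [Units.val_neg, map_neg]
  have h2 : fderiv ℝ (fun θ => -γ.emb θ (a : R)) θ = -fderiv ℝ (fun θ => γ.emb θ (a : R)) θ :=
    fderiv_fun_neg
  rw [h1, h2, Units.val_neg, map_neg]
  show -Complex.I * (-(fderiv ℝ (fun θ => γ.emb θ (a : R)) θ (Pi.single l 1)) /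
    -γ.emb θ (a : R)) = _
  rw [neg_div_neg_eq]

/-- The pair of the entries of `a` and `-a`. -/
theorem negPair (γ : Torus d R) (a b : Rˣ) (hab : b = -a) :
    StPair (entry γ a) (entry γ b) := by
  have hc : ∀ θ, (entry γ b).c.toFun θ = (entry γ a).c.toFun θ := by
    intro θ
    show dlogRow γ b θ = dlogRow γ a θ
    rw [hab, dlogRow_neg]
  have hu : ∀ θ, (entry γ b).u θ = (entry γ a).u θ := by
    intro θ
    show Real.log ‖γ.emb θ (b : R)‖ = Real.log ‖γ.emb θ (a : R)‖
    rw [hab, Units.val_neg, map_neg, norm_neg]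
  refine ⟨fun θ => ⟨1, by rw [hc, one_smul]⟩, fun _ => 0, continuous_const, ?_, fun _ _ => rfl⟩
  intro θ l
  rw [hc, hu, sub_self]
  exact hasDerivAt_const _ _

/-- The regulator integral of a symbol with neighbouring entries `a, -a`. -/
theorem regFun_neg (γ : Torus d R) (a : Fin (d + 1) → Rˣ) (i j : Fin (d + 1))
    (hij : (i : ℕ) + 1 = j) (h : a j = -a i) : regFun γ a = 0 := by
  rw [regFun_eq]
  set L := List.ofFn fun i => entry γ (a i) with hL
  have hlen : L.length = d + 1 := by simp [hL]
  have hi : (i : ℕ) < L.length := by rw [hlen]; exact i.2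
  have hj : (i : ℕ) + 1 < L.length := by rw [hlen, hij]; exact j.2
  have hsplit : L = L.take i ++ entry γ (a i) :: entry γ (a j) :: L.drop (i + 2) := by
    conv_lhs => rw [← List.take_append_drop i L]
    congr 1
    rw [List.drop_eq_getElem_cons hi, List.drop_eq_getElem_cons hj]
    congr 1
    · simp only [hL, List.getElem_ofFn]
    · congr 1
      simp only [hL, List.getElem_ofFn]
      congr 2
      exact Fin.ext hij
  rw [hsplit]
  have := integral_steinberg (negPair γ (a i) (a j) h) (L.drop (i + 2)) (L.take i) []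
    (by simp)
  simpa [wf_nil] using this

/-- The regulator vanishes on `negSub`. -/
theorem reg_negSub (γ : Torus d R) {x : MilnorK (d + 1) R} (hx : x ∈ negSub (d + 1) R) :
    reg γ x = 0 := by
  have h : negSub (d + 1) R ≤ (reg γ).ker := by
    unfold negSub
    rw [AddSubgroup.closure_le]
    rintro x ⟨a, i, j, hij, h, rfl⟩
    show reg γ (symb a) = 0
    rw [reg_symb]
    exact regFun_neg γ a i j hij h
  exact h hx

/-- The image of `negSub` in the K-group of a field is zero. -/
theorem map_negSub {K : Type*} [Field K] {n : ℕ} (φ : R →+* K) {x : MilnorK n R}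
    (hx : x ∈ negSub n R) : map φ x = 0 := by
  have h : negSub n R ≤ (map (n := n) φ).ker := by
    unfold negSub
    rw [AddSubgroup.closure_le]
    rintro x ⟨a, i, j, hij, h, rfl⟩
    show map φ (symb a) = 0
    rw [map_symb]
    set b : Fin n → Kˣ := fun i => Units.map (φ : R →* K) (a i) with hb
    have hbj : b j = -b i := by
      apply Units.ext
      rw [Units.val_neg]
      show φ (a j : R) = -φ (a i : R)
      rw [h, Units.val_neg, map_neg]
    have e1 : b = update (update b i (b i)) j (-b i) := by
      rw [update_eq_self, ← hbj, update_eq_self]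
    rw [e1]
    exact two_neg b hij (b i)
  exact h hx

end NegXAux

theorem reg_tor {R : Type} [CommRing R] {d : ℕ} (γ : Torus d R) {x : MilnorK (d + 1) R}
    (hx : x ∈ Tor (d + 1) R) : reg γ x = 0 := by
  obtain ⟨k, hk, hkx⟩ := hx
  have h := NegXAux.reg_negSub γ hkx
  rw [map_nsmul, nsmul_eq_mul] at h
  rcases mul_eq_zero.1 h with h | h
  · exact absurd (Nat.cast_eq_zero.1 h) hk.ne'
  · exact h

theorem map_tor {R : Type*} [CommRing R] {K : Type*} [Field K] {n : ℕ} (φ : R →+* K)
    {x : MilnorK n R} (hx : x ∈ Tor n R) : ∃ k : ℕ, 0 < k ∧ k • map φ x = 0 := by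
  obtain ⟨k, hk, hkx⟩ := hx
  refine ⟨k, hk, ?_⟩
  rw [← map_nsmul]
  exact NegXAux.map_negSub φ hkx

end P4a177x
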