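import Pool.Agent.Lib.P4a177x.RegX

/-!
# MODULE P4a177x.UniX: the units of the coordinate ring

PROOF. (Model: `Lib/P4a177w/UnitW.lean`.) For every `k` choose an injective `F k : Fin (m + 1) → Fin (D + 1)` with `F k 0 = k` (`m + 2 ≤ D + 1` from `A.spans` and
`Arr.injective_of_lam`) and a place `P k` (`exists_place`). Let `n k : ℤ` be the order of the unit `w` at `P k`: `vls ((P k).φ w) = exp (-(n k))`. The order of `lu A N k` at `P k` is
`D` and at `P j`, `j ≠ k`, it is `-1` (`Place.hk`, `Place.hi`, the power series have nonzero constant coefficient by `Place.hu`); constants have order `0`. For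
`w' = w ^ (D + 1) * ∏ k, lu A N k ^ (-(n k))` the order at `P j` is `(D + 1) n j - D n j + ∑_{k ≠ j} n k = ∑ k, n k =: S`, independent of `j`. If `S ≥ 0` then `w'` has no poles, so it
is a constant by `regular`, not `0` because it is a unit of a nontrivial ring (`isDomain`); if `S < 0` apply this to `w'⁻¹`.
-/

set_option autoImplicit false

namespace P4a177x

open P4a177h P4a177s Function

namespace UniXAux

open WithZero

variable {L : Type} [Field L] {R : Type} [CommRing R]

theorem vls_coe_le (F : PowerSeries L) : vls L (F : LaurentSeries L) ≤ 1 :=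
  (LaurentSeries.val_le_one_iff_eq_coe L _).mpr ⟨F, rfl⟩

theorem vls_coe_unit (F : PowerSeries L) (h : PowerSeries.constantCoeff F ≠ 0) :
    vls L (F : LaurentSeries L) = 1 := by
  have hu : IsUnit F := PowerSeries.isUnit_iff_constantCoeff.mpr (isUnit_iff_ne_zero.mpr h)
  obtain ⟨u, rfl⟩ := hu
  have h1 := vls_coe_le (u : PowerSeries L)
  have h2 := vls_coe_le ((u⁻¹ : (PowerSeries L)ˣ) : PowerSeries L)
  have h3 : vls L ((u : PowerSeries L) : LaurentSeries L) *
      vls L (((u⁻¹ : (PowerSeries L)ˣ) : PowerSeries L) : LaurentSeries L) = 1 := by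
    rw [← map_mul, ← PowerSeries.coe_mul, Units.mul_inv, PowerSeries.coe_one, map_one]
  refine le_antisymm h1 ?_
  calc (1 : WithZero (Multiplicative ℤ)) = _ := h3.symm
    _ ≤ vls L ((u : PowerSeries L) : LaurentSeries L) * 1 := mul_le_mul_right h2 _
    _ = _ := mul_one _

theorem vls_z (n : ℤ) : vls L (HahnSeries.single n (1 : L)) = exp (-n) :=
  LaurentSeries.valuation_single_zpow L n

theorem vls_mul_unit (n : ℤ) (F : PowerSeries L) (h : PowerSeries.constantCoeff F ≠ 0) :
    vls L (HahnSeries.single n (1 : L) * (F : LaurentSeries L)) = exp (-n) := by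
  rw [map_mul, vls_z, vls_coe_unit F h, mul_one]

/-- the logarithm of the value of a unit -/
noncomputable def lg (φ : R →+* LaurentSeries L) : Rˣ →* Multiplicative ℤ :=
  (WithZero.unitsWithZeroEquiv (α := Multiplicative ℤ)).toMonoidHom.comp
    ((Units.map ((vls L : Valuation (LaurentSeries L) (WithZero (Multiplicative ℤ))) :
      LaurentSeries L →* WithZero (Multiplicative ℤ))).comp
        (Units.map (φ : R →* LaurentSeries L)))

theorem v_eq (φ : R →+* LaurentSeries L) (u : Rˣ) :
    vls L (φ u) = exp (Multiplicative.toAdd (lg φ u)) := by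
  have h1 : ((lg φ u : Multiplicative ℤ) : WithZero (Multiplicative ℤ)) = vls L (φ u) := by
    simp [lg]
  rw [← h1]
  rfl

theorem lg_eq {φ : R →+* LaurentSeries L} {u : Rˣ} {n : ℤ} (h : vls L (φ u) = exp n) :
    Multiplicative.toAdd (lg φ u) = n := by
  rw [v_eq] at h
  exact exp_injective h

theorem lg_mul (φ : R →+* LaurentSeries L) (u w : Rˣ) : Multiplicative.toAdd (lg φ (u * w)) =
    Multiplicative.toAdd (lg φ u) + Multiplicative.toAdd (lg φ w) := by
  rw [map_mul, toAdd_mul]

theorem lg_inv (φ : R →+* LaurentSeries L) (u : Rˣ) : Multiplicative.toAdd (lg φ u⁻¹) =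
    -Multiplicative.toAdd (lg φ u) := by
  rw [map_inv, toAdd_inv]

theorem lg_pow (φ : R →+* LaurentSeries L) (u : Rˣ) (n : ℕ) :
    Multiplicative.toAdd (lg φ (u ^ n)) = n * Multiplicative.toAdd (lg φ u) := by
  rw [map_pow, toAdd_pow, nsmul_eq_mul]

theorem lg_prod (φ : R →+* LaurentSeries L) {n : ℕ} (f : Fin n → Rˣ) (κ : Fin n → ℤ) :
    Multiplicative.toAdd (lg φ (∏ k, f k ^ κ k)) = ∑ k, κ k * Multiplicative.toAdd (lg φ (f k)) := by
  rw [map_prod, toAdd_prod]
  apply Finset.sum_congr rfl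
  intro k _
  rw [map_zpow, toAdd_zpow, smul_eq_mul]

/-- `m + 1` different indices, the first one is given -/
theorem exists_inj {m D : ℕ} (h : m + 1 ≤ D + 1) (k : Fin (D + 1)) :
    ∃ F : Fin (m + 1) → Fin (D + 1), Injective F ∧ F 0 = k := by
  refine ⟨fun i => Equiv.swap 0 k (Fin.castLE h i), ?_, ?_⟩
  · exact (Equiv.injective _).comp (Fin.castLE_injective h)
  · show Equiv.swap 0 k (Fin.castLE h 0) = k
    have : Fin.castLE h 0 = (0 : Fin (D + 1)) := rfl
    rw [this, Equiv.swap_apply_left]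

end UniXAux

open UniXAux WithZero in
theorem unit_pow {m D : ℕ} (A : Arr (m + 2) (D + 1)) (hA : GP A) (N : ℕ) (hN : 1 ≤ N)
    (w : (A.CoordRing N)ˣ) :
    ∃ (t : ℚˣ) (κ : Fin (D + 1) → ℤ),
      w ^ (D + 1) = P4a177w.cs (A.CoordRing N) t * ∏ k, lu A N k ^ κ k := by
  classical
  have hmD : m + 2 ≤ D + 1 := by
    obtain ⟨p, hp⟩ := A.spans
    have h1 : Injective p := A.injective_of_lam hp
    simpa using Fintype.card_le_of_injective p h1
  choose F hFi hF using fun k : Fin (D + 1) => exists_inj (m := m) (D := D) (by omega) k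
  let P : ∀ k, Place A N (F k) := fun k => (exists_place A hA N hN (F k) (hFi k)).some
  have hune : ∀ k i, PowerSeries.constantCoeff ((P k).U i) ≠ 0 := fun k i => by
    rw [(P k).hu i]
    exact ((P k).u i).ne_zero
  have d1 : ∀ k, Multiplicative.toAdd (lg (P k).φ (lu A N k)) = -(D : ℤ) := fun k =>
    lg_eq (by
      have h := (P k).hk
      rw [hF k] at h
      rw [h]
      exact vls_mul_unit _ _ (hune k k))
  have d2 : ∀ j k, k ≠ j → Multiplicative.toAdd (lg (P j).φ (lu A N k)) = 1 := fun j k hk =>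
    lg_eq (by
      rw [(P j).hi k (by rw [hF j]; exact hk)]
      have h := vls_mul_unit (-1 : ℤ) ((P j).U k) (hune j k)
      rw [neg_neg] at h
      exact h)
  let n : Fin (D + 1) → ℤ := fun k => -Multiplicative.toAdd (lg (P k).φ w)
  let S : ℤ := ∑ k, n k
  obtain ⟨w', hw'⟩ : ∃ w' : (A.CoordRing N)ˣ, w' = w ^ (D + 1) * (∏ k, lu A N k ^ n k)⁻¹ := ⟨_, rfl⟩
  have hww : w ^ (D + 1) = w' * ∏ k, lu A N k ^ n k := by
    rw [hw', inv_mul_cancel_right]
  have hlg : ∀ j, Multiplicative.toAdd (lg (P j).φ w') = -S := by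
    intro j
    rw [hw', lg_mul, lg_inv, lg_pow, lg_prod]
    have s1 : ∑ k, n k * Multiplicative.toAdd (lg (P j).φ (lu A N k)) =
        S - ((D : ℤ) + 1) * n j := by
      have h1 : ∀ k, n k * Multiplicative.toAdd (lg (P j).φ (lu A N k)) =
          n k - (if k = j then ((D : ℤ) + 1) * n j else 0) := by
        intro k
        by_cases hk : k = j
        · subst hk
          rw [d1 k, if_pos rfl]
          ring
        · rw [d2 j k hk, if_neg hk]
          ring
      rw [Finset.sum_congr rfl fun k _ => h1 k, Finset.sum_sub_distrib, Finset.sum_ite_eq']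
      simp [S]
    rw [s1]
    have h2 : Multiplicative.toAdd (lg (P j).φ w) = -(n j) := (neg_neg _).symm
    rw [h2]
    push_cast
    ring
  have hne : ∀ (w : (A.CoordRing N)ˣ) (t : ℚ),
      (w : A.CoordRing N) = algebraMap ℚ (A.CoordRing N) t → t ≠ 0 := by
    rintro w t hwt rfl
    have h1 := v_eq (P 0).φ w
    rw [hwt, map_zero, map_zero, map_zero] at h1
    exact exp_ne_zero h1.symm
  have hconst : ∀ w : (A.CoordRing N)ˣ, (∀ i, Multiplicative.toAdd (lg (P i).φ w) ≤ 0) →
      ∃ t : ℚˣ, w = P4a177w.cs (A.CoordRing N) t := by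
    intro w h1
    obtain ⟨t, ht⟩ := regular A hA N hN F hF P (w : A.CoordRing N)
      (fun i => by rw [v_eq, ← exp_zero, exp_le_exp]; exact h1 i)
    refine ⟨Units.mk0 t (hne w t ht), Units.ext ?_⟩
    rw [ht]
    rfl
  rcases le_or_gt 0 S with hS | hS
  · obtain ⟨t, ht⟩ := hconst w' (fun i => by rw [hlg i]; linarith)
    exact ⟨t, n, by rw [hww, ht]⟩
  · obtain ⟨t, ht⟩ := hconst w'⁻¹ (fun i => by rw [lg_inv, hlg i]; linarith)
    refine ⟨t⁻¹, n, ?_⟩
    rw [hww, map_inv, ← ht, inv_inv]

end P4a177x
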