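import Pool.Agent.Lib.P4a177x.XiX
import Pool.Agent.Lib.P4a177s.Integ

/-!
# In general position the `ξ_B` are unramified over `ℚ` for every `N`
-/

set_option autoImplicit false

namespace P4a177x

open P4a177h P4a177s Function

namespace UnrXAux

variable {m D : ℕ}

/-- The symbol of the `z i` is unramified at the valuations which are trivial on the integers. -/
theorem unramified_z {A : Arr (m + 1) (D + 1)} (hA : GP A) {K : Type*} [Field K]
    (v : Valuation K (WithZero (Multiplicative ℤ))) {N : ℕ} (hN : 1 ≤ N)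
    {x : Fin (m + 1) → K} (h : A.On N x) (hv : ∀ q : ℤ, q ≠ 0 → v (q : K) = 1) (B : A.Idx)
    (z : Fin (m + 1) → Kˣ)
    (hz : ∀ i, (z i : K) * ((A.lam B.1 : K) * A.form (Arr.f B i) x) =
      -(A.lam (Function.update B.1 i (Arr.f B i)) : K) * A.form (B.1 i) x) :
    Unramified v (symb z) := by
  have hvle : ∀ q : ℤ, v (q : K) ≤ 1 := by
    intro q
    by_cases hq : q = 0
    · rw [hq, Int.cast_zero, map_zero]
      exact zero_le
    · exact (hv q hq).le
  have hlB : v (A.lam B.1 : K) = 1 := hv _ B.2.1
  have hlu : ∀ i, v (A.lam (Function.update B.1 i 0) : K) = 1 := by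
    intro i
    have h1 := Arr.f_spec B i
    rw [f_zero A hA B i] at h1
    exact hv _ h1
  have hz0 : ∀ i, (z i : K) * ((A.lam B.1 : K) * A.form 0 x) =
      -((A.lam (Function.update B.1 i 0) : K) * A.form (B.1 i) x) := by
    intro i
    have h1 := hz i
    rw [f_zero A hA B i] at h1
    rw [h1, neg_mul]
  have hkap : v (A.kap B.1 0 : K) = 1 := hv _ (A.kap_ne_zero B.2.1 (idx_ne A B))
  -- the valuations of the entries
  have hvz : ∀ i, v (z i : K) * v (A.form 0 x) = v (A.form (B.1 i) x) := by
    intro i
    have h1 := congrArg v (hz0 i)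
    rw [map_mul, map_mul, Valuation.map_neg, map_mul, hlB, hlu, one_mul, one_mul] at h1
    exact h1
  have hvs : v (1 + ∑ i, (z i : K)) * v (A.form 0 x) = 1 := by
    have h1 : (1 + ∑ i, (z i : K)) * ((A.lam B.1 : K) * A.form 0 x) = (A.kap B.1 0 : K) := by
      rw [add_mul, one_mul, Finset.sum_mul, Finset.sum_congr rfl fun i _ => hz0 i,
        Finset.sum_neg_distrib, A.cramer B.1 0 x]
      ring
    have h2 := congrArg v h1
    rw [map_mul, map_mul, hlB, one_mul, hkap] at h2
    exact h2
  have hv0 : v (A.form 0 x) ≠ 0 := by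
    intro h0
    rw [h0, mul_zero] at hvs
    exact zero_ne_one hvs
  by_cases hall : ∀ k, v (A.form k x) ≤ 1
  · -- all forms are units
    have hprod : ∏ k, v (A.form k x) = 1 := by
      unfold Arr.On at h
      have h1 := congrArg v h
      rw [map_mul, map_prod, map_one] at h1
      have h2 : v (N : K) = 1 := by
        have := hv (N : ℤ) (by exact_mod_cast Nat.one_le_iff_ne_zero.1 hN)
        rwa [Int.cast_natCast] at this
      rwa [h2, one_mul] at h1
    have heq1 : ∀ k, v (A.form k x) = 1 := by
      intro k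
      apply le_antisymm (hall k)
      rw [← hprod, ← Finset.mul_prod_erase Finset.univ (fun k => v (A.form k x)) (Finset.mem_univ k)]
      exact mul_le_of_le_one_right' (Finset.prod_le_one' fun l _ => hall l)
    refine unramified_symb v z (Or.inl fun i => ?_)
    have h1 := hvz i
    rwa [heq1, heq1, mul_one] at h1
  · -- a form has a pole
    obtain ⟨i, hi⟩ : ∃ i, 1 < v (A.form (B.1 i) x) := by
      by_contra hne
      push Not at hne
      refine hall fun k => ?_
      have h1 : v ((A.lam B.1 : K) * A.form k x) ≤ 1 := by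
        rw [A.cramer B.1 k x]
        refine Valuation.map_add_le v (v.map_sum_le fun j _ => ?_) (hvle _)
        rw [map_mul]
        exact mul_le_one' (hvle _) (hne j)
      rwa [map_mul, hlB, one_mul] at h1
    refine unramified_of_sum v z Finset.univ (Or.inr ⟨i, Finset.mem_univ i, ?_⟩)
    have h1 : v (1 + ∑ i, (z i : K)) * v (A.form 0 x) < v (z i : K) * v (A.form 0 x) := by
      rw [hvs, hvz]
      exact hi
    exact lt_of_mul_lt_mul_right h1 zero_le

end UnrXAux

open UnrXAux

theorem xi_over {m D : ℕ} (A : Arr (m + 1) (D + 1)) (hA : GP A) (N : ℕ) (hN : 1 ≤ N) (B : A.Idx) :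
    P4a177w.UnramifiedOverQ (A.xi N B) := by
  intro K _ _ _ v hv
  have hv' : ∀ q : ℤ, q ≠ 0 → v (q : K) = 1 := by
    intro q hq
    have h1 := hv (Units.mk0 (q : ℚ) (Int.cast_ne_zero.2 hq))
    rwa [Units.val_mk0, map_intCast, map_intCast] at h1
  unfold Arr.xi
  rw [map_symb]
  exact unramified_z hA v hN ((A.coord_on N).map (algebraMap (A.CoordRing N) K)) hv' B _
    fun i => Arr.z_map (algebraMap (A.CoordRing N) K) B i

end P4a177x
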