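import Pool.Agent.Lib.P4a177x.MulX
import Pool.Agent.Lib.P4a177x.KilX
import Pool.Agent.Lib.P4a177x.NegX
import Pool.Agent.Lib.P4a177x.AltX
import Pool.Agent.Lib.P4a177x.ConX
import Pool.Agent.Lib.P4a177x.UniX
import Pool.Agent.Lib.P4a177x.TfX
import Pool.Agent.Lib.P4a177x.UnrX

/-!
# The unramified elements of `K_n` of the coordinate ring of a hypersurface `N * l_1 * … * l_D = 1` in
general position are combinations of the `ξ_B`, up to torsion
-/

set_option autoImplicit false

namespace P4a177x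

open P4a177h P4a177s Function

/-- A rational number without prime factors is `± 1`. -/
theorem eq_one_of_padic (q : ℚˣ) (h : ∀ (p : ℕ) [Fact p.Prime], padicValRat p (q : ℚ) = 0) :
    q = 1 ∨ q = -1 := by
  have hn : (q : ℚ).num.natAbs = 1 := by
    by_contra hne
    obtain ⟨p, hp, hd⟩ := Nat.exists_prime_and_dvd hne
    have : Fact p.Prime := ⟨hp⟩
    have h0 : (q : ℚ).num ≠ 0 := Rat.num_ne_zero.2 q.ne_zero
    have h1 : (p : ℤ) ∣ (q : ℚ).num := Int.natCast_dvd.2 hd
    have h2 : ¬ p ∣ (q : ℚ).den := fun hd' =>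
      hp.one_lt.ne' (Nat.dvd_one.1 ((q : ℚ).reduced ▸ Nat.dvd_gcd hd hd'))
    have h3 : padicValRat p (q : ℚ) = padicValInt p (q : ℚ).num - padicValNat p (q : ℚ).den := rfl
    rw [h] at h3
    have h4 : padicValNat p (q : ℚ).den = 0 := padicValNat.eq_zero_of_not_dvd h2
    have h5 : 1 ≤ padicValInt p (q : ℚ).num := by
      unfold padicValInt
      exact one_le_padicValNat_of_dvd (Int.natAbs_ne_zero.2 h0) hd
    rw [h4] at h3
    omega
  have hd : (q : ℚ).den = 1 := by
    by_contra hne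
    obtain ⟨p, hp, hd⟩ := Nat.exists_prime_and_dvd hne
    have : Fact p.Prime := ⟨hp⟩
    have h3 : padicValRat p (q : ℚ) = padicValInt p (q : ℚ).num - padicValNat p (q : ℚ).den := rfl
    rw [h] at h3
    have h4 : padicValInt p (q : ℚ).num = 0 := by
      unfold padicValInt
      rw [hn, padicValNat.one]
    have h5 : 1 ≤ padicValNat p (q : ℚ).den := one_le_padicValNat_of_dvd (q : ℚ).den_nz hd
    rw [h4] at h3
    omega
  have h1 : (q : ℚ) = (q : ℚ).num := (Rat.den_eq_one_iff _).1 hd |>.symm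
  rcases Int.natAbs_eq (q : ℚ).num with h2 | h2
  · left
    apply Units.ext
    rw [h1, h2, hn]
    simp
  · right
    apply Units.ext
    rw [h1, h2, hn]
    simp

variable {m D : ℕ} (A : Arr (m + 2) (D + 1)) (N : ℕ)

theorem ofMul_cons {R : Type} [CommRing R] {k : ℕ} (a : Rˣ) (b : Fin k → Rˣ) :
    (fun i => Additive.ofMul ((Fin.cons a b : Fin (k + 1) → Rˣ) i)) =
      Fin.cons (Additive.ofMul a) (fun i => Additive.ofMul (b i)) := by
  funext i
  refine Fin.cases ?_ (fun j => ?_) i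
  · rfl
  · rfl

/-- The product of the units `l_k` is constant. -/
theorem sum_mem_CC (hN : 1 ≤ N) :
    ∑ k, Additive.ofMul (lu A N k) ∈ CC (A.CoordRing N) := by
  have hN0 : (N : ℚ) ≠ 0 := by
    have : N ≠ 0 := by omega
    exact_mod_cast this
  refine ⟨Additive.ofMul (Units.mk0 (N : ℚ) hN0)⁻¹, ?_⟩
  rw [← ofMul_prod]
  show Additive.ofMul (P4a177w.cs (A.CoordRing N) (Units.mk0 (N : ℚ) hN0)⁻¹) = _
  congr 1
  rw [map_inv, inv_eq_iff_mul_eq_one]
  apply Units.ext
  rw [Units.val_mul, Units.coe_prod, Units.val_one]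
  have h := A.coord_on N
  unfold Arr.On at h
  have h1 : ((P4a177w.cs (A.CoordRing N) (Units.mk0 (N : ℚ) hN0) : (A.CoordRing N)ˣ) :
      A.CoordRing N) = (N : A.CoordRing N) := by
    show algebraMap ℚ (A.CoordRing N) (N : ℚ) = _
    rw [map_natCast]
  rw [h1]
  exact h

theorem hg (hA : GP A) (hN : 1 ≤ N) (w : Additive (A.CoordRing N)ˣ) :
    ∃ κ : Fin (D + 1) → ℤ, (D + 1) • w - ∑ k, κ k • Additive.ofMul (lu A N k) ∈
      CC (A.CoordRing N) := by
  obtain ⟨t, κ, h⟩ := unit_pow A hA N hN w.toMul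
  refine ⟨κ, Additive.ofMul t, ?_⟩
  show Additive.ofMul (P4a177w.cs (A.CoordRing N) t) = _
  have h1 : (D + 1) • w = Additive.ofMul (w.toMul ^ (D + 1)) := by
    rw [ofMul_pow, ofMul_toMul]
  rw [h1, h, ofMul_mul, ofMul_prod]
  simp only [ofMul_zpow]
  abel

theorem in_HH (hA : GP A) (hN : 1 ≤ N) {G : Type*} [AddCommGroup G]
    (π : MilnorK (m + 2) (A.CoordRing N) →+ G) (S : Alt (A.CoordRing N) (m + 2) G)
    (hS : ∀ a : Fin (m + 2) → (A.CoordRing N)ˣ,
      S.f (fun k => Additive.ofMul (a k)) = π (symb a))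
    (η : MilnorK (m + 2) (A.CoordRing N)) :
    (((D + 1) ^ 2) ^ (m + 2)) • π η ∈
      HH S.f (CC (A.CoordRing N)) (fun k => Additive.ofMul (lu A N k)) := by
  have h1 : ∀ a : Fin (m + 2) → (A.CoordRing N)ˣ, (((D + 1) ^ 2) ^ (m + 2)) • π (symb a) ∈
      HH S.f (CC (A.CoordRing N)) (fun k => Additive.ofMul (lu A N k)) := by
    intro a
    have h := span_mem S.f (CC (A.CoordRing N)) (fun k => Additive.ofMul (lu A N k))
      (fun v i j hij hi hj => const_const S v i j hij hi hj) (sum_mem_CC A N hN)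
      (hg A N hA hN) (fun k => Additive.ofMul (a k))
    rw [hS] at h
    exact h
  have h2 : ∀ z : FreeAbelianGroup (Fin (m + 2) → (A.CoordRing N)ˣ),
      (((D + 1) ^ 2) ^ (m + 2)) • π ((QuotientAddGroup.mk' _) z) ∈
      HH S.f (CC (A.CoordRing N)) (fun k => Additive.ofMul (lu A N k)) := by
    intro z
    induction z using FreeAbelianGroup.induction_on with
    | zero =>
      rw [map_zero, map_zero, smul_zero]
      exact zero_mem _
    | of a => exact h1 a
    | neg a ih =>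
      rw [map_neg, map_neg, smul_neg]
      exact neg_mem (h1 a)
    | add x y hx hy =>
      rw [map_add, map_add, smul_add]
      exact add_mem hx hy
  induction η using QuotientAddGroup.induction_on with
  | H z => exact h2 z

/-- The sum over all the strictly increasing maps reduces to the sum over `A.Idx`. -/
theorem sum_idx (hA : GP A) {G : Type*} [AddCommGroup G] {V : Type*} [AddCommGroup V]
    (f : V [⋀^Fin (m + 2)]→ₗ[ℤ] G) (l : Fin (D + 1) → V)
    (ν : (Fin (m + 2) ↪o Fin (D + 1)) → ℤ) :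
    ∑ B, ν B • f (fun i => l (B i) - l 0) =
      ∑ B : A.Idx, ν B.1 • f (fun i => l (B.1 i) - l 0) := by
  classical
  symm
  refine Finset.sum_bij_ne_zero (fun B _ _ => B.1) (fun B _ _ => Finset.mem_univ _) ?_ ?_ ?_
  · intro B _ _ B' _ _ h
    exact Subtype.ext h
  · intro B _ hB
    have hB0 : ∀ i, B i ≠ 0 := by
      intro i hi
      apply hB
      have : f (fun i => l (B i) - l 0) = 0 := by
        refine f.map_coord_zero i ?_
        show l (B i) - l 0 = 0
        rw [hi, sub_self]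
      rw [this, smul_zero]
    exact ⟨⟨B, idx A hA B hB0⟩, Finset.mem_univ _, hB, rfl⟩
  · intro B _ _
    rfl

theorem two_smul_cons {V G : Type*} [AddCommGroup V] [AddCommGroup G] {k : ℕ}
    (f : V [⋀^Fin (k + 1)]→ₗ[ℤ] G) (x : V) (w : Fin k → V) :
    2 • f (Fin.cons x w) = f (Fin.cons (2 • x) w) := by
  have h11 := f.map_update_add (Fin.cons x w) 0 x x
  rw [Fin.update_cons_zero, Fin.update_cons_zero] at h11
  rw [two_nsmul, two_nsmul, h11]

theorem cons_zero' {V G : Type*} [AddCommGroup V] [AddCommGroup G] {k : ℕ}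
    (f : V [⋀^Fin (k + 1)]→ₗ[ℤ] G) (w : Fin k → V) : f (Fin.cons 0 w) = 0 :=
  f.map_coord_zero 0 rfl

theorem cons_eq' {V G : Type*} [AddCommGroup V] [AddCommGroup G] {k : ℕ}
    (f : V [⋀^Fin (k + 1)]→ₗ[ℤ] G) (x : V) (w : Fin k → V) (a a' : Fin k) (h : w a = w a')
    (hne : a ≠ a') : f (Fin.cons x w) = 0 :=
  f.map_eq_zero_of_eq _ (i := a.succ) (j := a'.succ) (by simpa using h)
    (fun h => hne (Fin.succ_injective _ h))

/-- An algebraic form of the last step. -/
theorem kill_abs {V G : Type*} [AddCommGroup V] [AddCommGroup G]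
    (f : V [⋀^Fin (m + 2)]→ₗ[ℤ] G) (tf : ∀ (k : ℕ) (x : G), 0 < k → k • x = 0 → x = 0)
    (l : Fin (D + 1) → V) (x : (Fin (m + 1) → Fin (D + 1)) → V)
    (hx : ∀ F, Injective F → 2 • x F = 0) :
    ∑ F : Fin (m + 1) → Fin (D + 1), f (Fin.cons (x F) (fun a => l (F a))) = 0 := by
  refine Finset.sum_eq_zero fun F _ => ?_
  by_cases hF : Injective F
  · refine tf 2 _ (by norm_num) ?_
    rw [two_smul_cons, hx F hF, cons_zero']
  · rw [Injective] at hF
    push Not at hF
    obtain ⟨a, a', haa, hne⟩ := hF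
    exact cons_eq' f _ _ a a' (by rw [haa]) hne

/-- The key step: the element with constant entries is torsion. -/
theorem kill_zeta (hA : GP A) (hN : 1 ≤ N)
    {S : Alt (A.CoordRing N) (m + 2) (MilnorK (m + 2) (A.CoordRing N) ⧸ Tor (m + 2) (A.CoordRing N))}
    (hS : ∀ a : Fin (m + 2) → (A.CoordRing N)ˣ,
      S.f (fun k => Additive.ofMul (a k)) = QuotientAddGroup.mk (symb a))
    (q : (Fin (m + 1) → Fin (D + 1)) → ℚˣ)
    (hq : ∀ (K : Type) [Field K] [Algebra (A.CoordRing N) K] [IsFractionRing (A.CoordRing N) K]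
      (v : Valuation K (WithZero (Multiplicative ℤ))) (T : MilnorK (m + 2) K →+ ℤ),
      (∀ t : ℚˣ, v (algebraMap (A.CoordRing N) K (algebraMap ℚ (A.CoordRing N) t)) = 1) →
      (∀ ξ : MilnorK (m + 2) K, Unramified v ξ → T ξ = 0) →
      T (map (algebraMap (A.CoordRing N) K) (∑ J, symb (Fin.cons
        (P4a177w.cs (A.CoordRing N) (q J)) (fun b => lu A N (J b))))) = 0) :
    ∑ J, symb (Fin.cons (P4a177w.cs (A.CoordRing N) (q J)) (fun b => lu A N (J b))) ∈
      Tor (m + 2) (A.CoordRing N) := by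
  rw [← QuotientAddGroup.eq_zero_iff]
  set l : Fin (D + 1) → Additive (A.CoordRing N)ˣ := fun k => Additive.ofMul (lu A N k) with hl
  set cc : (Fin (m + 1) → Fin (D + 1)) → Additive (A.CoordRing N)ˣ := fun J =>
    Additive.ofMul (P4a177w.cs (A.CoordRing N) (q J)) with hcc
  have hccm : ∀ J, cc J ∈ CC (A.CoordRing N) := fun J => ⟨Additive.ofMul (q J), rfl⟩
  have e1 : (QuotientAddGroup.mk' (Tor (m + 2) (A.CoordRing N)))
      (∑ J, symb (Fin.cons (P4a177w.cs (A.CoordRing N) (q J)) (fun b => lu A N (J b)))) =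
      ∑ J, S.f (Fin.cons (cc J) (fun a => l (J a))) := by
    rw [map_sum]
    refine Finset.sum_congr rfl fun J _ => ?_
    have h := hS (Fin.cons (P4a177w.cs (A.CoordRing N) (q J)) (fun b => lu A N (J b)))
    rw [ofMul_cons] at h
    exact h.symm
  have hk := kill_alg S.f (CC (A.CoordRing N)) l
    (fun v i j hij hi hj => const_const S v i j hij hi hj) (sum_mem_CC A N hN) cc hccm
  have e2 : ∑ F : Fin (m + 1) → Fin (D + 1),
      S.f (Fin.cons (∑ J, (dm F J).det • cc J) (fun a => l (F a))) = 0 := by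
    refine kill_abs S.f S.tf l (fun F => ∑ J, (dm F J).det • cc J) fun F hF => ?_
    -- the constant is `± 1`
    obtain ⟨qF, hqF⟩ : ∃ qF : ℚˣ, qF = ∏ J, q J ^ (dm F J).det := ⟨_, rfl⟩
    have e3 : ∑ J, (dm F J).det • cc J =
        Additive.ofMul (P4a177w.cs (A.CoordRing N) qF) := by
      rw [hqF, map_prod, ofMul_prod]
      refine Finset.sum_congr rfl fun J _ => ?_
      rw [map_zpow, ofMul_zpow]
    have hq1 : qF = 1 ∨ qF = -1 := by
      apply eq_one_of_padic
      intro p hp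
      obtain ⟨P⟩ := exists_place A hA N hN F hF
      have hdom := isDomain A (by omega) N hN
      obtain ⟨v, T, h1, h2, h3⟩ := exists_TF A N F P (FractionRing (A.CoordRing N))
      have h4 := hq (FractionRing (A.CoordRing N)) v (T p) h1 (fun ξ hξ => h2 p ξ hξ)
      rw [map_sum, map_sum] at h4
      have h5 : ∑ J, padicValRat p (q J : ℚ) * (dm F J).det = 0 := by
        rw [← Finset.sum_congr rfl fun J _ => h3 p (q J) J, ← Finset.mul_sum, h4, mul_zero]
      have h6 : padicValRat p (qF : ℚ) = ∑ J, padicValRat p (q J : ℚ) * (dm F J).det := by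
        rw [hqF]
        have hadd : ∀ a b : ℚˣ, padicValRat p ((a * b : ℚˣ) : ℚ) =
            padicValRat p (a : ℚ) + padicValRat p (b : ℚ) := fun a b => by
          rw [Units.val_mul, padicValRat.mul a.ne_zero b.ne_zero]
        let ψ : Additive ℚˣ →+ ℤ := AddMonoidHom.mk' (fun a => padicValRat p (a.toMul : ℚ))
          (fun a b => hadd a.toMul b.toMul)
        have h7 : ψ (Additive.ofMul (∏ J, q J ^ (dm F J).det)) =
            ∑ J, ψ (Additive.ofMul (q J ^ (dm F J).det)) := by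
          rw [ofMul_prod, map_sum]
        have h8 : ∀ J, ψ (Additive.ofMul (q J ^ (dm F J).det)) =
            padicValRat p (q J : ℚ) * (dm F J).det := fun J => by
          rw [ofMul_zpow, map_zsmul, smul_eq_mul, mul_comm]
          rfl
        rw [Finset.sum_congr rfl fun J _ => h8 J] at h7
        exact h7
      rw [h6, h5]
    show 2 • ∑ J, (dm F J).det • cc J = 0
    rw [e3, ← ofMul_pow, ← map_pow]
    have h12 : qF ^ 2 = 1 := by
      rcases hq1 with h | h <;> rw [h] <;> norm_num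
    rw [h12, map_one, ofMul_one]
  rw [e2] at hk
  have h13 : (QuotientAddGroup.mk' (Tor (m + 2) (A.CoordRing N)))
      (∑ J, symb (Fin.cons (P4a177w.cs (A.CoordRing N) (q J)) (fun b => lu A N (J b)))) = 0 := by
    rw [e1]
    exact S.tf _ _ (Nat.mul_pos (Nat.factorial_pos _) (pow_pos (Nat.succ_pos _) _)) hk
  exact h13

theorem spans_abs (hA : GP A) {M G V : Type*} [AddCommGroup M] [AddCommGroup G] [AddCommGroup V]
    (π : M →+ G) (f : V [⋀^Fin (m + 2)]→ₗ[ℤ] G) (C : AddSubgroup V) (l : Fin (D + 1) → V)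
    (k : ℕ) (η : M) (ξ : A.Idx → M) (z : A.Idx → Fin (m + 2) → V) (hHH : k • π η ∈ HH f C l)
    (hz : ∀ B : A.Idx, π (ξ B) = f (z B))
    (hξ : ∀ B : A.Idx, f (z B) - f (fun i => l (B.1 i) - l 0) ∈ H2 f C l) :
    ∃ (ν : A.Idx → ℤ) (c : (Fin (m + 1) → Fin (D + 1)) → V), (∀ J, c J ∈ C) ∧
      π (k • η - ∑ B, ν B • ξ B) = ∑ J, f (Fin.cons (c J) (fun a => l (J a))) := by
  obtain ⟨ν, hν⟩ := explicit1 f C l hHH
  rw [sum_idx A hA] at hν
  have h1 : k • π η - ∑ B : A.Idx, ν B.1 • π (ξ B) ∈ H2 f C l := by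
    have e : k • π η - ∑ B : A.Idx, ν B.1 • π (ξ B) =
        (k • π η - ∑ B : A.Idx, ν B.1 • f (fun i => l (B.1 i) - l 0)) -
        ∑ B : A.Idx, ν B.1 • (π (ξ B) - f (fun i => l (B.1 i) - l 0)) := by
      simp only [smul_sub, Finset.sum_sub_distrib]
      abel
    rw [e]
    refine sub_mem hν (sum_mem fun B _ => AddSubgroup.zsmul_mem _ ?_ _)
    rw [hz]
    exact hξ B
  obtain ⟨c, hc, h2⟩ := explicit2 f C l h1
  refine ⟨fun B => ν B.1, c, hc, ?_⟩
  rw [← h2, map_sub, map_nsmul, map_sum]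
  simp only [map_zsmul]

theorem T_zero {M M' : Type*} [AddCommGroup M] [AddCommGroup M'] (g : M →+ M') (T : M' →+ ℤ)
    (η ζ : M) {ι : Type*} [Fintype ι] (ν : ι → ℤ) (ξ : ι → M) (k : ℕ) (h1 : T (g η) = 0)
    (h2 : ∀ B, T (g (ξ B)) = 0)
    (h3 : ∃ k' : ℕ, 0 < k' ∧ k' • g (k • η - ∑ B, ν B • ξ B - ζ) = 0) : T (g ζ) = 0 := by
  obtain ⟨k', hk, hk'⟩ := h3
  have h5 := congrArg T hk'
  rw [map_nsmul, map_zero, nsmul_eq_mul, mul_eq_zero] at h5
  rcases h5 with h5 | h5
  · exact absurd (by exact_mod_cast h5) hk.ne'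
  · rw [map_sub, map_sub, map_sub, map_sub, map_nsmul, map_nsmul, h1, smul_zero, map_sum,
      map_sum, Finset.sum_eq_zero, zero_sub, neg_zero, zero_sub, neg_eq_zero] at h5
    · exact h5
    · intro B _
      rw [map_zsmul, map_zsmul, h2, smul_zero]

theorem spans (hA : GP A) (hN : 1 ≤ N) (η : MilnorK (m + 2) (A.CoordRing N))
    (hη : P4a177w.UnramifiedOverQ η) :
    ∃ c : A.Idx → ℤ, (((D + 1) ^ 2) ^ (m + 2)) • η - ∑ B, c B • A.xi N B ∈
      Tor (m + 2) (A.CoordRing N) := by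
  obtain ⟨S, hS⟩ := exists_uni (m + 2) (A.CoordRing N)
  have hHH := in_HH A N hA hN (QuotientAddGroup.mk' (Tor (m + 2) (A.CoordRing N))) S hS η
  generalize ((D + 1) ^ 2) ^ (m + 2) = k at hHH ⊢
  obtain ⟨z, hz⟩ : ∃ z : A.Idx → Fin (m + 2) → Additive (A.CoordRing N)ˣ,
      ∀ B, z B = fun i => Additive.ofMul (Arr.z (A.coord_on N) B i) := ⟨_, fun _ => rfl⟩
  have hz1 : ∀ B : A.Idx, QuotientAddGroup.mk' (Tor (m + 2) (A.CoordRing N)) (A.xi N B) =
      S.f (z B) := fun B => by
    rw [hz, hS]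
    rfl
  have hz2 : ∀ B : A.Idx, S.f (z B) -
      S.f (fun i => Additive.ofMul (lu A N (B.1 i)) - Additive.ofMul (lu A N 0)) ∈
      H2 S.f (CC (A.CoordRing N)) (fun k => Additive.ofMul (lu A N k)) := fun B => by
    rw [hz]
    exact xi_sub A hA N S (fun v i j hij hi hj => const_const S v i j hij hi hj) B
  have hX := spans_abs A hA (QuotientAddGroup.mk' (Tor (m + 2) (A.CoordRing N))) S.f
    (CC (A.CoordRing N)) (fun k => Additive.ofMul (lu A N k)) k η (fun B => A.xi N B) z
  refine Exists.elim (hX hHH hz1 hz2) fun ν hν => ?_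
  refine Exists.elim hν fun c hcc => ?_
  refine And.elim (fun hc h2 => ?_) hcc
  choose q hq using hc
  have e3 : QuotientAddGroup.mk' (Tor (m + 2) (A.CoordRing N)) (∑ J, symb (Fin.cons
      (P4a177w.cs (A.CoordRing N) (q J).toMul) (fun b => lu A N (J b)))) =
      ∑ J, S.f (Fin.cons (c J) (fun a => Additive.ofMul (lu A N (J a)))) := by
    rw [map_sum]
    refine Finset.sum_congr rfl fun J _ => ?_
    have h := hS (Fin.cons (P4a177w.cs (A.CoordRing N) (q J).toMul) (fun b => lu A N (J b)))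
    rw [ofMul_cons] at h
    have h' : Additive.ofMul (P4a177w.cs (A.CoordRing N) (q J).toMul) = c J := hq J
    rw [h'] at h
    exact h.symm
  have h3 : k • η - ∑ B : A.Idx, ν B • A.xi N B -
      ∑ J, symb (Fin.cons (P4a177w.cs (A.CoordRing N) (q J).toMul) (fun b => lu A N (J b))) ∈
      Tor (m + 2) (A.CoordRing N) := by
    rw [← QuotientAddGroup.eq_zero_iff]
    have e : QuotientAddGroup.mk' (Tor (m + 2) (A.CoordRing N))
        (k • η - ∑ B : A.Idx, ν B • A.xi N B -
      ∑ J, symb (Fin.cons (P4a177w.cs (A.CoordRing N) (q J).toMul) (fun b => lu A N (J b)))) =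
        0 := by
      rw [map_sub, e3, h2, sub_self]
    exact e
  have h4 : ∑ J, symb (Fin.cons (P4a177w.cs (A.CoordRing N) (q J).toMul) (fun b => lu A N (J b)))
      ∈ Tor (m + 2) (A.CoordRing N) := by
    refine kill_zeta A N hA hN hS (fun J => (q J).toMul) ?_
    intro K _ _ _ v T hv hT
    exact T_zero (map (algebraMap (A.CoordRing N) K)) T η _ ν (fun B => A.xi N B)
      k (hT _ (hη K v hv)) (fun B => hT _ (xi_over A hA N hN B K v hv))
      (map_tor (algebraMap (A.CoordRing N) K) h3)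
  refine ⟨ν, ?_⟩
  have h5 := add_mem h3 h4
  rw [sub_add_cancel] at h5
  exact h5

/-- The unramified elements of `K_n` of the coordinate ring: after multiplication by `D ^ (2 n)`
(`D + 1` is the number of the forms here) their regulators are the regulators of an integral
combination of the `ξ_B`, and in `K_n` of the function field they are equal to this combination up
to torsion. -/
theorem unramified_span (hA : GP A) (hN : 1 ≤ N) (η : MilnorK (m + 2) (A.CoordRing N))
    (hη : P4a177w.UnramifiedOverQ η) :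
    ∃ c : A.Idx → ℤ,
      (∀ γ : Torus (m + 1) (A.CoordRing N),
        ((((D + 1) ^ 2) ^ (m + 2) : ℕ) : ℝ) * reg γ η = ∑ B, (c B : ℝ) * reg γ (A.xi N B)) ∧
      ∀ (K : Type) [Field K] [Algebra (A.CoordRing N) K] [IsFractionRing (A.CoordRing N) K],
        ∃ k : ℕ, 0 < k ∧ k • ((((D + 1) ^ 2) ^ (m + 2)) •
          map (algebraMap (A.CoordRing N) K) η -
          ∑ B, c B • map (algebraMap (A.CoordRing N) K) (A.xi N B)) = 0 := by
  obtain ⟨c, hc⟩ := spans A N hA hN η hη
  refine ⟨c, fun γ => ?_, fun K _ _ _ => ?_⟩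
  · have h := reg_tor γ hc
    rw [map_sub, map_nsmul, map_sum, sub_eq_zero, nsmul_eq_mul] at h
    simp only [map_zsmul, zsmul_eq_mul] at h
    exact h
  · obtain ⟨k, hk, h⟩ := map_tor (algebraMap (A.CoordRing N) K) hc
    refine ⟨k, hk, ?_⟩
    rw [map_sub, map_nsmul, map_sum] at h
    simp only [map_zsmul] at h
    exact h

end P4a177x
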