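import Pool.Agent.Lib.P4a177x.Defs

/-!
# MODULE P4a177x.XiX: the elements `ξ_B` in general position

PROOFS. `idx`: for `B` with `B i ≠ 0` for all `i`: `A.lam B ≠ 0` by `hA` (`B` is injective), and `k = 0 < B i` with `lam (update B i 0) ≠ 0` because `update B i 0` is injective (`0` is not a
value of `B`). `idx_ne`: if `B i = 0` for some `i`, the condition `∃ k < B i` is impossible. `f_zero`: `Arr.f B i` is the smallest index `k` with `lam (update B i k) ≠ 0`
(`Arr.f_le` with `k = 0`), so it is `0`. `xi_sub`: `Arr.z h B i = intUnit (..) * L (B i) / (intUnit (..) * L (f B i))`, so in the additively written group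
`ofMul (Arr.z .. i) = c_i + (ofMul (lu (B i)) - ofMul (lu 0))` with `c_i ∈ CC R` (`intUnit` is in the range of `cs`). Expand `S.f` (multilinear, `const_const`-type
hypothesis `hC`: zero if two entries are in `CC`): the difference is the sum over `i` of the values with `c_i` at the index `i` and `l_{B j} - l_0` at the other indices
(plus terms with two constants, zero); move `c_i` to the index `0` (sign) and expand the other entries: it is in `H2`, the subgroup generated by the `S.f (Fin.cons c (l ∘ J))`.
Useful general lemma (induction over the number of entries): if `w i - w' i ∈ CC R` for all `i`, and all `w' i` are integral combinations of the `l k`, then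
`S.f w - S.f w' ∈ H2`.
-/

set_option autoImplicit false

namespace P4a177x

open P4a177h P4a177s Function

namespace XiXAux

section

variable {V G : Type*} [AddCommGroup V] [AddCommGroup G]

/-- the values of a multilinear map on the subgroup generated by a set -/
theorem mem_of_closure {m : ℕ} (g : MultilinearMap ℤ (fun _ : Fin m => V) G) (S : Set V)
    (H : AddSubgroup G) (h : ∀ v : Fin m → V, (∀ a, v a ∈ S) → g v ∈ H) (s : Finset (Fin m)) :
    ∀ v : Fin m → V, (∀ a ∈ s, v a ∈ AddSubgroup.closure S) → (∀ a ∉ s, v a ∈ S) → g v ∈ H := by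
  classical
  induction s using Finset.induction_on with
  | empty => exact fun v _ hv => h v fun a => hv a (Finset.notMem_empty a)
  | insert a s ha ih =>
    intro v hv hv'
    have key : ∀ x ∈ AddSubgroup.closure S, g (Function.update v a x) ∈ H := by
      intro x hx
      refine AddSubgroup.closure_induction (p := fun x _ => g (Function.update v a x) ∈ H)
        ?_ ?_ ?_ ?_ hx
      · intro x hx
        refine ih _ (fun b hb => ?_) (fun b hb => ?_)
        · have hne : b ≠ a := fun hba => ha (hba ▸ hb)
          rw [Function.update_of_ne hne]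
          exact hv b (Finset.mem_insert_of_mem hb)
        · by_cases hba : b = a
          · subst hba
            rwa [Function.update_self]
          · rw [Function.update_of_ne hba]
            exact hv' b fun hb' => (Finset.mem_insert.1 hb').elim hba hb
      · rw [MultilinearMap.map_update_zero]
        exact zero_mem _
      · intro x y _ _ h1 h2
        rw [MultilinearMap.map_update_add]
        exact add_mem h1 h2
      · intro x _ h1
        rw [MultilinearMap.map_update_neg]
        exact neg_mem h1
    have h1 := key (v a) (hv a (Finset.mem_insert_self a s))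
    rwa [Function.update_eq_self] at h1

variable {m D : ℕ} (f : V [⋀^Fin (m + 1)]→ₗ[ℤ] G) (C : AddSubgroup V) (l : Fin (D + 1) → V)
  (hC : ∀ (v : Fin (m + 1) → V) (i j : Fin (m + 1)), i ≠ j → v i ∈ C → v j ∈ C → f v = 0)

include hC

/-- a constant at the first place -/
theorem cons_mem {c : V} (hc : c ∈ C) (v : Fin m → V)
    (hv : ∀ a, v a ∈ AddSubgroup.closure (Set.range l ∪ C)) : f (Fin.cons c v) ∈ H2 f C l := by
  have h1 := mem_of_closure (f.toMultilinearMap.curryLeft c) (Set.range l ∪ C) (H2 f C l) ?_
    Finset.univ v (fun a _ => hv a) (fun a ha => absurd (Finset.mem_univ a) ha)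
  · exact h1
  · intro u hu
    show f (Fin.cons c u) ∈ H2 f C l
    by_cases h : ∃ a, u a ∈ C
    · obtain ⟨a, ha⟩ := h
      have h2 : f (Fin.cons c u) = 0 :=
        hC _ 0 a.succ (Fin.succ_ne_zero a).symm (by rwa [Fin.cons_zero]) (by rwa [Fin.cons_succ])
      rw [h2]
      exact zero_mem _
    · have h2 : ∀ a, ∃ k, l k = u a := fun a => (hu a).resolve_right fun h' => h ⟨a, h'⟩
      choose J hJ using h2
      refine AddSubgroup.subset_closure ⟨c, J, hc, ?_⟩
      congr 2
      funext a
      exact (hJ a).symm

/-- a constant at some place -/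
theorem at_mem (u : Fin (m + 1) → V) (i : Fin (m + 1)) (hi : u i ∈ C)
    (hu : ∀ j, u j ∈ AddSubgroup.closure (Set.range l ∪ C)) : f u ∈ H2 f C l := by
  have h1 : f (u ∘ Equiv.swap 0 i) ∈ H2 f C l := by
    have h2 : u ∘ Equiv.swap 0 i = Fin.cons (u i) fun a => u (Equiv.swap 0 i a.succ) := by
      funext j
      refine Fin.cases ?_ (fun a => ?_) j
      · simp
      · simp
    rw [h2]
    exact cons_mem f C l hC hi _ fun a => hu _
  rw [AlternatingMap.map_perm] at h1
  rcases Int.units_eq_one_or (Equiv.Perm.sign (Equiv.swap 0 i)) with h | h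
  · rwa [h, one_smul] at h1
  · rw [h, Units.neg_smul, one_smul] at h1
    exact neg_mem_iff.1 h1

/-- entries which differ by constants -/
theorem sub_mem_H2 (w w' : Fin (m + 1) → V) (h : ∀ i, w i - w' i ∈ C)
    (hw : ∀ i, w' i ∈ AddSubgroup.closure (Set.range l)) : f w - f w' ∈ H2 f C l := by
  classical
  have hw1 : ∀ i, w' i ∈ AddSubgroup.closure (Set.range l ∪ C) := fun i =>
    AddSubgroup.closure_mono Set.subset_union_left (hw i)
  have hCW : ∀ c ∈ C, c ∈ AddSubgroup.closure (Set.range l ∪ (C : Set V)) := fun c hc =>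
    AddSubgroup.subset_closure (Or.inr hc)
  have hw2 : ∀ i, w i ∈ AddSubgroup.closure (Set.range l ∪ (C : Set V)) := fun i => by
    have h1 := add_mem (hCW _ (h i)) (hw1 i)
    rwa [sub_add_cancel] at h1
  have key : ∀ s : Finset (Fin (m + 1)), f (s.piecewise w w') - f w' ∈ H2 f C l := by
    intro s
    induction s using Finset.induction_on with
    | empty =>
      rw [Finset.piecewise_empty, sub_self]
      exact zero_mem _
    | insert a s ha ih =>
      rw [Finset.piecewise_insert]
      have h1 : f (Function.update (s.piecewise w w') a (w a)) =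
          f (Function.update (s.piecewise w w') a (w a - w' a)) + f (s.piecewise w w') := by
        have h2 : Function.update (s.piecewise w w') a (w' a) = s.piecewise w w' := by
          have h3 : s.piecewise w w' a = w' a := Finset.piecewise_eq_of_notMem s w w' ha
          rw [← h3, Function.update_eq_self]
        conv_rhs => rw [← h2]
        rw [Function.update_idem]
        rw [← AlternatingMap.map_update_add, sub_add_cancel]
      rw [h1, add_sub_assoc]
      refine add_mem (at_mem f C l hC _ a ?_ fun j => ?_) ih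
      · rw [Function.update_self]
        exact h a
      · by_cases hja : j = a
        · subst hja
          rw [Function.update_self]
          exact hCW _ (h j)
        · rw [Function.update_of_ne hja]
          by_cases hj : j ∈ s
          · rw [Finset.piecewise_eq_of_mem s w w' hj]
            exact hw2 j
          · rw [Finset.piecewise_eq_of_notMem s w w' hj]
            exact hw1 j
  have h1 := key Finset.univ
  rwa [Finset.piecewise_univ] at h1

end

/-- exchange of a value -/
theorem update_inj {m D : ℕ} {B : Fin (m + 1) → Fin (D + 1)} (hB : Injective B)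
    (h0 : ∀ i, B i ≠ 0) (i : Fin (m + 1)) : Injective (Function.update B i 0) := by
  intro a b hab
  by_cases ha : a = i <;> by_cases hb : b = i
  · rw [ha, hb]
  · subst ha
    rw [Function.update_self, Function.update_of_ne hb] at hab
    exact absurd hab.symm (h0 b)
  · subst hb
    rw [Function.update_self, Function.update_of_ne ha] at hab
    exact absurd hab (h0 a)
  · rw [Function.update_of_ne ha, Function.update_of_ne hb] at hab
    exact hB hab

/-- the general form of `xi_sub` -/
theorem gen {m D : ℕ} {R : Type} [CommRing R] [Algebra ℚ R] {G : Type*} [AddCommGroup G]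
    (S : Alt R (m + 1) G)
    (hC : ∀ (v : Fin (m + 1) → Additive Rˣ) (i j : Fin (m + 1)), i ≠ j →
      v i ∈ CC R → v j ∈ CC R → S.f v = 0) (l : Fin (D + 1) → Rˣ) (z : Fin (m + 1) → Rˣ)
    (B : Fin (m + 1) → Fin (D + 1))
    (hz : ∀ i, ∃ q q' : ℚˣ, z i = (P4a177w.cs R q * l (B i)) / (P4a177w.cs R q' * l 0)) :
    S.f (fun i => Additive.ofMul (z i)) -
      S.f (fun i => Additive.ofMul (l (B i)) - Additive.ofMul (l 0)) ∈
      H2 S.f (CC R) (fun k => Additive.ofMul (l k)) := by
  refine sub_mem_H2 S.f (CC R) (fun k => Additive.ofMul (l k)) hC _ _ (fun i => ?_) (fun i => ?_)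
  · obtain ⟨q, q', h⟩ := hz i
    have h1 : ∀ q : ℚˣ, Additive.ofMul (P4a177w.cs R q) ∈ CC R := fun q =>
      ⟨Additive.ofMul q, rfl⟩
    have h2 : Additive.ofMul (z i) - (Additive.ofMul (l (B i)) - Additive.ofMul (l 0)) =
        Additive.ofMul (P4a177w.cs R q) - Additive.ofMul (P4a177w.cs R q') := by
      rw [h, ofMul_div, ofMul_mul, ofMul_mul]
      abel
    rw [h2]
    exact sub_mem (h1 _) (h1 _)
  · exact sub_mem (AddSubgroup.subset_closure ⟨B i, rfl⟩) (AddSubgroup.subset_closure ⟨0, rfl⟩)

end XiXAux

variable {m D : ℕ} (A : Arr (m + 1) (D + 1))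

theorem idx (hA : GP A) (B : Fin (m + 1) ↪o Fin (D + 1)) (hB : ∀ i, B i ≠ 0) :
    A.lam B ≠ 0 ∧ ∀ i, ∃ k < B i, A.lam (Function.update B i k) ≠ 0 := by
  exact ⟨hA B B.injective, fun i => ⟨0, Fin.pos_iff_ne_zero.mpr (hB i),
    hA _ (XiXAux.update_inj B.injective hB i)⟩⟩

theorem idx_ne (B : A.Idx) (i : Fin (m + 1)) : B.1 i ≠ 0 := by
  intro h
  obtain ⟨k, hk, _⟩ := B.2.2 i
  rw [h] at hk
  exact absurd hk (Fin.not_lt_zero k)

theorem f_zero (hA : GP A) (B : A.Idx) (i : Fin (m + 1)) : Arr.f B i = 0 := by
  have h1 := Arr.f_le B i 0 (hA _ (XiXAux.update_inj B.1.injective (idx_ne A B) i))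
  exact le_antisymm h1 (Fin.zero_le _)

theorem xi_sub (hA : GP A) (N : ℕ) {G : Type*} [AddCommGroup G]
    (S : Alt (A.CoordRing N) (m + 1) G)
    (hC : ∀ (v : Fin (m + 1) → Additive (A.CoordRing N)ˣ) (i j : Fin (m + 1)), i ≠ j →
      v i ∈ CC (A.CoordRing N) → v j ∈ CC (A.CoordRing N) → S.f v = 0) (B : A.Idx) :
    S.f (fun i => Additive.ofMul (Arr.z (A.coord_on N) B i)) -
      S.f (fun i => Additive.ofMul (lu A N (B.1 i)) - Additive.ofMul (lu A N 0)) ∈
      H2 S.f (CC (A.CoordRing N)) (fun k => Additive.ofMul (lu A N k)) := by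
  refine XiXAux.gen S hC (lu A N) (Arr.z (A.coord_on N) B) B.1 fun i => ?_
  refine ⟨Units.mk0 ((-A.lam (Function.update B.1 i (Arr.f B i)) : ℤ) : ℚ)
    (Int.cast_ne_zero.2 (neg_ne_zero.2 (Arr.f_spec B i))),
    Units.mk0 ((A.lam B.1 : ℤ) : ℚ) (Int.cast_ne_zero.2 B.2.1), ?_⟩
  have h3 : Arr.L (A.coord_on N) (Arr.f B i) = lu A N 0 := by rw [f_zero A hA B i]
  rw [← h3]
  rfl

end P4a177x
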