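import Pool.Agent.Lib.P4a177x.MainX
import Pool.Agent.Lib.P4a177u.Span
import Pool.Agent.Lib.P4a177s.Card

/-!
# The final statement on the arrangements
-/

set_option autoImplicit false

namespace P4a177x

open P4a177h P4a177s Function
open scoped Real

theorem spannedBy_of_tor {m : ℕ} {R ι : Type} [CommRing R] [Fintype ι]
    {ξ : ι → MilnorK (m + 1) R} {M : ℕ} {h : MilnorK (m + 1) R}
    (hc : ∃ c : ι → ℤ, M • h - ∑ i, c i • ξ i ∈ Tor (m + 1) R) : P4a177u.SpannedBy ξ M h := by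
  obtain ⟨c, hc⟩ := hc
  exact ⟨c, fun K _ _ _ => P4a177u.isOfFinAddOrder_of (map_tor (algebraMap R K) hc),
    fun γ => reg_tor γ hc⟩

theorem spannedBy {m D : ℕ} (A : Arr (m + 2) (D + 1)) (hA : GP A) {N : ℕ} (hN : 1 ≤ N)
    {η : MilnorK (m + 2) (A.CoordRing N)} (hη : P4a177w.UnramifiedOverQ η) :
    P4a177u.SpannedBy (A.xi N) (((D + 1) ^ 2) ^ (m + 2)) η :=
  spannedBy_of_tor (spans A N hA hN η hη)

/-- Every element which is unramified over `ℚ` is, after multiplication by `D ^ (2 n)`, an integral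
combination of the `ξ_B`, up to a negligible element. -/
theorem spannedBy' {m D : ℕ} (A : Arr (m + 2) D)
    (hA : ∀ p : Fin (m + 2) → Fin D, Injective p → A.lam p ≠ 0) {N : ℕ} (hN : 1 ≤ N)
    {η : MilnorK (m + 2) (A.CoordRing N)} (hη : P4a177w.UnramifiedOverQ η) :
    P4a177u.SpannedBy (A.xi N) ((D ^ 2) ^ (m + 2)) η := by
  obtain ⟨p₀, hp₀⟩ := A.spans
  obtain ⟨D', rfl⟩ : ∃ D', D = D' + 1 :=
    Nat.exists_eq_succ_of_ne_zero (fun h0 => by subst h0; exact (p₀ 0).elim0)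
  exact spannedBy A hA hN hη

variable {m D : ℕ}

/-- The determinant of the regulators of the `ξ_B` along suitable tori is nonzero and close to a
power of the logarithm. -/
def DetAsymp (A : Arr (m + 1) D) (N : ℕ) (C : ℝ) : Prop :=
  ∃ γ : A.Idx → Torus m (A.CoordRing N), (regulatorMatrix (A.xi N) γ).det ≠ 0 ∧
    |(regulatorMatrix (A.xi N) γ).det /
      (-((2 * π) ^ m * Real.log N)) ^ Fintype.card A.Idx - 1| ≤ C / Real.log N

/-- The theorem `P4a177s.main` with the explicit elements. -/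
theorem main_xi (hm : 1 ≤ m) (A : Arr (m + 1) D) : ∃ (N₀ : ℕ) (C : ℝ), ∀ N : ℕ, N₀ ≤ N →
    A.Mod ∣ N → A.GeomIrreducible N ∧ A.Smooth N ∧
      (∀ B, Admissible (A.xi N B) ∧ UnramifiedEverywhere (A.xi N B)) ∧ DetAsymp A N C := by
  obtain ⟨N₁, hN₁⟩ := A.smooth (Nat.succ_pos m)
  obtain ⟨N₂, C, hN₂⟩ := A.exists_tori
  obtain ⟨N₃, hN₃⟩ := exists_nat_gt (Real.exp |C|)
  refine ⟨max 1 (max N₁ (max N₂ N₃)), C, fun N hN hMod => ?_⟩
  have h1 : 1 ≤ N := (le_max_left _ _).trans hN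
  have h2 : N₁ ≤ N := ((le_max_left _ _).trans (le_max_right _ _)).trans hN
  have h3 : N₂ ≤ N :=
    (((le_max_left _ _).trans (le_max_right _ _)).trans (le_max_right _ _)).trans hN
  have h4 : N₃ ≤ N :=
    (((le_max_right _ _).trans (le_max_right _ _)).trans (le_max_right _ _)).trans hN
  have h5 : |C| < Real.log N := by
    have h6 : Real.exp |C| < N := hN₃.trans_le (by exact_mod_cast h4)
    rw [Real.lt_log_iff_exp_lt (lt_trans (Real.exp_pos _) h6)]
    exact h6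
  refine ⟨A.irreducible_map (by omega) N h1, hN₁ N h2, fun B => ⟨A.admissible_xi hMod B,
    fun K _ _ _ v => A.unramified_xi hMod B _ v⟩, ?_⟩
  obtain ⟨γ, hγ⟩ := hN₂ N h3
  refine ⟨γ, ?_, hγ⟩
  intro h0
  unfold regulatorMatrix at h0
  rw [h0, zero_div, zero_sub, abs_neg, abs_one, le_div_iff₀ (lt_of_le_of_lt (abs_nonneg C) h5),
    one_mul] at hγ
  exact absurd (hγ.trans (le_abs_self C)) (not_le.2 h5)

/-- The geometric part holds for every `N ≥ 1`. -/
theorem irreducible_all (hm : 1 ≤ m) (A : Arr (m + 1) D) {N : ℕ} (hN : 1 ≤ N) :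
    A.GeomIrreducible N := A.irreducible_map (by omega) N hN

/-- **The final statement.** -/
theorem final (A : Arr (m + 2) D) :
    (∃ (N₀ : ℕ) (C : ℝ), ∀ N : ℕ, N₀ ≤ N → A.Mod ∣ N → A.GeomIrreducible N ∧ A.Smooth N ∧
      (∀ B, Admissible (A.xi N B) ∧ UnramifiedEverywhere (A.xi N B)) ∧ DetAsymp A N C) ∧
    ((∀ p : Fin (m + 2) → Fin D, Injective p → A.lam p ≠ 0) →
      Fintype.card A.Idx = (D - 1).choose (m + 2) ∧
      ∀ (N : ℕ) (η : MilnorK (m + 2) (A.CoordRing N)), 1 ≤ N → P4a177w.UnramifiedOverQ η →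
        P4a177u.SpannedBy (A.xi N) ((D ^ 2) ^ (m + 2)) η) :=
  ⟨main_xi (by omega) A, fun hA => ⟨A.card_idx (by omega) hA,
    fun _ _ hN hη => spannedBy' A hA hN hη⟩⟩

end P4a177x
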