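import Pool.Agent.Lib.P4a177s.Main
import Pool.Agent.Lib.P4a177w.Defs

/-!
# The symbol part of `K_n` of the hypersurfaces `N * l_1 * … * l_D = 1`: definitions
-/

set_option autoImplicit false

namespace P4a177x

open P4a177h P4a177s Function MvPolynomial

noncomputable section

/-! ### Torsion in the Milnor K-group -/

/-- The subgroup of `K_n(R)` generated by the symbols `{…, u, -u, …}` (they vanish in the K-groups of a
field). -/
def negSub (n : ℕ) (R : Type*) [CommRing R] : AddSubgroup (MilnorK n R) :=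
  AddSubgroup.closure
    {x | ∃ (a : Fin n → Rˣ) (i j : Fin n), (i : ℕ) + 1 = j ∧ a j = -a i ∧ x = symb a}

/-- The elements of `K_n(R)` a positive multiple of which is a sum of symbols `± {…, u, -u, …}`. -/
def Tor (n : ℕ) (R : Type*) [CommRing R] : AddSubgroup (MilnorK n R) where
  carrier := {x | ∃ k : ℕ, 0 < k ∧ k • x ∈ negSub n R}
  zero_mem' := ⟨1, one_pos, by rw [smul_zero]; exact zero_mem _⟩
  add_mem' := by
    rintro x y ⟨k, hk, hx⟩ ⟨l, hl, hy⟩
    refine ⟨k * l, Nat.mul_pos hk hl, ?_⟩
    have e : (k * l) • (x + y) = l • (k • x) + k • (l • y) := by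
      rw [nsmul_add, mul_comm k l, mul_nsmul' x, mul_comm l k, mul_nsmul' y]
    rw [e]
    exact add_mem (AddSubgroup.nsmul_mem _ hx _) (AddSubgroup.nsmul_mem _ hy _)
  neg_mem' := by
    rintro x ⟨k, hk, hx⟩
    refine ⟨k, hk, ?_⟩
    have e : k • (-x) = -(k • x) := neg_nsmul x k
    rw [e]
    exact neg_mem hx

/-- An alternating symbol on the units of `R` with values in a torsion free group. -/
structure Alt (R : Type*) [CommRing R] (n : ℕ) (G : Type*) [AddCommGroup G] where
  /-- the alternating map -/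
  f : (Additive Rˣ) [⋀^Fin n]→ₗ[ℤ] G
  st : ∀ (a : Fin n → Rˣ) (i j : Fin n), i ≠ j → (a i : R) + (a j : R) = 1 →
    f (fun k => Additive.ofMul (a k)) = 0
  tf : ∀ (k : ℕ) (x : G), 0 < k → k • x = 0 → x = 0

/-- The constants in the (additively written) group of units. -/
def CC (R : Type) [CommRing R] [Algebra ℚ R] : AddSubgroup (Additive Rˣ) :=
  (MonoidHom.toAdditive (P4a177w.cs R)).range

/-! ### Multilinear algebra -/

section Algebra

variable {V G : Type*} [AddCommGroup V] [AddCommGroup G] {m D : ℕ}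
  (f : V [⋀^Fin (m + 1)]→ₗ[ℤ] G) (C : AddSubgroup V) (l : Fin (D + 1) → V)

/-- The subgroup generated by the values `f (l_{B i} - l_0)` and `f (c, l_{J a})`, `c ∈ C`. -/
def HH : AddSubgroup G :=
  AddSubgroup.closure ({x | ∃ B : Fin (m + 1) → Fin (D + 1), x = f (fun i => l (B i) - l 0)} ∪
    {x | ∃ (c : V) (J : Fin m → Fin (D + 1)), c ∈ C ∧ x = f (Fin.cons c (fun a => l (J a)))})

/-- The subgroup generated by the values `f (c, l_{J a})`, `c ∈ C`. -/
def H2 : AddSubgroup G :=
  AddSubgroup.closure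
    {x | ∃ (c : V) (J : Fin m → Fin (D + 1)), c ∈ C ∧ x = f (Fin.cons c (fun a => l (J a)))}

/-- The matrix `(D + 1) δ - 1`. -/
def dm (F J : Fin m → Fin (D + 1)) : Matrix (Fin m) (Fin m) ℤ :=
  Matrix.of fun a b => (if F a = J b then ((D : ℤ) + 1) else 0) - 1

end Algebra

/-! ### Leading terms -/

/-- A leading term on the field `K`: a homomorphism `o` into `ℤ^r` (the order) and a homomorphism `c` into
`ℚˣ` (the leading coefficient), such that `f + g = 1` implies one of the usual relations. -/
structure Lead (K : Type) [Field K] (r : ℕ) where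
  /-- the rational numbers -/
  ι : ℚ →+* K
  /-- the order -/
  o : Additive Kˣ →+ (Fin r → ℤ)
  /-- the leading coefficient -/
  c : Kˣ →* ℚˣ
  rat : ∀ q : ℚˣ, o (Additive.ofMul (Units.map (ι : ℚ →* K) q)) = 0 ∧
    c (Units.map (ι : ℚ →* K) q) = q
  st : ∀ f g : Kˣ, (f : K) + (g : K) = 1 →
    (o (Additive.ofMul f) = 0 ∧ o (Additive.ofMul g) = 0) ∨
    (o (Additive.ofMul g) = 0 ∧ c g = 1) ∨ (o (Additive.ofMul f) = 0 ∧ c f = 1) ∨
    (o (Additive.ofMul f) = o (Additive.ofMul g) ∧ c g = -c f)

/-- The valuation of the field of Laurent series over `L`. -/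
def vls (L : Type) [Field L] : Valuation (LaurentSeries L) (WithZero (Multiplicative ℤ)) := Valued.v

/-! ### The arrangement -/

variable {m D : ℕ}

/-- The linear part of the affine form `l_k`. -/
def lin {n : ℕ} (A : Arr n (D + 1)) (k : Fin (D + 1)) : MvPolynomial (Fin n) ℚ :=
  ∑ j, C (A.a k j : ℚ) * X j

/-- The value of the linear part. -/
def linv {n : ℕ} (A : Arr n (D + 1)) {L : Type} [CommRing L] (k : Fin (D + 1)) (y : Fin n → L) : L :=
  ∑ j, (A.a k j : L) * y j

/-- General position: any `n` of the normals are linearly independent. -/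
def GP {n : ℕ} (A : Arr n (D + 1)) : Prop :=
  ∀ p : Fin n → Fin (D + 1), Injective p → A.lam p ≠ 0

/-- The unit `l_k`. -/
abbrev lu {n : ℕ} (A : Arr n (D + 1)) (N : ℕ) (k : Fin (D + 1)) : (A.CoordRing N)ˣ :=
  Arr.L (A.coord_on N) k

/-- A generic point `y` of the divisor `λ_k = 0`, `k = F 0`, at infinity, with the local coordinates
`z_a = λ_{F (a + 1)}` and `λ_e = 1`, in a field with leading terms. -/
structure Pt (A : Arr (m + 2) (D + 1)) (F : Fin (m + 1) → Fin (D + 1)) where
  /-- the field -/
  L : Type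
  [fieldL : Field L]
  charL : CharZero L
  /-- the leading terms -/
  Λ : Lead L m
  /-- the point -/
  y : Fin (m + 2) → L
  /-- the local coordinates -/
  z : Fin m → Lˣ
  /-- one more hyperplane -/
  e : Fin (D + 1)
  he : ∀ a, F a ≠ e
  /-- the values of the linear forms with index `≠ F 0` -/
  w : Fin (D + 1) → Lˣ
  hk : linv A (F 0) y = 0
  hz : ∀ a, linv A (F (Fin.succ a)) y = z a
  hone : linv A e y = 1
  hw : ∀ i, i ≠ F 0 → linv A i y = w i
  how : ∀ i, i ≠ F 0 → ∀ a, Λ.o (Additive.ofMul (w i)) a = if i = F (Fin.succ a) then 1 else 0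
  indep : ∀ H : MvPolynomial (Fin m) ℚ, H ≠ 0 → eval₂ Λ.ι (fun a => (z a : L)) H ≠ 0

attribute [instance] Pt.fieldL

/-- A place of the hypersurface attached to the flag `F`: the hyperplane at infinity of the closure meets
it in the divisors `λ_k = 0`; `k = F 0` is the first one, and `λ_{F 1}, …, λ_{F m}` are the local
coordinates of a point of the divisor. -/
structure Place (A : Arr (m + 2) (D + 1)) (N : ℕ) (F : Fin (m + 1) → Fin (D + 1)) where
  /-- a field which contains the function field of the divisor -/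
  L : Type
  [fieldL : Field L]
  /-- the leading terms on `L` -/
  Λ : Lead L m
  /-- the expansion of the functions -/
  φ : A.CoordRing N →+* LaurentSeries L
  /-- the power series of the units -/
  U : Fin (D + 1) → PowerSeries L
  /-- their constant coefficients -/
  u : Fin (D + 1) → Lˣ
  hu : ∀ i, PowerSeries.constantCoeff (U i) = u i
  hk : φ (lu A N (F 0)) = HahnSeries.single (D : ℤ) 1 * (U (F 0) : LaurentSeries L)
  hi : ∀ i, i ≠ F 0 → φ (lu A N i) = HahnSeries.single (-1 : ℤ) 1 * (U i : LaurentSeries L)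
  ho : ∀ i a, Λ.o (Additive.ofMul (u i)) a =
    (if i = F (Fin.succ a) then 1 else 0) - (if i = F 0 then 1 else 0)
  inj : Injective φ
  top : ∀ (G : MvPolynomial (Fin (m + 2)) ℚ) (d : ℕ), G.totalDegree ≤ d →
    vls L (φ (Ideal.Quotient.mk _ G)) < WithZero.exp (d : ℤ) →
      lin A (F 0) ∣ homogeneousComponent d G

attribute [instance] Place.fieldL

end

end P4a177x
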