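import Pool.Agent.Lib.P4a177x.Defs

/-!
# Leading terms on Laurent series; fields with flags
-/

set_option autoImplicit false

namespace P4a177x

open P4a177h

/-- the unit `-u` -/
lemma lead_neg {K : Type} [Field K] {r : ℕ} (Λ : Lead K r) (u : Kˣ) :
    Λ.o (Additive.ofMul (-u)) = Λ.o (Additive.ofMul u) ∧ Λ.c (-u) = -Λ.c u := by
  have h := Λ.rat (-1)
  have e1 : Units.map (Λ.ι : ℚ →* K) (-1) = -1 := by
    ext
    simp
  rw [e1] at h
  have e2 : -u = (-1) * u := by rw [neg_mul, one_mul]
  constructor
  · rw [e2, ofMul_mul, map_add, h.1, zero_add]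
  · rw [e2, map_mul, h.2, neg_mul, one_mul]

section Laurent

variable {L : Type} [Field L]

lemma ord_lc {x : LaurentSeries L} {n : ℤ} {u : L} (hu : u ≠ 0) (h0 : x.coeff n = u)
    (h : ∀ k < n, x.coeff k = 0) : x.order = n ∧ x.leadingCoeff = u := by
  have hx : x.coeff n ≠ 0 := by rw [h0]; exact hu
  have hxne : x ≠ 0 := by
    rintro rfl
    exact hx rfl
  have h1 : x.order = n := by
    refine le_antisymm (HahnSeries.order_le_of_coeff_ne_zero hx) ?_
    by_contra hlt
    push Not at hlt
    exact hxne (HahnSeries.coeff_order_eq_zero.1 (h _ hlt))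
  refine ⟨h1, ?_⟩
  rw [HahnSeries.leadingCoeff_eq, h1, h0]

/-- the leading coefficient of a unit -/
noncomputable def lcu : (LaurentSeries L)ˣ →* Lˣ where
  toFun f := Units.mk0 (f : LaurentSeries L).leadingCoeff
    (HahnSeries.leadingCoeff_ne_zero.2 f.ne_zero)
  map_one' := by
    ext
    simp
  map_mul' f g := by
    ext
    simp

lemma lcu_val (f : (LaurentSeries L)ˣ) : (lcu f : L) = (f : LaurentSeries L).leadingCoeff := rfl

/-- the order of a unit -/
noncomputable def ordu : Additive (LaurentSeries L)ˣ →+ ℤ where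
  toFun f := (f.toMul : LaurentSeries L).order
  map_zero' := by
    show ((1 : (LaurentSeries L)ˣ) : LaurentSeries L).order = 0
    simp
  map_add' f g := by
    show ((f.toMul * g.toMul : (LaurentSeries L)ˣ) : LaurentSeries L).order = _
    rw [Units.val_mul, HahnSeries.order_mul f.toMul.ne_zero g.toMul.ne_zero]

lemma ordu_val (f : (LaurentSeries L)ˣ) :
    ordu (Additive.ofMul f) = (f : LaurentSeries L).order := rfl

lemma cons_add {r : ℕ} (a b : ℤ) (x y : Fin r → ℤ) :
    (Fin.cons (a + b) (x + y) : Fin (r + 1) → ℤ) = Fin.cons a x + Fin.cons b y := by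
  funext i
  refine Fin.cases ?_ (fun j => ?_) i
  · simp
  · simp

lemma cons_zero {r : ℕ} : (Fin.cons 0 0 : Fin (r + 1) → ℤ) = 0 := by
  funext i
  refine Fin.cases ?_ (fun j => ?_) i
  · simp
  · simp

/-- the order of a unit of the Laurent series -/
noncomputable def oL {r : ℕ} (Λ : Lead L r) : Additive (LaurentSeries L)ˣ →+ (Fin (r + 1) → ℤ) where
  toFun f := Fin.cons (ordu f) (Λ.o (Additive.ofMul (lcu f.toMul)))
  map_zero' := by
    show (Fin.cons (ordu 0) (Λ.o (Additive.ofMul (lcu (1 : (LaurentSeries L)ˣ)))) :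
      Fin (r + 1) → ℤ) = 0
    rw [map_zero, map_one, ofMul_one, map_zero, cons_zero]
  map_add' f g := by
    show (Fin.cons (ordu (f + g)) (Λ.o (Additive.ofMul (lcu (f.toMul * g.toMul)))) :
      Fin (r + 1) → ℤ) = _
    rw [map_add, map_mul, ofMul_mul, map_add, cons_add]

lemma oL_val {r : ℕ} (Λ : Lead L r) (f : (LaurentSeries L)ˣ) :
    oL Λ (Additive.ofMul f) = Fin.cons (f : LaurentSeries L).order
      (Λ.o (Additive.ofMul (lcu f))) := rfl

lemma lc_of {f g : (LaurentSeries L)ˣ} (h : (f : LaurentSeries L) + (g : LaurentSeries L) = 1)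
    (hf : 0 < (f : LaurentSeries L).order) :
    (g : LaurentSeries L).order = 0 ∧ (g : LaurentSeries L).leadingCoeff = 1 := by
  have hg : ∀ k, (g : LaurentSeries L).coeff k = (1 : LaurentSeries L).coeff k -
      (f : LaurentSeries L).coeff k := by
    intro k
    rw [← h, HahnSeries.coeff_add]
    ring
  refine ord_lc one_ne_zero ?_ fun k hk => ?_
  · rw [hg, HahnSeries.coeff_eq_zero_of_lt_order hf, HahnSeries.coeff_one, if_pos rfl, sub_zero]
  · rw [hg, HahnSeries.coeff_eq_zero_of_lt_order (hk.trans hf), HahnSeries.coeff_one,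
      if_neg hk.ne, sub_zero]

lemma lc_neg {f g : (LaurentSeries L)ˣ} (h : (f : LaurentSeries L) + (g : LaurentSeries L) = 1)
    (hf : (f : LaurentSeries L).order < 0) :
    (g : LaurentSeries L).order = (f : LaurentSeries L).order ∧
      (g : LaurentSeries L).leadingCoeff = -(f : LaurentSeries L).leadingCoeff := by
  have hg : ∀ k < 0, (g : LaurentSeries L).coeff k = - (f : LaurentSeries L).coeff k := by
    intro k hk
    have h1 : (1 : LaurentSeries L).coeff k = 0 := by
      rw [HahnSeries.coeff_one, if_neg hk.ne]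
    rw [← h, HahnSeries.coeff_add] at h1
    exact eq_neg_of_add_eq_zero_right h1
  refine ord_lc (neg_ne_zero.2 (HahnSeries.leadingCoeff_ne_zero.2 f.ne_zero)) ?_ fun k hk => ?_
  · rw [hg _ hf, HahnSeries.leadingCoeff_eq]
  · rw [hg _ (hk.trans hf), HahnSeries.coeff_eq_zero_of_lt_order hk, neg_zero]

/-- **the leading terms on the Laurent series** -/
noncomputable def leadL {r : ℕ} (Λ : Lead L r) : Lead (LaurentSeries L) (r + 1) where
  ι := (HahnSeries.C : L →+* LaurentSeries L).comp Λ.ι
  o := oL Λ
  c := Λ.c.comp lcu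
  rat q := by
    have hq : Λ.ι (q : ℚ) ≠ 0 := (map_ne_zero Λ.ι).2 q.ne_zero
    have e1 : ((Units.map (((HahnSeries.C : L →+* LaurentSeries L).comp Λ.ι : ℚ →+* LaurentSeries L) :
        ℚ →* LaurentSeries L) q : (LaurentSeries L)ˣ) : LaurentSeries L) =
        HahnSeries.single 0 (Λ.ι (q : ℚ)) := rfl
    have e2 : lcu (Units.map (((HahnSeries.C : L →+* LaurentSeries L).comp Λ.ι :
        ℚ →+* LaurentSeries L) : ℚ →* LaurentSeries L) q) = Units.map (Λ.ι : ℚ →* L) q := by
      ext
      rw [lcu_val, e1, HahnSeries.leadingCoeff_of_single]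
      rfl
    constructor
    · rw [oL_val, e2, (Λ.rat q).1, e1, HahnSeries.order_single hq, cons_zero]
    · rw [MonoidHom.comp_apply, e2, (Λ.rat q).2]
  st f g h := by
    have hu : ∀ u : (LaurentSeries L)ˣ, (u : LaurentSeries L).order = 0 →
        (u : LaurentSeries L).leadingCoeff = 1 →
        oL Λ (Additive.ofMul u) = 0 ∧ (Λ.c.comp lcu) u = 1 := by
      intro u h1 h2
      have e2 : lcu u = 1 := by
        ext
        rw [lcu_val, h2, Units.val_one]
      constructor
      · rw [oL_val, e2, h1, ofMul_one, map_zero, cons_zero]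
      · rw [MonoidHom.comp_apply, e2, map_one]
    have hv : ∀ u v : (LaurentSeries L)ˣ, (v : LaurentSeries L).order = (u : LaurentSeries L).order →
        (v : LaurentSeries L).leadingCoeff = -(u : LaurentSeries L).leadingCoeff →
        oL Λ (Additive.ofMul v) = oL Λ (Additive.ofMul u) ∧
          (Λ.c.comp lcu) v = -(Λ.c.comp lcu) u := by
      intro u v h1 h2
      have e2 : lcu v = -lcu u := by
        ext
        rw [lcu_val, h2, Units.val_neg, lcu_val]
      constructor
      · rw [oL_val, oL_val, e2, h1, (lead_neg Λ _).1]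
      · rw [MonoidHom.comp_apply, MonoidHom.comp_apply, e2, (lead_neg Λ _).2]
    have h' : (g : LaurentSeries L) + (f : LaurentSeries L) = 1 := by rw [add_comm]; exact h
    rcases lt_trichotomy (f : LaurentSeries L).order 0 with hf | hf | hf
    · obtain ⟨h1, h2⟩ := lc_neg h hf
      obtain ⟨h3, h4⟩ := hv f g h1 h2
      exact Or.inr (Or.inr (Or.inr ⟨h3.symm, h4⟩))
    · rcases lt_trichotomy (g : LaurentSeries L).order 0 with hg | hg | hg
      · exfalso
        have := (lc_neg h' hg).1
        rw [hf] at this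
        omega
      · have h0 : (lcu f : L) + (lcu g : L) = 1 := by
          rw [lcu_val, lcu_val, HahnSeries.leadingCoeff_eq, HahnSeries.leadingCoeff_eq, hf, hg,
            ← HahnSeries.coeff_add, h, HahnSeries.coeff_one, if_pos rfl]
        have hone : ∀ u : (LaurentSeries L)ˣ, (u : LaurentSeries L).order = 0 →
            Λ.o (Additive.ofMul (lcu u)) = 0 → oL Λ (Additive.ofMul u) = 0 := by
          intro u h1 h2
          rw [oL_val, h1, h2, cons_zero]
        rcases Λ.st (lcu f) (lcu g) h0 with h1 | h1 | h1 | h1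
        · exact Or.inl ⟨hone f hf h1.1, hone g hg h1.2⟩
        · exact Or.inr (Or.inl ⟨hone g hg h1.1, h1.2⟩)
        · exact Or.inr (Or.inr (Or.inl ⟨hone f hf h1.1, h1.2⟩))
        · refine Or.inr (Or.inr (Or.inr ⟨?_, h1.2⟩))
          rw [oL_val, oL_val, hf, hg, h1.1]
      · obtain ⟨h1, h2⟩ := lc_of h' hg
        exact Or.inr (Or.inr (Or.inl (hu f h1 h2)))
    · obtain ⟨h1, h2⟩ := lc_of h hf
      exact Or.inr (Or.inl (hu g h1 h2))

lemma leadL_val {r : ℕ} (Λ : Lead L r) (f : (LaurentSeries L)ˣ) {n : ℤ} {u : Lˣ}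
    (h : (f : LaurentSeries L).order = n ∧ (f : LaurentSeries L).leadingCoeff = u) :
    (leadL Λ).o (Additive.ofMul f) = Fin.cons n (Λ.o (Additive.ofMul u)) ∧
      (leadL Λ).c f = Λ.c u := by
  have e : lcu f = u := by
    ext
    rw [lcu_val, h.2]
  constructor
  · show oL Λ (Additive.ofMul f) = _
    rw [oL_val, e, h.1]
  · show (Λ.c.comp lcu) f = _
    rw [MonoidHom.comp_apply, e]

end Laurent

theorem lead_laurent {L : Type} [Field L] {r : ℕ} (Λ : Lead L r) :
    ∃ Λ' : Lead (LaurentSeries L) (r + 1), ∀ (n : ℤ) (U : PowerSeries L) (u : Lˣ)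
      (f : (LaurentSeries L)ˣ), PowerSeries.constantCoeff U = u →
      (f : LaurentSeries L) = HahnSeries.single n 1 * (U : LaurentSeries L) →
      Λ'.o (Additive.ofMul f) = Fin.cons n (Λ.o (Additive.ofMul u)) ∧ Λ'.c f = Λ.c u := by
  refine ⟨leadL Λ, fun n U u f hU hf => leadL_val Λ f ?_⟩
  have hc : ∀ k : ℤ, (f : LaurentSeries L).coeff (k + n) = (U : LaurentSeries L).coeff k := by
    intro k
    rw [hf, HahnSeries.coeff_single_mul_add, one_mul]
  refine ord_lc u.ne_zero ?_ fun k hk => ?_
  · have := hc 0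
    rw [zero_add] at this
    rw [this, ← hU]
    have h2 := LaurentSeries.coeff_coe_powerSeries U 0
    rw [Nat.cast_zero] at h2
    rw [h2, PowerSeries.coeff_zero_eq_constantCoeff_apply]
  · have := hc (k - n)
    rw [sub_add_cancel] at this
    rw [this, PowerSeries.coeff_coe, if_pos (by omega)]

/-- the leading term on `ℚ` -/
noncomputable def leadQ : Lead ℚ 0 where
  ι := RingHom.id ℚ
  o := 0
  c := MonoidHom.id _
  rat q := ⟨rfl, by
    ext
    rfl⟩
  st f g h := Or.inl ⟨rfl, rfl⟩

lemma coeff_eval₂ {L : Type} [Field L] {S : Type} [CommRing S] (φ : S →+* L) (P : Polynomial S)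
    (i : ℕ) : (Polynomial.eval₂ ((HahnSeries.C : L →+* LaurentSeries L).comp φ)
      (HahnSeries.single (1 : ℤ) (1 : L)) P).coeff (i : ℤ) = φ (P.coeff i) := by
  induction P using Polynomial.induction_on' with
  | add P Q hP hQ => rw [Polynomial.eval₂_add, HahnSeries.coeff_add, hP, hQ, Polynomial.coeff_add,
      map_add]
  | monomial n a =>
    rw [Polynomial.eval₂_monomial, HahnSeries.single_pow, RingHom.comp_apply,
      HahnSeries.C_mul_eq_smul, HahnSeries.coeff_smul, HahnSeries.coeff_single,
      Polynomial.coeff_monomial, one_pow]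
    by_cases h : n = i
    · subst h
      simp
    · have h' : ¬ ((i : ℤ) = n • (1 : ℤ)) := by
        intro h1
        apply h
        simp at h1
        omega
      rw [if_neg h, if_neg h', smul_zero, map_zero]

theorem exists_flag (r : ℕ) :
    ∃ (L : Type) (_ : Field L) (_ : CharZero L) (Λ : Lead L r) (z : Fin r → Lˣ),
      (∀ a, Λ.o (Additive.ofMul (z a)) = Pi.single a 1 ∧ Λ.c (z a) = 1) ∧
      (∀ (q₀ : ℚˣ) (q : Fin r → ℚ), ∃ u : Lˣ,
        (u : L) = Λ.ι q₀ + ∑ a, Λ.ι (q a) * (z a : L) ∧
        Λ.o (Additive.ofMul u) = 0 ∧ Λ.c u = q₀) ∧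
      ∀ H : MvPolynomial (Fin r) ℚ, H ≠ 0 →
        MvPolynomial.eval₂ Λ.ι (fun a => (z a : L)) H ≠ 0 := by
  induction r with
  | zero =>
    refine ⟨ℚ, inferInstance, inferInstance, leadQ, fun a => a.elim0, fun a => a.elim0,
      fun q₀ q => ⟨q₀, ?_, rfl, rfl⟩, fun H hH => ?_⟩
    · rw [Finset.univ_eq_empty, Finset.sum_empty, add_zero]
      rfl
    · rw [MvPolynomial.eq_C_of_isEmpty H, MvPolynomial.eval₂_C]
      intro h0
      apply hH
      rw [MvPolynomial.eq_C_of_isEmpty H]
      have h1 : MvPolynomial.coeff 0 H = 0 := h0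
      rw [h1, map_zero]
  | succ r ih =>
    obtain ⟨L, hF, hC, Λ, z, hz, hgen, hind⟩ := ih
    have hT : (HahnSeries.single (1 : ℤ) (1 : L) : LaurentSeries L) ≠ 0 :=
      HahnSeries.single_ne_zero one_ne_zero
    have hTo := ord_lc (x := (HahnSeries.single (1 : ℤ) (1 : L) : LaurentSeries L)) (n := 1)
      (u := ((1 : Lˣ) : L)) (by simp) (by simp) (fun k hk => by
        rw [HahnSeries.coeff_single_of_ne hk.ne])
    have hCo : ∀ u : Lˣ, ((HahnSeries.C (u : L) : LaurentSeries L)).order = 0 ∧
        ((HahnSeries.C (u : L) : LaurentSeries L)).leadingCoeff = (u : L) := fun u =>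
      ord_lc (x := (HahnSeries.C (u : L) : LaurentSeries L)) (n := 0) u.ne_zero (by simp)
        (fun k hk => by
          rw [HahnSeries.C_apply, HahnSeries.coeff_single_of_ne hk.ne])
    refine ⟨LaurentSeries L, inferInstance,
      charZero_of_injective_ringHom (HahnSeries.C_injective (Γ := ℤ) (R := L)), leadL Λ,
      Fin.cons (Units.mk0 _ hT) (fun a => Units.map ((HahnSeries.C : L →+* LaurentSeries L) :
        L →* LaurentSeries L) (z a)), ?_, ?_, ?_⟩
    · intro a
      refine Fin.cases ?_ (fun b => ?_) a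
      · obtain ⟨h1, h2⟩ := leadL_val Λ (Units.mk0 _ hT) hTo
        rw [Fin.cons_zero, h1, h2]
        refine ⟨?_, map_one _⟩
        rw [ofMul_one, map_zero]
        funext i
        refine Fin.cases ?_ (fun j => ?_) i
        · simp
        · simp
      · obtain ⟨h1, h2⟩ := leadL_val Λ (Units.map ((HahnSeries.C : L →+* LaurentSeries L) :
          L →* LaurentSeries L) (z b)) (hCo (z b))
        rw [Fin.cons_succ, h1, h2, (hz b).1, (hz b).2]
        refine ⟨?_, rfl⟩
        funext i
        refine Fin.cases ?_ (fun j => ?_) i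
        · simp
        · by_cases hjb : j = b
          · subst hjb
            simp
          · rw [Fin.cons_succ, Pi.single_eq_of_ne hjb,
              Pi.single_eq_of_ne (fun h => hjb (Fin.succ_injective _ h))]
    · intro q₀ q
      obtain ⟨u, hu1, hu2, hu3⟩ := hgen q₀ (fun a => q a.succ)
      have hx := ord_lc (x := (HahnSeries.C (u : L) : LaurentSeries L) +
        HahnSeries.C (Λ.ι (q 0)) * HahnSeries.single (1 : ℤ) (1 : L)) (n := 0) (u := (u : L))
        u.ne_zero (by
          rw [HahnSeries.coeff_add, HahnSeries.C_apply, HahnSeries.C_apply,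
            HahnSeries.single_mul_single, HahnSeries.coeff_single_same,
            HahnSeries.coeff_single_of_ne (by omega), add_zero]) (fun k hk => by
          rw [HahnSeries.coeff_add, HahnSeries.C_apply, HahnSeries.C_apply,
            HahnSeries.single_mul_single, HahnSeries.coeff_single_of_ne hk.ne,
            HahnSeries.coeff_single_of_ne (by omega), add_zero])
      have hne : (HahnSeries.C (u : L) : LaurentSeries L) +
          HahnSeries.C (Λ.ι (q 0)) * HahnSeries.single (1 : ℤ) (1 : L) ≠ 0 := by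
        intro h0
        have h1 := hx.2
        rw [h0, HahnSeries.leadingCoeff_zero] at h1
        exact u.ne_zero h1.symm
      obtain ⟨h1, h2⟩ := leadL_val Λ (Units.mk0 _ hne) hx
      refine ⟨Units.mk0 _ hne, ?_, ?_, ?_⟩
      · rw [Units.val_mk0, Fin.sum_univ_succ, hu1, map_add, map_sum]
        simp only [Fin.cons_zero, Fin.cons_succ, Units.val_mk0, map_mul, Units.coe_map]
        show _ = (HahnSeries.C (Λ.ι q₀) : LaurentSeries L) +
          (HahnSeries.C (Λ.ι (q 0)) * HahnSeries.single (1 : ℤ) (1 : L) +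
            ∑ a, HahnSeries.C (Λ.ι (q a.succ)) * HahnSeries.C (z a : L))
        rw [add_assoc, add_comm (∑ a, _)]
      · rw [h1, hu2, cons_zero]
      · rw [h2, hu3]
    · intro H hH
      set P := MvPolynomial.finSuccEquiv ℚ r H with hP
      have hP0 : P ≠ 0 := by
        intro h0
        apply hH
        rw [hP] at h0
        exact (EmbeddingLike.map_eq_zero_iff).1 h0
      obtain ⟨i, hi⟩ : ∃ i, P.coeff i ≠ 0 := by
        by_contra hcon
        push Not at hcon
        exact hP0 (Polynomial.ext fun i => by rw [hcon i, Polynomial.coeff_zero])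
      have key : MvPolynomial.eval₂ (leadL Λ).ι (fun a => ((Fin.cons (Units.mk0 _ hT)
          (fun a => Units.map ((HahnSeries.C : L →+* LaurentSeries L) :
            L →* LaurentSeries L) (z a)) : Fin (r + 1) → (LaurentSeries L)ˣ) a :
              LaurentSeries L)) H =
          Polynomial.eval₂ ((HahnSeries.C : L →+* LaurentSeries L).comp
            (MvPolynomial.eval₂Hom Λ.ι (fun a => (z a : L))))
            (HahnSeries.single (1 : ℤ) (1 : L)) P := by
        have h1 : MvPolynomial.eval₂Hom (leadL Λ).ι (fun a => ((Fin.cons (Units.mk0 _ hT)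
          (fun a => Units.map ((HahnSeries.C : L →+* LaurentSeries L) :
            L →* LaurentSeries L) (z a)) : Fin (r + 1) → (LaurentSeries L)ˣ) a :
              LaurentSeries L)) =
            (Polynomial.eval₂RingHom ((HahnSeries.C : L →+* LaurentSeries L).comp
              (MvPolynomial.eval₂Hom Λ.ι (fun a => (z a : L))))
              (HahnSeries.single (1 : ℤ) (1 : L))).comp
              (MvPolynomial.finSuccEquiv ℚ r : MvPolynomial (Fin (r + 1)) ℚ →+*
                Polynomial (MvPolynomial (Fin r) ℚ)) := by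
          refine MvPolynomial.ringHom_ext (fun a => ?_) (fun j => ?_)
          · rw [MvPolynomial.coe_eval₂Hom, MvPolynomial.eval₂_C]
            simp [MvPolynomial.finSuccEquiv_apply]
          · refine Fin.cases ?_ (fun b => ?_) j
            · simp [MvPolynomial.finSuccEquiv_X_zero]
            · simp [MvPolynomial.finSuccEquiv_X_succ]
        exact congrArg (fun F => F H) h1
      rw [key]
      intro h0
      have h2 := coeff_eval₂ (MvPolynomial.eval₂Hom Λ.ι (fun a => (z a : L))) P i
      rw [h0, HahnSeries.coeff_zero] at h2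
      exact hind _ hi h2.symm

end P4a177x
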