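import Pool.Agent.Lib.P4a177x.Defs

/-!
# MODULE P4a177x.MulX: multilinear algebra modulo constants

PROOFS. `f` is an alternating `ℤ`-multilinear map (Mathlib `AlternatingMap`; lemmas `map_update_add`, `map_update_smul`, `map_sum`,
`map_perm`, `map_eq_zero_of_eq`, `MultilinearMap.map_sum_finset`), zero if two arguments are in `C` (`hC`).
`span_mem`: for `w : V` one has `(D + 1) ^ 2 • w = c + ∑ k, κ k • (l k - l 0)` with `c ∈ C`: by `hg`
`(D + 1) • w = c' + ∑ κ' k • l k`, and `(D + 1) • l k = ∑ j, (l k - l j) + ∑ j, l j` with `∑ j, l j ∈ C` (`hs`) and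
`l k - l j = (l k - l 0) - (l j - l 0)`. So `f` of the `(D + 1) ^ 2 • v i` (which is `((D + 1) ^ 2) ^ (m + 1) • f v`:
`MultilinearMap.map_smul_univ`, or induction) expands into values of `f` on tuples whose entries are `l k - l 0` or in `C`; with two
entries in `C` it is `0`; with exactly one entry `c ∈ C`, at the index `i`: move it to the index `0` (up to sign, `map_perm` with
`Equiv.swap 0 i` or a cycle) and expand the other entries `l k - l 0`: it is in `HH` (second kind of generators); with
no entry in `C` it is a generator of the first kind. A convenient way: prove by induction over `i ≤ m + 1` (number of the entries already of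
the special form), or prove first: `H` contains `f w` for every `w` whose entries are all in `S ∪ C`, `S = {l k - l 0}`, and then
induct with `AddSubgroup.closure_induction` in every entry (the set of the `x : V` with `f (update w i x) ∈ H` is a subgroup).
`explicit2`: `AddSubgroup.closure_induction`: sums and negatives of the explicit form have the explicit form (`c J + c' J`, the map
`c ↦ f (Fin.cons c _)` is additive: `f.map_cons_add` or `map_update_add`); a generator: `c = Pi.single J c` (function that is
`0` at the other `J'`; `f` with a zero entry is `0`). `explicit1`: closure induction; a generator of the second kind is in `H2` (`ν = 0`); of the first kind: if `B` is not injective then `f` is `0` (two equal entries), otherwise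
`B ∘ σ` is strictly increasing for a permutation `σ` (`Tuple.sort`, `OrderEmbedding.ofStrictMono`) and `f.map_perm`.
-/

set_option autoImplicit false

namespace P4a177x

namespace MulXAux

/-- A multilinear map with values in `H` on the tuples from `S` has values in `H` on the tuples from the
closure of `S`. -/
theorem ml_closure {V G ι : Type*} [AddCommGroup V] [AddCommGroup G] [Fintype ι] [DecidableEq ι]
    (g : MultilinearMap ℤ (fun _ : ι => V) G) (S : Set V) (H : AddSubgroup G)
    (h : ∀ t : ι → V, (∀ i, t i ∈ S) → g t ∈ H) (t : ι → V)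
    (ht : ∀ i, t i ∈ AddSubgroup.closure S) : g t ∈ H := by
  have key : ∀ s : Finset ι, ∀ t : ι → V, (∀ i ∈ s, t i ∈ AddSubgroup.closure S) →
      (∀ i, i ∉ s → t i ∈ S) → g t ∈ H := by
    intro s
    induction s using Finset.induction_on with
    | empty => exact fun t _ h2 => h t fun i => h2 i (Finset.notMem_empty i)
    | insert a s ha ih =>
      intro t h1 h2
      have hx : ∀ x ∈ AddSubgroup.closure S, g (Function.update t a x) ∈ H := by
        intro x hx
        induction hx using AddSubgroup.closure_induction with
        | mem x hx =>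
          refine ih _ (fun i hi => ?_) (fun i hi => ?_)
          · have hia : i ≠ a := fun e => ha (e ▸ hi)
            rw [Function.update_of_ne hia]
            exact h1 i (Finset.mem_insert_of_mem hi)
          · by_cases hia : i = a
            · subst hia
              rw [Function.update_self]
              exact hx
            · rw [Function.update_of_ne hia]
              exact h2 i (by simp [hia, hi])
        | zero =>
          rw [g.map_update_zero]
          exact zero_mem _
        | add x y _ _ hx hy =>
          rw [g.map_update_add]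
          exact add_mem hx hy
        | neg x _ hx =>
          rw [g.map_update_neg]
          exact neg_mem hx
      have := hx (t a) (h1 a (Finset.mem_insert_self a s))
      rwa [Function.update_eq_self] at this
  exact key Finset.univ t (fun i _ => ht i) (fun i hi => absurd (Finset.mem_univ i) hi)

end MulXAux

variable {V G : Type*} [AddCommGroup V] [AddCommGroup G] {m D : ℕ}
  (f : V [⋀^Fin (m + 1)]→ₗ[ℤ] G) (C : AddSubgroup V) (l : Fin (D + 1) → V)

namespace MulXAux

/-- The values `f (c, t)` with the entries of `t` in the group generated by the `l k`. -/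
theorem cons_mem {c : V} (hc : c ∈ C) (t : Fin m → V)
    (ht : ∀ a, t a ∈ AddSubgroup.closure (Set.range l)) : f (Fin.cons c t) ∈ HH f C l := by
  have h := ml_closure (f.toMultilinearMap.curryLeft c) (Set.range l) (HH f C l) ?_ t ht
  · exact h
  · intro s hs
    choose J hJ using hs
    have e : s = fun a => l (J a) := funext fun a => (hJ a).symm
    rw [e]
    exact AddSubgroup.subset_closure (Or.inr ⟨c, J, hc, rfl⟩)

/-- The values of `f` on the tuples with entries `l k - l 0` or in `C`. -/
theorem special_mem
    (hC : ∀ (v : Fin (m + 1) → V) (i j : Fin (m + 1)), i ≠ j → v i ∈ C → v j ∈ C → f v = 0)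
    (w : Fin (m + 1) → V) (hw : ∀ i, w i ∈ ((C : Set V) ∪ Set.range fun k => l k - l 0)) :
    f w ∈ HH f C l := by
  classical
  -- the case of an entry in `C` at the index `0`
  have h0 : ∀ w : Fin (m + 1) → V,
      (∀ i, w i ∈ ((C : Set V) ∪ Set.range fun k => l k - l 0)) → w 0 ∈ C → f w ∈ HH f C l := by
    intro w hw hw0
    by_cases hex : ∃ a : Fin m, w a.succ ∈ C
    · obtain ⟨a, ha⟩ := hex
      rw [hC w 0 a.succ (Fin.succ_ne_zero a).symm hw0 ha]
      exact zero_mem _
    · push Not at hex
      have e : w = Fin.cons (w 0) (fun a => w a.succ) := (Fin.cons_self_tail w).symm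
      rw [e]
      refine cons_mem f C l hw0 _ fun a => ?_
      rcases hw a.succ with h | ⟨k, hk⟩
      · exact absurd h (hex a)
      · have hk' : w a.succ = l k - l 0 := hk.symm
        rw [hk']
        exact sub_mem (AddSubgroup.subset_closure ⟨k, rfl⟩) (AddSubgroup.subset_closure ⟨0, rfl⟩)
  by_cases hex : ∃ i, w i ∈ C
  · obtain ⟨i, hi⟩ := hex
    have h1 := h0 (w ∘ Equiv.swap 0 i) (fun j => hw _) (by
      simpa only [Function.comp_apply, Equiv.swap_apply_left] using hi)
    by_cases hi0 : (0 : Fin (m + 1)) = i
    · rw [← hi0, Equiv.swap_self] at h1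
      exact h1
    · rw [f.map_swap w hi0] at h1
      exact neg_mem_iff.mp h1
  · push Not at hex
    have hB : ∀ i, ∃ k, l k - l 0 = w i := fun i => by
      rcases hw i with h | ⟨k, hk⟩
      · exact absurd h (hex i)
      · exact ⟨k, hk⟩
    choose B hB using hB
    have e : w = fun i => l (B i) - l 0 := funext fun i => (hB i).symm
    rw [e]
    exact AddSubgroup.subset_closure (Or.inl ⟨B, rfl⟩)

/-- `(D + 1) ^ 2 • w` is in the group generated by `C` and the `l k - l 0`. -/
theorem smul_mem_closure (hs : ∑ k, l k ∈ C)
    (hg : ∀ w : V, ∃ κ : Fin (D + 1) → ℤ, (D + 1) • w - ∑ k, κ k • l k ∈ C) (w : V) :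
    (D + 1) ^ 2 • w ∈ AddSubgroup.closure ((C : Set V) ∪ Set.range fun k => l k - l 0) := by
  set P := AddSubgroup.closure ((C : Set V) ∪ Set.range fun k => l k - l 0) with hP
  have hCP : ∀ c ∈ C, c ∈ P := fun c hc => AddSubgroup.subset_closure (Or.inl hc)
  have hlP : ∀ k, l k - l 0 ∈ P := fun k => AddSubgroup.subset_closure (Or.inr ⟨k, rfl⟩)
  have hl : ∀ k, (D + 1) • l k ∈ P := by
    intro k
    have e : (D + 1) • l k = ∑ j, ((l k - l 0) - (l j - l 0)) + ∑ j, l j := by
      rw [← Finset.sum_add_distrib]
      have : ∀ j : Fin (D + 1), (l k - l 0) - (l j - l 0) + l j = l k := fun j => by abel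
      simp only [this, Finset.sum_const, Finset.card_univ, Fintype.card_fin]
    rw [e]
    exact add_mem (sum_mem fun j _ => sub_mem (hlP k) (hlP j)) (hCP _ hs)
  obtain ⟨κ, hκ⟩ := hg w
  have e : (D + 1) ^ 2 • w = (D + 1) • ((D + 1) • w - ∑ k, κ k • l k) +
      ∑ k, κ k • ((D + 1) • l k) := by
    have e1 : ∑ k, κ k • ((D + 1) • l k) = (D + 1) • ∑ k, κ k • l k := by
      rw [Finset.smul_sum]
      exact Finset.sum_congr rfl fun k _ => smul_comm _ _ _
    rw [e1, smul_sub, sub_add_cancel, ← mul_smul, sq]
  rw [e]
  refine add_mem (AddSubgroup.nsmul_mem _ (hCP _ hκ) _) (sum_mem fun k _ => ?_)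
  exact AddSubgroup.zsmul_mem _ (hl k) _

end MulXAux

open MulXAux

theorem span_mem
    (hC : ∀ (v : Fin (m + 1) → V) (i j : Fin (m + 1)), i ≠ j → v i ∈ C → v j ∈ C → f v = 0)
    (hs : ∑ k, l k ∈ C)
    (hg : ∀ w : V, ∃ κ : Fin (D + 1) → ℤ, (D + 1) • w - ∑ k, κ k • l k ∈ C)
    (v : Fin (m + 1) → V) : (((D + 1) ^ 2) ^ (m + 1)) • f v ∈ HH f C l := by
  have h := ml_closure f.toMultilinearMap ((C : Set V) ∪ Set.range fun k => l k - l 0) (HH f C l)
    (fun t ht => special_mem f C l hC t ht) (fun i => (D + 1) ^ 2 • v i)
    (fun i => smul_mem_closure C l hs hg (v i))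
  have e : f.toMultilinearMap (fun i => (D + 1) ^ 2 • v i) = (((D + 1) ^ 2) ^ (m + 1)) • f v := by
    have h1 := f.toMultilinearMap.map_smul_univ (fun _ => (((D + 1) ^ 2 : ℕ) : ℤ)) v
    simp only [Finset.prod_const, Finset.card_univ, Fintype.card_fin, natCast_zsmul] at h1
    rw [h1, ← Nat.cast_pow, natCast_zsmul]
    rfl
  rw [← e]
  exact h

theorem explicit1 {x : G} (hx : x ∈ HH f C l) :
    ∃ ν : (Fin (m + 1) ↪o Fin (D + 1)) → ℤ,
      x - ∑ B, ν B • f (fun i => l (B i) - l 0) ∈ H2 f C l := by
  classical
  induction hx using AddSubgroup.closure_induction with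
  | mem x hx =>
    rcases hx with ⟨B, rfl⟩ | ⟨c, J, hc, rfl⟩
    · by_cases hB : Function.Injective B
      · have hmono : StrictMono (B ∘ Tuple.sort B) :=
          (Tuple.monotone_sort B).strictMono_of_injective
            (hB.comp (Tuple.sort B).injective)
        refine ⟨fun B'' => if B'' = OrderEmbedding.ofStrictMono _ hmono then
          ((Equiv.Perm.sign (Tuple.sort B) : ℤˣ) : ℤ) else 0, ?_⟩
        rw [Finset.sum_eq_single (OrderEmbedding.ofStrictMono _ hmono)]
        · beta_reduce
          rw [if_pos rfl]
          have h1 := f.map_perm (fun i => l (B i) - l 0) (Tuple.sort B)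
          have h2 : f (fun i => l (B i) - l 0) = ((Equiv.Perm.sign (Tuple.sort B) : ℤˣ) : ℤ) •
              f (fun i => l ((OrderEmbedding.ofStrictMono _ hmono) i) - l 0) := by
            have e : (fun i => l ((OrderEmbedding.ofStrictMono _ hmono) i) - l 0) =
                (fun i => l (B i) - l 0) ∘ Tuple.sort B := rfl
            rw [e, h1, Units.smul_def, ← mul_smul, ← Units.val_mul, Int.units_mul_self,
              Units.val_one, one_smul]
          rw [← h2, sub_self]
          exact zero_mem _
        · intro B'' _ hne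
          beta_reduce
          rw [if_neg hne, zero_smul]
        · intro h
          exact absurd (Finset.mem_univ _) h
      · refine ⟨fun _ => 0, ?_⟩
        simp only [Function.Injective, not_forall] at hB
        obtain ⟨i, j, hij, hne⟩ := hB
        rw [f.map_eq_zero_of_eq (fun i => l (B i) - l 0) (by simp only [hij]) hne]
        simp only [zero_smul, Finset.sum_const_zero, sub_zero]
        exact zero_mem _
    · refine ⟨fun _ => 0, ?_⟩
      simp only [zero_smul, Finset.sum_const_zero, sub_zero]
      exact AddSubgroup.subset_closure ⟨c, J, hc, rfl⟩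
  | zero =>
    refine ⟨fun _ => 0, ?_⟩
    simp only [zero_smul, Finset.sum_const_zero, sub_zero]
    exact zero_mem _
  | add x y _ _ hx hy =>
    obtain ⟨ν, hν⟩ := hx
    obtain ⟨μ, hμ⟩ := hy
    refine ⟨fun B => ν B + μ B, ?_⟩
    have e : x + y - ∑ B, (ν B + μ B) • f (fun i => l (B i) - l 0) =
        (x - ∑ B, ν B • f (fun i => l (B i) - l 0)) +
        (y - ∑ B, μ B • f (fun i => l (B i) - l 0)) := by
      simp only [add_smul, Finset.sum_add_distrib]
      abel
    rw [e]
    exact add_mem hν hμ
  | neg x _ hx =>
    obtain ⟨ν, hν⟩ := hx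
    refine ⟨fun B => - ν B, ?_⟩
    have e : -x - ∑ B, (- ν B) • f (fun i => l (B i) - l 0) =
        -(x - ∑ B, ν B • f (fun i => l (B i) - l 0)) := by
      simp only [neg_smul, Finset.sum_neg_distrib]
      abel
    rw [e]
    exact neg_mem hν

theorem explicit2 {x : G} (hx : x ∈ H2 f C l) :
    ∃ c : (Fin m → Fin (D + 1)) → V, (∀ J, c J ∈ C) ∧
      x = ∑ J, f (Fin.cons (c J) (fun a => l (J a))) := by
  classical
  have hφ : ∀ (J : Fin m → Fin (D + 1)) (c : V), f (Fin.cons c (fun a => l (J a))) =
      f.toMultilinearMap.curryLeft c (fun a => l (J a)) := fun _ _ => rfl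
  induction hx using AddSubgroup.closure_induction with
  | mem x hx =>
    obtain ⟨c, J, hc, rfl⟩ := hx
    refine ⟨fun J' => if J' = J then c else 0, fun J' => ?_, ?_⟩
    · dsimp only
      split_ifs
      · exact hc
      · exact zero_mem _
    · rw [Finset.sum_eq_single J]
      · beta_reduce
        rw [if_pos rfl]
      · intro J' _ hne
        beta_reduce
        rw [hφ, if_neg hne, map_zero, zero_apply]
      · intro h
        exact absurd (Finset.mem_univ _) h
  | zero =>
    refine ⟨fun _ => 0, fun _ => zero_mem _, ?_⟩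
    rw [Finset.sum_eq_zero]
    intro J _
    rw [hφ, map_zero, zero_apply]
  | add x y _ _ hx hy =>
    obtain ⟨c, hc, rfl⟩ := hx
    obtain ⟨d, hd, rfl⟩ := hy
    refine ⟨fun J => c J + d J, fun J => add_mem (hc J) (hd J), ?_⟩
    rw [← Finset.sum_add_distrib]
    refine Finset.sum_congr rfl fun J _ => ?_
    rw [hφ, hφ, hφ, map_add, add_apply]
  | neg x _ hx =>
    obtain ⟨c, hc, rfl⟩ := hx
    refine ⟨fun J => - c J, fun J => neg_mem (hc J), ?_⟩
    rw [← Finset.sum_neg_distrib]
    refine Finset.sum_congr rfl fun J _ => ?_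
    rw [hφ, hφ, map_neg, neg_apply]

end P4a177x
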