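import Pool.Agent.Lib.P4a177x.PlcX

/-!
# A function without poles at the divisors at infinity is constant
-/

set_option autoImplicit false

namespace P4a177x

open P4a177h P4a177s Function MvPolynomial

namespace RegXAux

section Linear

variable {n D : ℕ} (A : Arr n (D + 1))

theorem coeff_lin (k : Fin (D + 1)) (j : Fin n) :
    coeff (Finsupp.single j 1) (lin A k) = (A.a k j : ℚ) := by
  classical
  unfold lin
  rw [coeff_sum]
  simp_rw [coeff_C_mul, coeff_X]
  rw [Finset.sum_eq_single j]
  · simp
  · intro i _ hij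
    rw [if_neg, mul_zero]
    intro h
    exact hij (Finsupp.single_left_injective one_ne_zero h)
  · intro h
    exact absurd (Finset.mem_univ _) h

theorem lin_ne_zero (k : Fin (D + 1)) : lin A k ≠ 0 := by
  obtain ⟨j, hj⟩ := Function.ne_iff.mp (A.ne_zero k)
  intro h
  have h1 := coeff_lin A k j
  rw [h, coeff_zero] at h1
  exact hj (by exact_mod_cast h1.symm)

theorem lin_hom (k : Fin (D + 1)) : (lin A k).IsHomogeneous 1 := by
  unfold lin
  refine IsHomogeneous.sum _ _ _ fun j _ => ?_
  have := (isHomogeneous_C (Fin n) (A.a k j : ℚ)).mul (isHomogeneous_X ℚ j)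
  simpa using this

theorem lin_totalDegree (k : Fin (D + 1)) : (lin A k).totalDegree = 1 :=
  (lin_hom A k).totalDegree (lin_ne_zero A k)

theorem form_eq (k : Fin (D + 1)) :
    A.form k (X : Fin n → MvPolynomial (Fin n) ℚ) = lin A k + C (A.c k : ℚ) := by
  unfold Arr.form lin
  simp

theorem isUnit_of_totalDegree_eq_zero {p : MvPolynomial (Fin n) ℚ} (hp : p ≠ 0)
    (h : p.totalDegree = 0) : IsUnit p := by
  rw [isUnit_iff_eq_C_of_isReduced]
  rw [totalDegree_eq_zero_iff_eq_C] at h
  refine ⟨coeff 0 p, ?_, h⟩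
  rw [isUnit_iff_ne_zero]
  intro h0
  rw [h0, map_zero] at h
  exact hp h

end Linear

variable {m D : ℕ} (A : Arr (m + 2) (D + 1))

include A in
theorem exists_inj {k k' : Fin (D + 1)} (hkk : k ≠ k') :
    ∃ p : Fin (m + 2) → Fin (D + 1), Injective p ∧ p 0 = k ∧ p 1 = k' := by
  obtain ⟨p, hp⟩ := A.spans
  have hpi : Injective p := A.injective_of_lam hp
  set p1 : Fin (m + 2) → Fin (D + 1) := fun i => Equiv.swap (p 0) k (p i) with hp1
  have hp1i : Injective p1 := (Equiv.injective _).comp hpi
  have hp10 : p1 0 = k := by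
    rw [hp1]
    exact Equiv.swap_apply_left _ _
  refine ⟨fun i => Equiv.swap (p1 1) k' (p1 i), (Equiv.injective _).comp hp1i, ?_, ?_⟩
  · show Equiv.swap (p1 1) k' (p1 0) = k
    rw [Equiv.swap_apply_of_ne_of_ne, hp10]
    · intro h
      exact zero_ne_one (hp1i h)
    · rw [hp10]
      exact hkk
  · exact Equiv.swap_apply_left _ _

theorem not_dvd (hA : GP A) {k k' : Fin (D + 1)} (hkk : k ≠ k') : ¬ lin A k ∣ lin A k' := by
  rintro ⟨f, hf⟩
  have hf0 : f ≠ 0 := by
    rintro rfl
    rw [mul_zero] at hf
    exact lin_ne_zero A _ hf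
  have hdeg := congrArg totalDegree hf
  rw [lin_totalDegree, totalDegree_mul_of_isDomain (lin_ne_zero A k) hf0,
    lin_totalDegree] at hdeg
  have hf1 : f.totalDegree = 0 := by omega
  rw [totalDegree_eq_zero_iff_eq_C] at hf1
  have ha : ∀ j, (A.a k' j : ℚ) = coeff 0 f * (A.a k j : ℚ) := by
    intro j
    rw [← coeff_lin A k' j, hf, hf1, mul_comm, coeff_C_mul, coeff_lin, coeff_C]
    simp
  obtain ⟨p, hpi, hp0, hp1⟩ := exists_inj A hkk
  apply hA p hpi
  have h1 : ((A.lam p : ℤ) : ℚ) = (Matrix.of fun i j => (A.a (p i) j : ℚ)).det := by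
    exact RingHom.map_det (Int.castRingHom ℚ) (Matrix.of fun i j => A.a (p i) j)
  have h2 : (Matrix.of fun i j => (A.a (p i) j : ℚ)).det = 0 := by
    rw [← Matrix.exists_vecMul_eq_zero_iff]
    refine ⟨fun i => if i = 0 then coeff 0 f else if i = 1 then -1 else 0, ?_, ?_⟩
    · intro h0
      have := congrFun h0 1
      simp at this
    · funext j
      rw [Matrix.vecMul, dotProduct, Pi.zero_apply, Fin.sum_univ_succ, Fin.sum_univ_succ]
      rw [Finset.sum_eq_zero]
      · have e0 : (Matrix.of fun i j => (A.a (p i) j : ℚ)) 0 j = (A.a k j : ℚ) := by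
          rw [Matrix.of_apply, hp0]
        have e1 : (Matrix.of fun i j => (A.a (p i) j : ℚ)) (Fin.succ 0) j = (A.a k' j : ℚ) := by
          rw [Matrix.of_apply]
          show (A.a (p 1) j : ℚ) = _
          rw [hp1]
        rw [e0, e1, ha j]
        simp
      · intro i _
        have e2 : i.succ.succ ≠ (0 : Fin (m + 2)) := Fin.succ_ne_zero _
        have e3 : i.succ.succ ≠ (1 : Fin (m + 2)) := by
          intro h
          have : i.succ = (0 : Fin (m + 1)) := Fin.succ_injective _ h
          exact Fin.succ_ne_zero _ this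
        simp [e2, e3]
  have h3 : ((A.lam p : ℤ) : ℚ) = 0 := by rw [h1, h2]
  exact_mod_cast h3

theorem isRelPrime_lin (hA : GP A) {k k' : Fin (D + 1)} (hkk : k ≠ k') :
    IsRelPrime (lin A k) (lin A k') := by
  intro e hdi hdj
  obtain ⟨f, hf⟩ := hdi
  have hd0 : e ≠ 0 := by
    rintro rfl
    rw [zero_mul] at hf
    exact lin_ne_zero A _ hf
  have he0 : f ≠ 0 := by
    rintro rfl
    rw [mul_zero] at hf
    exact lin_ne_zero A _ hf
  have hdeg := congrArg totalDegree hf
  rw [lin_totalDegree, totalDegree_mul_of_isDomain hd0 he0] at hdeg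
  rcases Nat.eq_zero_or_pos e.totalDegree with h | h
  · exact isUnit_of_totalDegree_eq_zero hd0 h
  · exfalso
    have he1 : f.totalDegree = 0 := by omega
    have hu := isUnit_of_totalDegree_eq_zero he0 he1
    have hdvd : lin A k ∣ lin A k' := by
      rw [hf]
      exact (hu.mul_right_dvd).2 hdj
    exact not_dvd A hA hkk hdvd

theorem prod_totalDegree : (∏ k, lin A k).totalDegree = D + 1 := by
  have h : ∀ u : Finset (Fin (D + 1)), (∏ k ∈ u, lin A k).totalDegree = u.card := by
    classical
    intro u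
    induction u using Finset.induction_on with
    | empty => simp
    | insert a u ha ih =>
      rw [Finset.prod_insert ha, totalDegree_mul_of_isDomain (lin_ne_zero A _)
        (Finset.prod_ne_zero_iff.2 fun k _ => lin_ne_zero A k), ih, lin_totalDegree,
        Finset.card_insert_of_notMem ha, add_comm]
  rw [h, Finset.card_univ, Fintype.card_fin]

theorem form_totalDegree_le (k : Fin (D + 1)) :
    (A.form k (X : Fin (m + 2) → MvPolynomial (Fin (m + 2)) ℚ)).totalDegree ≤ 1 := by
  rw [form_eq]
  refine (totalDegree_add _ _).trans (max_le (lin_totalDegree A k).le ?_)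
  rw [totalDegree_C]
  exact Nat.zero_le _

theorem prod_sub_totalDegree (u : Finset (Fin (D + 1))) :
    (∏ k ∈ u, A.form k (X : Fin (m + 2) → MvPolynomial (Fin (m + 2)) ℚ) -
      ∏ k ∈ u, lin A k).totalDegree ≤ u.card - 1 := by
  classical
  induction u using Finset.induction_on with
  | empty => simp
  | insert a u ha ih =>
    rw [Finset.prod_insert ha, Finset.prod_insert ha, Finset.card_insert_of_notMem ha]
    have e : A.form a (X : Fin (m + 2) → MvPolynomial (Fin (m + 2)) ℚ) * ∏ k ∈ u, A.form k X -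
        lin A a * ∏ k ∈ u, lin A k =
        A.form a X * (∏ k ∈ u, A.form k X - ∏ k ∈ u, lin A k) +
          C (A.c a : ℚ) * ∏ k ∈ u, lin A k := by
      rw [form_eq A a]
      ring
    rw [e]
    refine (totalDegree_add _ _).trans (max_le ?_ ?_)
    · rcases u.eq_empty_or_nonempty with hu | hu
      · subst hu
        simp
      · have h1 := Finset.card_pos.2 hu
        refine (totalDegree_mul _ _).trans ?_
        have h2 := form_totalDegree_le A a
        omega
    · refine (totalDegree_mul _ _).trans ?_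
      rw [totalDegree_C, zero_add]
      refine (totalDegree_finsetProd _ _).trans ?_
      rw [Finset.sum_congr rfl fun k _ => lin_totalDegree A k]
      simp

theorem sub_comp_totalDegree {σ : Type} {R : Type} [CommRing R] (G : MvPolynomial σ R) (d : ℕ)
    (hG : G.totalDegree ≤ d + 1) :
    (G - homogeneousComponent (d + 1) G).totalDegree ≤ d := by
  classical
  rw [totalDegree, Finset.sup_le_iff]
  intro b hb
  rw [mem_support_iff, coeff_sub, coeff_homogeneousComponent] at hb
  have h1 : b.degree ≠ d + 1 := by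
    intro h
    rw [if_pos h, sub_self] at hb
    exact hb rfl
  rw [if_neg h1, sub_zero] at hb
  have h2 : (b.sum fun _ e => e) ≤ G.totalDegree :=
    le_totalDegree (mem_support_iff.2 hb)
  have h3 : (b.sum fun _ e => e) = b.degree := rfl
  omega

theorem mk_prod (N : ℕ) (hN : 1 ≤ N) :
    (Ideal.Quotient.mk (Ideal.span {A.eqn N})) (∏ k, A.form k X) =
      Ideal.Quotient.mk (Ideal.span {A.eqn N}) (C (1 / (N : ℚ))) := by
  have h0 : (N : ℚ) ≠ 0 := by
    have : N ≠ 0 := by omega
    exact_mod_cast this
  rw [Ideal.Quotient.eq, Ideal.mem_span_singleton]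
  refine ⟨C (1 / (N : ℚ)), ?_⟩
  unfold Arr.eqn
  have h1 : (N : MvPolynomial (Fin (m + 2)) ℚ) * C (1 / (N : ℚ)) = 1 := by
    have : (N : MvPolynomial (Fin (m + 2)) ℚ) = C (N : ℚ) := by simp
    rw [this, ← C_mul, mul_one_div_cancel h0, C_1]
  linear_combination (-(∏ k, A.form k (X : Fin (m + 2) → MvPolynomial (Fin (m + 2)) ℚ))) * h1

theorem descent (hA : GP A) (N : ℕ) (hN : 1 ≤ N) (r : A.CoordRing N)
    (top : ∀ (k : Fin (D + 1)) (G : MvPolynomial (Fin (m + 2)) ℚ) (d : ℕ), 
      Ideal.Quotient.mk (Ideal.span {A.eqn N}) G = r → G.totalDegree ≤ d + 1 →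
      lin A k ∣ homogeneousComponent (d + 1) G) (d : ℕ) :
    ∀ G : MvPolynomial (Fin (m + 2)) ℚ, Ideal.Quotient.mk (Ideal.span {A.eqn N}) G = r →
      G.totalDegree ≤ d → ∃ t : ℚ, r = algebraMap ℚ (A.CoordRing N) t := by
  induction d with
  | zero =>
    intro G hG hd
    have h1 : G.totalDegree = 0 := by omega
    rw [totalDegree_eq_zero_iff_eq_C] at h1
    refine ⟨coeff 0 G, ?_⟩
    rw [← hG, h1]
    simp only [coeff_C, if_true]
    rfl
  | succ d ih =>
    intro G hG hd
    have hdvd : ∏ k, lin A k ∣ homogeneousComponent (d + 1) G :=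
      Fintype.prod_dvd_of_isRelPrime (fun i j hij => isRelPrime_lin A hA hij)
        fun k => top k G d hG hd
    obtain ⟨H, hH⟩ := hdvd
    have hsub := sub_comp_totalDegree G d hd
    by_cases h0 : homogeneousComponent (d + 1) G = 0
    · rw [h0, sub_zero] at hsub
      exact ih G hG hsub
    · have hH0 : H ≠ 0 := by
        rintro rfl
        rw [mul_zero] at hH
        exact h0 hH
      have hdeg : H.totalDegree + D = d := by
        have h1 := (homogeneousComponent_isHomogeneous (d + 1) G).totalDegree h0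
        rw [hH, totalDegree_mul_of_isDomain
          (Finset.prod_ne_zero_iff.2 fun k _ => lin_ne_zero A k) hH0, prod_totalDegree] at h1
        omega
      set R : MvPolynomial (Fin (m + 2)) ℚ := ∏ k, A.form k X - ∏ k, lin A k with hR
      have hRd : R.totalDegree ≤ D := by
        have := prod_sub_totalDegree A Finset.univ
        rw [Finset.card_univ, Fintype.card_fin] at this
        simpa using this
      have e : G - H * ∏ k, A.form k X + C (1 / (N : ℚ)) * H =
          (G - homogeneousComponent (d + 1) G) - H * R + C (1 / (N : ℚ)) * H := by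
        rw [hH, hR]
        ring
      apply ih (G - H * ∏ k, A.form k X + C (1 / (N : ℚ)) * H)
      · rw [map_add, map_sub, map_mul, map_mul, mk_prod A N hN, hG]
        ring
      · rw [e]
        refine (totalDegree_add _ _).trans (max_le ((totalDegree_sub _ _).trans
          (max_le hsub ?_)) ?_)
        · refine (totalDegree_mul _ _).trans ?_
          omega
        · refine (totalDegree_mul _ _).trans ?_
          rw [totalDegree_C]
          omega

end RegXAux

open RegXAux in
theorem regular {m D : ℕ} (A : Arr (m + 2) (D + 1)) (hA : GP A) (N : ℕ) (hN : 1 ≤ N)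
    (F : Fin (D + 1) → Fin (m + 1) → Fin (D + 1)) (hF : ∀ k, F k 0 = k)
    (P : ∀ k, Place A N (F k)) (r : A.CoordRing N) (h : ∀ k, vls (P k).L ((P k).φ r) ≤ 1) :
    ∃ t : ℚ, r = algebraMap ℚ (A.CoordRing N) t := by
  obtain ⟨G, hG⟩ := Ideal.Quotient.mk_surjective r
  refine descent A hA N hN r (fun k G d hG hd => ?_) G.totalDegree G hG le_rfl
  have h1 := (P k).top G (d + 1) hd (by
    rw [hG]
    refine (h k).trans_lt ?_
    rw [← WithZero.exp_zero, WithZero.exp_lt_exp]
    exact_mod_cast Nat.succ_pos d)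
  rwa [hF k] at h1

end P4a177x
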