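import Pool.Agent.Lib.P4a177x.Defs
import Pool.Agent.Lib.P4a177w.OrdW

/-!
# MODULE P4a177x.TopX: the top form of a function with a pole of lower order at a place

PROOFS. `coeff_top`: `single (-1) 1 * Y s`: multiply `G` evaluated there by `single d 1`: for every monomial of degree `j ≤ d` one gets
`single (d - j) 1` times a power series with the constant coefficient the value of the monomial at `y`; so the product is a power series with constant
coefficient `eval₂ ι y (homogeneousComponent d G)` (expand `G` as the sum of its monomials, `MvPolynomial.eval₂_eq`, `homogeneousComponent_apply`/`coeff_homogeneousComponent`);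
if this is `≠ 0` the value of the product is `1` and `vls L (..) = exp d` (for the valuation facts over a general field see the proofs of
`P4a177w.vL_coe_unit`, `vL_single`, `vL_coe_le` in `Lib/P4a177w/OrdW.lean`, which work for every field). `pt_top`: let `q : Fin (m + 2) → Fin (D + 1)` be
`Fin.snoc F e` (injective by `hF`, `P.he`); by `hA` the linear forms `λ_{q s}` are a basis of the linear forms over `ℚ`, so there is an invertible linear substitution: `G = G' (λ_{q 0}, …, λ_{q (m + 1)})`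
(`MvPolynomial.bind₁`/`aeval`), `G'` homogeneous of degree `d`. Evaluate at `y`: `G' (0, z_1, …, z_m, 1) = 0`. The polynomial `G'(0, T_1, …, T_m, 1)` in
`m` variables is `0` by `P.indep`. As `G'` is homogeneous, `G'(0, T_1, …, T_m, T_e)` is `0` too (different monomials of degree `d` in `T_1, …, T_m, T_e` stay different for
`T_e = 1`), so `X 0` divides `G'` (`MvPolynomial.X_dvd_iff_modMonomial_eq_zero` or look at the monomials) and `λ_{F 0}` divides `G`.
-/

set_option autoImplicit false

namespace P4a177x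

open P4a177h P4a177s Function MvPolynomial

namespace TopXAux

theorem vls_coe_lt {L : Type} [Field L] (P : PowerSeries L)
    (h : vls L (P : LaurentSeries L) < 1) : PowerSeries.constantCoeff P = 0 := by
  by_contra hne
  have hu : IsUnit P := PowerSeries.isUnit_iff_constantCoeff.mpr (isUnit_iff_ne_zero.mpr hne)
  obtain ⟨u, rfl⟩ := hu
  have h2 : vls L (((u⁻¹ : (PowerSeries L)ˣ) : PowerSeries L) : LaurentSeries L) ≤ 1 :=
    (LaurentSeries.val_le_one_iff_eq_coe L _).mpr ⟨_, rfl⟩
  have h3 : vls L ((u : PowerSeries L) : LaurentSeries L) *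
      vls L (((u⁻¹ : (PowerSeries L)ˣ) : PowerSeries L) : LaurentSeries L) = 1 := by
    rw [← map_mul, ← PowerSeries.coe_mul, Units.mul_inv, PowerSeries.coe_one, map_one]
  have h4 : vls L ((u : PowerSeries L) : LaurentSeries L) *
      vls L (((u⁻¹ : (PowerSeries L)ˣ) : PowerSeries L) : LaurentSeries L) < 1 := by
    calc _ ≤ vls L ((u : PowerSeries L) : LaurentSeries L) * 1 := mul_le_mul_right h2 _
      _ = _ := mul_one _
      _ < 1 := h
  rw [h3] at h4
  exact lt_irrefl _ h4

/-- the power series -/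
noncomputable def PP {n : ℕ} {L : Type} [Field L] (ι : ℚ →+* L) (Y : Fin n → PowerSeries L)
    (G : MvPolynomial (Fin n) ℚ) (d : ℕ) : PowerSeries L :=
  ∑ s ∈ G.support, PowerSeries.X ^ (d - s.degree) *
    (PowerSeries.C (ι (coeff s G)) * ∏ i, Y i ^ s i)

theorem PP_coe {n : ℕ} {L : Type} [Field L] (ι : ℚ →+* L) (Y : Fin n → PowerSeries L)
    (G : MvPolynomial (Fin n) ℚ) (d : ℕ) (hG : G.totalDegree ≤ d) (κ : ℚ →+* LaurentSeries L) :
    ((PP ι Y G d : PowerSeries L) : LaurentSeries L) = HahnSeries.single (d : ℤ) 1 *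
      eval₂ κ (fun s => HahnSeries.single (-1 : ℤ) 1 * (Y s : LaurentSeries L)) G := by
  have hκ : ∀ q : ℚ, κ q = ((PowerSeries.C (ι q) : PowerSeries L) : LaurentSeries L) := by
    intro q
    have h : κ = (HahnSeries.C : L →+* LaurentSeries L).comp ι := Subsingleton.elim _ _
    rw [h, PowerSeries.coe_C]
    rfl
  have hcoe : ∀ P : PowerSeries L, (P : LaurentSeries L) = HahnSeries.ofPowerSeries ℤ L P :=
    fun P => rfl
  unfold PP
  rw [eval₂_eq', Finset.mul_sum, hcoe, map_sum]
  refine Finset.sum_congr rfl fun s hs => ?_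
  have hsd : s.degree ≤ d := by
    refine le_trans ?_ hG
    have := MvPolynomial.le_totalDegree hs
    rwa [Finsupp.degree_eq_sum, ← Finsupp.sum_fintype s (fun _ e => e) (fun _ => rfl)]
  have h1 : ∏ i, (HahnSeries.single (-1 : ℤ) (1 : L) * (Y i : LaurentSeries L)) ^ s i =
      HahnSeries.single (-(s.degree : ℤ)) (1 : L) * ∏ i, ((Y i : LaurentSeries L)) ^ s i := by
    simp_rw [mul_pow]
    rw [Finset.prod_mul_distrib]
    congr 1
    have e : s.degree • (-1 : ℤ) = -(s.degree : ℤ) := by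
      rw [nsmul_eq_mul, mul_neg_one]
    rw [Finset.prod_pow_eq_pow_sum, ← Finsupp.degree_eq_sum, HahnSeries.single_pow, one_pow, e]
  have h2 : (HahnSeries.single (d : ℤ) (1 : L)) * HahnSeries.single (-(s.degree : ℤ)) (1 : L) =
      HahnSeries.ofPowerSeries ℤ L (PowerSeries.X ^ (d - s.degree)) := by
    have e : (d - s.degree) • (1 : ℤ) = (d : ℤ) + -(s.degree : ℤ) := by
      rw [nsmul_eq_mul, mul_one, Nat.cast_sub hsd, sub_eq_add_neg]
    rw [HahnSeries.single_mul_single, mul_one, map_pow, HahnSeries.ofPowerSeries_X,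
      HahnSeries.single_pow, one_pow, e]
  rw [h1, hκ, hcoe, map_mul, map_mul, map_prod]
  rw [map_pow] at h2
  simp_rw [map_pow]
  rw [← h2]
  ring

theorem PP_const {n : ℕ} {L : Type} [Field L] (ι : ℚ →+* L) (y : Fin n → L)
    (Y : Fin n → PowerSeries L) (hY : ∀ s, PowerSeries.constantCoeff (Y s) = y s)
    (G : MvPolynomial (Fin n) ℚ) (d : ℕ) (hG : G.totalDegree ≤ d) :
    PowerSeries.constantCoeff (PP ι Y G d) = eval₂ ι y (homogeneousComponent d G) := by
  unfold PP
  rw [homogeneousComponent_apply, eval₂_sum, Finset.sum_filter, map_sum]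
  refine Finset.sum_congr rfl fun s hs => ?_
  have hsd : s.degree ≤ d := by
    refine le_trans ?_ hG
    have := MvPolynomial.le_totalDegree hs
    rwa [Finsupp.degree_eq_sum, ← Finsupp.sum_fintype s (fun _ e => e) (fun _ => rfl)]
  rw [map_mul, map_pow, PowerSeries.constantCoeff_X, map_mul, PowerSeries.constantCoeff_C,
    map_prod]
  simp_rw [map_pow, hY]
  split_ifs with h
  · rw [h, Nat.sub_self, pow_zero, one_mul, eval₂_monomial, Finsupp.prod_fintype]
    intro i
    exact pow_zero _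
  · rw [zero_pow (by omega), zero_mul]

/-- the substitution `0, X_1, …, X_m, 1` -/
noncomputable def vv (m : ℕ) : Fin (m + 2) → MvPolynomial (Fin m) ℚ :=
  Fin.cons 0 (Fin.snoc (fun a => X a) 1)

/-- the exponents in the middle -/
noncomputable def tl {m : ℕ} (s : Fin (m + 2) →₀ ℕ) : Fin m →₀ ℕ :=
  Finsupp.equivFunOnFinite.symm fun a => s a.castSucc.succ

theorem prod_vv {m : ℕ} (s : Fin (m + 2) →₀ ℕ) :
    ∏ i, vv m i ^ s i = if s 0 = 0 then monomial (tl s) 1 else 0 := by
  rw [Fin.prod_univ_succ, Fin.prod_univ_castSucc]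
  unfold vv
  simp only [Fin.cons_zero, Fin.cons_succ, Fin.snoc_castSucc, Fin.snoc_last, one_pow, mul_one]
  split_ifs with h
  · rw [h, pow_zero, one_mul, monomial_eq, C_1, one_mul, Finsupp.prod_fintype]
    · rfl
    · intro i
      exact pow_zero _
  · rw [zero_pow h, zero_mul]

theorem tl_inj {m d : ℕ} {s s' : Fin (m + 2) →₀ ℕ} (h0 : s 0 = 0) (h0' : s' 0 = 0)
    (hs : s.degree = d) (hs' : s'.degree = d) (h : tl s = tl s') : s = s' := by
  have h1 : ∀ a : Fin m, s a.castSucc.succ = s' a.castSucc.succ := by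
    intro a
    exact DFunLike.congr_fun h a
  rw [Finsupp.degree_eq_sum, Fin.sum_univ_succ, Fin.sum_univ_castSucc] at hs hs'
  have h2 : ∑ a : Fin m, s a.castSucc.succ = ∑ a : Fin m, s' a.castSucc.succ :=
    Finset.sum_congr rfl fun a _ => h1 a
  ext i
  refine Fin.cases ?_ (fun j => ?_) i
  · rw [h0, h0']
  · refine Fin.lastCases ?_ (fun a => h1 a) j
    omega

theorem X_dvd {m d : ℕ} (G : MvPolynomial (Fin (m + 2)) ℚ) (hG : G.IsHomogeneous d)
    (h : aeval (vv m) G = 0) : X 0 ∣ G := by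
  classical
  rw [X_dvd_iff_modMonomial_eq_zero]
  ext s
  rw [coeff_zero]
  by_cases hs : Finsupp.single 0 1 ≤ s
  · exact coeff_modMonomial_of_le _ hs
  rw [coeff_modMonomial_of_not_le _ hs]
  have hs0 : s 0 = 0 := by
    by_contra h1
    exact hs (Finsupp.single_le_iff.mpr (Nat.one_le_iff_ne_zero.mpr h1))
  by_contra hc
  have hsd : s.degree = d := by
    rw [Finsupp.degree_eq_weight_one]
    exact hG hc
  have h1 : coeff (tl s) (aeval (vv m) G) = coeff s G := by
    rw [aeval_def, eval₂_eq', coeff_sum]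
    rw [Finset.sum_eq_single s]
    · rw [prod_vv, if_pos hs0, algebraMap_eq, coeff_C_mul, coeff_monomial, if_pos rfl, mul_one]
    · intro s' hs' hne
      have hsd' : s'.degree = d := by
        rw [Finsupp.degree_eq_weight_one]
        exact hG (mem_support_iff.mp hs')
      rw [prod_vv, algebraMap_eq, coeff_C_mul]
      split_ifs with h0
      · rw [coeff_monomial, if_neg, mul_zero]
        intro h2
        exact hne (tl_inj h0 hs0 hsd' hsd h2)
      · rw [coeff_zero, mul_zero]
    · intro h2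
      exact absurd (mem_support_iff.mpr hc) h2
  rw [h, coeff_zero] at h1
  exact hc h1.symm

end TopXAux

open TopXAux in
theorem coeff_top {n : ℕ} {L : Type} [Field L] (ι : ℚ →+* L) (y : Fin n → L)
    (Y : Fin n → PowerSeries L) (hY : ∀ s, PowerSeries.constantCoeff (Y s) = y s)
    (G : MvPolynomial (Fin n) ℚ) (d : ℕ) (hG : G.totalDegree ≤ d) (κ : ℚ →+* LaurentSeries L)
    (hv : vls L (eval₂ κ (fun s => HahnSeries.single (-1 : ℤ) 1 * (Y s : LaurentSeries L)) G) <
      WithZero.exp (d : ℤ)) :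
    eval₂ ι y (homogeneousComponent d G) = 0 := by
  rw [← PP_const ι y Y hY G d hG]
  refine vls_coe_lt _ ?_
  rw [PP_coe ι Y G d hG κ, map_mul]
  have h1 : vls L (HahnSeries.single (d : ℤ) (1 : L)) = WithZero.exp (-(d : ℤ)) :=
    LaurentSeries.valuation_single_zpow L (d : ℤ)
  rw [h1]
  calc WithZero.exp (-(d : ℤ)) *
      vls L (eval₂ κ (fun s => HahnSeries.single (-1 : ℤ) 1 * (Y s : LaurentSeries L)) G)
      < WithZero.exp (-(d : ℤ)) * WithZero.exp (d : ℤ) :=
        mul_lt_mul_of_pos_left hv WithZero.exp_pos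
    _ = 1 := by rw [← WithZero.exp_add, neg_add_cancel, WithZero.exp_zero]

open TopXAux in
theorem pt_top {m D : ℕ} (A : Arr (m + 2) (D + 1)) (hA : GP A) (F : Fin (m + 1) → Fin (D + 1))
    (hF : Injective F) (P : Pt A F) (G : MvPolynomial (Fin (m + 2)) ℚ) (d : ℕ)
    (hG : G.IsHomogeneous d) (h0 : eval₂ P.Λ.ι P.y G = 0) : lin A (F 0) ∣ G := by
  classical
  have := P.charL
  -- the indices
  set q : Fin (m + 2) → Fin (D + 1) := Fin.snoc F P.e with hq
  have hqi : Injective q := by
    rw [hq, Fin.snoc_injective_iff]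
    exact ⟨hF, fun ⟨a, ha⟩ => P.he a ha⟩
  have hq0 : q 0 = F 0 := by
    have h : (0 : Fin (m + 2)) = Fin.castSucc 0 := rfl
    rw [hq, h, Fin.snoc_castSucc]
  have hqa : ∀ a : Fin m, q a.castSucc.succ = F a.succ := by
    intro a
    rw [hq, Fin.succ_castSucc, Fin.snoc_castSucc]
  have hql : q (Fin.last m).succ = P.e := by
    rw [hq, Fin.succ_last, Fin.snoc_last]
  -- the matrix
  set M : Matrix (Fin (m + 2)) (Fin (m + 2)) ℚ := Matrix.of fun i j => (A.a (q i) j : ℚ) with hM
  have hdet : M.det ≠ 0 := by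
    have h1 : M = (Matrix.of fun i j => A.a (q i) j).map (Int.castRingHom ℚ) := by
      ext i j
      rfl
    rw [h1, ← RingHom.mapMatrix_apply, ← RingHom.map_det]
    intro h2
    have h3 := hA q hqi
    unfold Arr.lam at h3
    exact h3 ((Int.cast_eq_zero (α := ℚ)).mp h2)
  have hNM : M⁻¹ * M = 1 := Matrix.nonsing_inv_mul _ (isUnit_iff_ne_zero.mpr hdet)
  have hMN : M * M⁻¹ = 1 := Matrix.mul_nonsing_inv _ (isUnit_iff_ne_zero.mpr hdet)
  set Φ : MvPolynomial (Fin (m + 2)) ℚ →ₐ[ℚ] MvPolynomial (Fin (m + 2)) ℚ :=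
    aeval fun j => ∑ s, C (M⁻¹ j s) * X s with hΦ
  set Ψ : MvPolynomial (Fin (m + 2)) ℚ →ₐ[ℚ] MvPolynomial (Fin (m + 2)) ℚ :=
    aeval fun s => lin A (q s) with hΨ
  have hlin : ∀ s, lin A (q s) = ∑ j, C (M s j) * X j := fun s => rfl
  have hΨΦ : ∀ H, Ψ (Φ H) = H := by
    intro H
    have h1 : Ψ.comp Φ = AlgHom.id ℚ _ := by
      refine MvPolynomial.algHom_ext fun j => ?_
      rw [AlgHom.comp_apply, hΦ, aeval_X, map_sum, AlgHom.id_apply]
      simp_rw [map_mul, hΨ, aeval_X, algHom_C, hlin, algebraMap_eq, Finset.mul_sum]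
      rw [Finset.sum_comm]
      have h2 : ∀ i : Fin (m + 2), ∑ s, C (M⁻¹ j s) * (C (M s i) * X i) =
          C ((M⁻¹ * M) j i) * (X i : MvPolynomial (Fin (m + 2)) ℚ) := by
        intro i
        rw [Matrix.mul_apply, map_sum, Finset.sum_mul]
        refine Finset.sum_congr rfl fun s _ => ?_
        rw [C_mul]
        ring
      simp_rw [h2, hNM]
      rw [Finset.sum_eq_single j]
      · rw [Matrix.one_apply_eq, C_1, one_mul]
      · intro i _ hi
        rw [Matrix.one_apply_ne hi.symm, C_0, zero_mul]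
      · intro h
        exact absurd (Finset.mem_univ _) h
    exact DFunLike.congr_fun h1 H
  -- the transformed polynomial
  have hhom : (Φ G).IsHomogeneous d := by
    have h1 := hG.aeval (fun j => ∑ s, C (M⁻¹ j s) * (X s : MvPolynomial (Fin (m + 2)) ℚ))
      (n := 1) (fun j => by
        refine IsHomogeneous.sum _ _ _ fun s _ => ?_
        have := (isHomogeneous_C (Fin (m + 2)) (M⁻¹ j s)).mul (isHomogeneous_X ℚ s)
        simpa using this)
    rw [one_mul] at h1
    exact h1
  have hev : ∀ H, eval₂ P.Λ.ι (fun s => linv A (q s) P.y) H = eval₂ P.Λ.ι P.y (Ψ H) := by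
    intro H
    have h1 : eval₂Hom P.Λ.ι (fun s => linv A (q s) P.y) =
        (eval₂Hom P.Λ.ι P.y).comp (Ψ : MvPolynomial (Fin (m + 2)) ℚ →+* _) := by
      refine MvPolynomial.ringHom_ext' (Subsingleton.elim _ _) fun s => ?_
      rw [eval₂Hom_X', RingHom.comp_apply]
      change _ = eval₂Hom P.Λ.ι P.y (Ψ (X s))
      rw [hΨ, aeval_X]
      unfold lin linv
      rw [map_sum]
      refine Finset.sum_congr rfl fun j _ => ?_
      rw [map_mul, eval₂Hom_X', coe_eval₂Hom, eval₂_C, map_intCast]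
    exact DFunLike.congr_fun h1 H
  have hzero : aeval (vv m) (Φ G) = 0 := by
    by_contra hne
    refine P.indep _ hne ?_
    have h1 : eval₂Hom P.Λ.ι (fun s => linv A (q s) P.y) =
        (eval₂Hom P.Λ.ι (fun a => (P.z a : P.L))).comp
          ((aeval (vv m) : MvPolynomial (Fin (m + 2)) ℚ →ₐ[ℚ] _) :
            MvPolynomial (Fin (m + 2)) ℚ →+* MvPolynomial (Fin m) ℚ) := by
      refine MvPolynomial.ringHom_ext' (Subsingleton.elim _ _) fun s => ?_
      rw [eval₂Hom_X', RingHom.comp_apply]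
      change _ = eval₂Hom P.Λ.ι (fun a => (P.z a : P.L)) (aeval (vv m) (X s))
      rw [aeval_X]
      unfold vv
      refine Fin.cases ?_ (fun j => ?_) s
      · rw [Fin.cons_zero, map_zero, hq0]
        exact P.hk
      · rw [Fin.cons_succ]
        refine Fin.lastCases ?_ (fun a => ?_) j
        · rw [Fin.snoc_last, map_one, hql]
          exact P.hone
        · rw [Fin.snoc_castSucc, eval₂Hom_X', hqa]
          exact P.hz a
    have h2 := DFunLike.congr_fun h1 (Φ G)
    change eval₂ P.Λ.ι (fun s => linv A (q s) P.y) (Φ G) =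
      eval₂ P.Λ.ι (fun a => (P.z a : P.L)) (aeval (vv m) (Φ G)) at h2
    rw [← h2, hev, hΨΦ, h0]
  obtain ⟨H, hH⟩ := X_dvd (Φ G) hhom hzero
  refine ⟨Ψ H, ?_⟩
  have h3 : Ψ (Φ G) = Ψ (X 0) * Ψ H := by rw [hH, map_mul]
  rw [hΨΦ] at h3
  rw [h3, hΨ, aeval_X, hq0]

end P4a177x
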